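import Pool.Agent.W538.HPol.Defs

/-! Triangular matrices, leading minors and the Cholesky decomposition of `4 × 4` matrices. -/

noncomputable section

namespace Pool.Agent.W538.HPol

open Matrix Set

/-- leading principal minors -/
def m1 (P : Mat) : ℝ := P 0 0
/-- leading principal minors -/
def m2 (P : Mat) : ℝ := P 0 0 * P 1 1 - P 0 1 * P 1 0
/-- leading principal minors -/
def m3 (P : Mat) : ℝ := P 0 0 * (P 1 1 * P 2 2 - P 1 2 * P 2 1) -
  P 0 1 * (P 1 0 * P 2 2 - P 1 2 * P 2 0) + P 0 2 * (P 1 0 * P 2 1 - P 1 1 * P 2 0)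

/-- lower triangular -/
def Low (s : Mat) : Prop := s 0 1 = 0 ∧ s 0 2 = 0 ∧ s 0 3 = 0 ∧ s 1 2 = 0 ∧ s 1 3 = 0 ∧ s 2 3 = 0

/-- lower triangular unipotent -/
def Uni (s : Mat) : Prop := Low s ∧ s 0 0 = 1 ∧ s 1 1 = 1 ∧ s 2 2 = 1 ∧ s 3 3 = 1

/-- diagonal matrices -/
def dg (z : Fin 4 → ℝ) : Mat := diagonal fun i => Real.exp (z i)

lemma det_four (A : Mat) : A.det =
    A 0 0 * (A 1 1 * (A 2 2 * A 3 3 - A 2 3 * A 3 2) - A 1 2 * (A 2 1 * A 3 3 - A 2 3 * A 3 1)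
      + A 1 3 * (A 2 1 * A 3 2 - A 2 2 * A 3 1))
    - A 0 1 * (A 1 0 * (A 2 2 * A 3 3 - A 2 3 * A 3 2) - A 1 2 * (A 2 0 * A 3 3 - A 2 3 * A 3 0)
      + A 1 3 * (A 2 0 * A 3 2 - A 2 2 * A 3 0))
    + A 0 2 * (A 1 0 * (A 2 1 * A 3 3 - A 2 3 * A 3 1) - A 1 1 * (A 2 0 * A 3 3 - A 2 3 * A 3 0)
      + A 1 3 * (A 2 0 * A 3 1 - A 2 1 * A 3 0))
    - A 0 3 * (A 1 0 * (A 2 1 * A 3 2 - A 2 2 * A 3 1) - A 1 1 * (A 2 0 * A 3 2 - A 2 2 * A 3 0)
      + A 1 2 * (A 2 0 * A 3 1 - A 2 1 * A 3 0)) := by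
  rw [Matrix.det_succ_row_zero]
  simp only [Fin.sum_univ_four, Matrix.det_fin_three, Matrix.submatrix_apply]
  simp [Fin.succAbove, Fin.succ, Fin.lt_def, Fin.castSucc]
  ring

lemma mul3_apply (s Q t : Mat) (i j : Fin 4) : (s * Q * t) i j =
    ∑ l, (∑ k, s i k * Q k l) * t l j := by
  simp only [Matrix.mul_apply]

lemma m1_conj {s : Mat} (hs : Low s) (Q : Mat) : m1 (s * Q * sᵀ) = s 0 0 ^ 2 * m1 Q := by
  obtain ⟨h1, h2, h3, h4, h5, h6⟩ := hs
  simp only [m1, mul3_apply, Fin.sum_univ_four, Matrix.transpose_apply, h1, h2, h3]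
  ring

lemma m2_conj {s : Mat} (hs : Low s) (Q : Mat) :
    m2 (s * Q * sᵀ) = (s 0 0 * s 1 1) ^ 2 * m2 Q := by
  obtain ⟨h1, h2, h3, h4, h5, h6⟩ := hs
  simp only [m2, mul3_apply, Fin.sum_univ_four, Matrix.transpose_apply, h1, h2, h3, h4, h5]
  ring

lemma m3_conj {s : Mat} (hs : Low s) (Q : Mat) :
    m3 (s * Q * sᵀ) = (s 0 0 * s 1 1 * s 2 2) ^ 2 * m3 Q := by
  obtain ⟨h1, h2, h3, h4, h5, h6⟩ := hs
  simp only [m3, mul3_apply, Fin.sum_univ_four, Matrix.transpose_apply, h1, h2, h3, h4, h5, h6]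
  ring

lemma m1_dg (z : Fin 4 → ℝ) : m1 (dg z) = Real.exp (z 0) := by simp [m1, dg]

lemma m2_dg (z : Fin 4 → ℝ) : m2 (dg z) = Real.exp (z 0 + z 1) := by
  simp [m2, dg, Real.exp_add]

lemma m3_dg (z : Fin 4 → ℝ) : m3 (dg z) = Real.exp (z 0 + z 1 + z 2) := by
  simp [m3, dg, Real.exp_add]; ring

/-- the points of the symmetric space in horospherical coordinates -/
def PT (k : Mat) (z : Fin 4 → ℝ) : Mat := k * dg z * kᵀ

lemma m1_PT {k : Mat} (hk : Uni k) (z : Fin 4 → ℝ) : m1 (PT k z) = Real.exp (z 0) := by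
  rw [PT, m1_conj hk.1, m1_dg, hk.2.1]; ring

lemma m2_PT {k : Mat} (hk : Uni k) (z : Fin 4 → ℝ) : m2 (PT k z) = Real.exp (z 0 + z 1) := by
  rw [PT, m2_conj hk.1, m2_dg, hk.2.1, hk.2.2.1]; ring

lemma m3_PT {k : Mat} (hk : Uni k) (z : Fin 4 → ℝ) :
    m3 (PT k z) = Real.exp (z 0 + z 1 + z 2) := by
  rw [PT, m3_conj hk.1, m3_dg, hk.2.1, hk.2.2.1, hk.2.2.2.1]; ring

lemma det_uni {k : Mat} (hk : Uni k) : k.det = 1 := by
  obtain ⟨⟨h1, h2, h3, h4, h5, h6⟩, h7, h8, h9, h10⟩ := hk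
  rw [det_four]
  simp only [h1, h2, h3, h4, h5, h6, h7, h8, h9, h10]
  ring

lemma det_dg (z : Fin 4 → ℝ) : (dg z).det = Real.exp (z 0 + z 1 + z 2 + z 3) := by
  rw [dg, Matrix.det_diagonal, Fin.prod_univ_four, Real.exp_add, Real.exp_add, Real.exp_add]

lemma PT_mem {k : Mat} (hk : Uni k) {z : Fin 4 → ℝ} (hz : z 0 + z 1 + z 2 + z 3 = 0) :
    PT k z ∈ PD := by
  have hdet : k.det = 1 := det_uni hk
  refine ⟨?_, ?_⟩
  · have h1 : (dg z).PosDef := Matrix.PosDef.diagonal fun i => Real.exp_pos _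
    have h2 : kᴴ = kᵀ := Matrix.conjTranspose_eq_transpose_of_trivial k
    have h3 := h1.mul_mul_conjTranspose_same (B := k) (by
      rw [Matrix.vecMul_injective_iff_isUnit, Matrix.isUnit_iff_isUnit_det, hdet]
      exact isUnit_one)
    rw [h2] at h3
    exact h3
  · rw [PT, Matrix.det_mul, Matrix.det_mul, Matrix.det_transpose, hdet, det_dg, hz]
    simp

lemma m1_pos {P : Mat} (hP : P.PosDef) : 0 < m1 P := hP.diag_pos

lemma m2_pos {P : Mat} (hP : P.PosDef) : 0 < m2 P := by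
  have h := (hP.submatrix (e := (![0, 1] : Fin 2 → Fin 4)) (by decide)).det_pos
  rw [Matrix.det_fin_two] at h
  exact h

lemma m3_pos {P : Mat} (hP : P.PosDef) : 0 < m3 P := by
  have h := (hP.submatrix (e := (![0, 1, 2] : Fin 3 → Fin 4)) (by decide)).det_pos
  rw [Matrix.det_fin_three] at h
  simp only [Matrix.submatrix_apply] at h
  unfold m3
  simp at h
  linarith

lemma symm_of {P : Mat} (hP : P.PosDef) (i j : Fin 4) : P i j = P j i := by
  have := hP.isHermitian.apply j i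
  simpa using this

/-- the lower unipotent factor of a positive definite matrix -/
def kof (P : Mat) : Mat :=
  !![1, 0, 0, 0;
     P 1 0 / m1 P, 1, 0, 0;
     P 2 0 / m1 P, (P 2 1 * P 0 0 - P 2 0 * P 1 0) / m2 P, 1, 0;
     P 3 0 / m1 P, (P 3 1 * P 0 0 - P 3 0 * P 1 0) / m2 P,
      (P 3 2 * (P 0 0 * P 1 1 - P 1 0 * P 1 0) - P 3 1 * (P 0 0 * P 2 1 - P 1 0 * P 2 0)
        + P 3 0 * (P 1 0 * P 2 1 - P 1 1 * P 2 0)) / m3 P, 1]

/-- the logarithms of the diagonal factor -/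
def zof (P : Mat) : Fin 4 → ℝ :=
  ![Real.log (m1 P), Real.log (m2 P) - Real.log (m1 P), Real.log (m3 P) - Real.log (m2 P),
    -Real.log (m3 P)]

lemma uni_kof (P : Mat) : Uni (kof P) := by
  simp [Uni, Low, kof]

lemma sum_zof (P : Mat) : zof P 0 + zof P 1 + zof P 2 + zof P 3 = 0 := by
  simp [zof]

lemma chol {P : Mat} (hP : P ∈ PD) : P = PT (kof P) (zof P) := by
  obtain ⟨hp, hd⟩ := hP
  have h1 := m1_pos hp
  have h2 := m2_pos hp
  have h3 := m3_pos hp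
  have s01 := symm_of hp 0 1
  have s02 := symm_of hp 0 2
  have s03 := symm_of hp 0 3
  have s12 := symm_of hp 1 2
  have s13 := symm_of hp 1 3
  have s23 := symm_of hp 2 3
  have e0 : Real.exp (zof P 0) = m1 P := by simp [zof, Real.exp_log h1]
  have e1 : Real.exp (zof P 1) = m2 P / m1 P := by
    simp [zof, Real.exp_sub, Real.exp_log h1, Real.exp_log h2]
  have e2 : Real.exp (zof P 2) = m3 P / m2 P := by
    simp [zof, Real.exp_sub, Real.exp_log h2, Real.exp_log h3]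
  have e3 : Real.exp (zof P 3) = P.det / m3 P := by
    simp [zof, Real.exp_neg, Real.exp_log h3, hd]
  rw [det_four, s01, s02, s03, s12, s13, s23] at e3
  have d1 : m1 P = P 0 0 := rfl
  have d2 : m2 P = P 0 0 * P 1 1 - P 1 0 * P 1 0 := by rw [m2, s01]
  have d3 : m3 P = P 0 0 * (P 1 1 * P 2 2 - P 2 1 * P 2 1) -
    P 1 0 * (P 1 0 * P 2 2 - P 2 1 * P 2 0) + P 2 0 * (P 1 0 * P 2 1 - P 1 1 * P 2 0) := by
    rw [m3, s01, s02, s12]
  have n1 : P 0 0 ≠ 0 := by rw [← d1]; exact h1.ne'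
  have n2 : P 0 0 * P 1 1 - P 1 0 * P 1 0 ≠ 0 := by rw [← d2]; exact h2.ne'
  have n3 : P 0 0 * (P 1 1 * P 2 2 - P 2 1 * P 2 1) -
    P 1 0 * (P 1 0 * P 2 2 - P 2 1 * P 2 0) + P 2 0 * (P 1 0 * P 2 1 - P 1 1 * P 2 0) ≠ 0 := by
    rw [← d3]; exact h3.ne'
  have key : ∀ i j, PT (kof P) (zof P) i j = kof P i 0 * (m1 P) * kof P j 0 +
      kof P i 1 * (m2 P / m1 P) * kof P j 1 + kof P i 2 * (m3 P / m2 P) * kof P j 2 +
      kof P i 3 * Real.exp (zof P 3) * kof P j 3 := by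
    intro i j
    rw [← e2, ← e1, ← e0]
    simp only [PT, mul3_apply, Fin.sum_univ_four, dg, Matrix.diagonal_apply, Matrix.transpose_apply]
    simp
  ext i j
  rw [key, e3]
  have q1 : m1 P ≠ 0 := h1.ne'
  have q2 : m2 P ≠ 0 := h2.ne'
  have q3 : m3 P ≠ 0 := h3.ne'
  fin_cases i <;> fin_cases j <;> simp only [kof, Fin.zero_eta, Fin.mk_one,
    Fin.reduceFinMk, Matrix.of_apply, Matrix.cons_val', Matrix.cons_val_zero, Matrix.cons_val_one,
    Matrix.cons_val, mul_one, one_mul, mul_zero, zero_mul, add_zero, s01, s02, s03, s12, s13, s23,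
    Matrix.cons_val_fin_one] <;> (try field_simp) <;> (try (rw [d1])) <;>
    (try (rw [d2])) <;> (try rw [d3]) <;> (try (ring))

lemma zof_PT {k : Mat} (hk : Uni k) {z : Fin 4 → ℝ} (hz : z 0 + z 1 + z 2 + z 3 = 0) :
    zof (PT k z) = z := by
  ext i
  fin_cases i <;> simp [zof, m1_PT hk, m2_PT hk, m3_PT hk]
  linarith

lemma kof_PT {k : Mat} (hk : Uni k) {z : Fin 4 → ℝ} (hz : z 0 + z 1 + z 2 + z 3 = 0) :
    kof (PT k z) = k := by
  have h1 := m1_PT hk z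
  have h2 := m2_PT hk z
  have h3 := m3_PT hk z
  have key : ∀ i j, PT k z i j = k i 0 * Real.exp (z 0) * k j 0 +
      k i 1 * Real.exp (z 1) * k j 1 + k i 2 * Real.exp (z 2) * k j 2 +
      k i 3 * Real.exp (z 3) * k j 3 := by
    intro i j
    simp only [PT, mul3_apply, Fin.sum_univ_four, dg, Matrix.diagonal_apply, Matrix.transpose_apply]
    simp
  obtain ⟨⟨u1, u2, u3, u4, u5, u6⟩, u7, u8, u9, u10⟩ := hk
  have p0 := Real.exp_ne_zero (z 0)
  have p1 := Real.exp_ne_zero (z 1)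
  have p2 := Real.exp_ne_zero (z 2)
  have q00 : PT k z 0 0 = Real.exp (z 0) := by rw [key, u1, u2, u3, u7]; ring
  have q10 : PT k z 1 0 = k 1 0 * Real.exp (z 0) := by rw [key, u1, u2, u3, u7]; ring
  have q20 : PT k z 2 0 = k 2 0 * Real.exp (z 0) := by rw [key, u1, u2, u3, u7]; ring
  have q30 : PT k z 3 0 = k 3 0 * Real.exp (z 0) := by rw [key, u1, u2, u3, u7]; ring
  have q11 : PT k z 1 1 = k 1 0 * Real.exp (z 0) * k 1 0 + Real.exp (z 1) := by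
    rw [key, u4, u5, u8]; ring
  have q21 : PT k z 2 1 = k 2 0 * Real.exp (z 0) * k 1 0 + k 2 1 * Real.exp (z 1) := by
    rw [key, u4, u5, u8]; ring
  have q31 : PT k z 3 1 = k 3 0 * Real.exp (z 0) * k 1 0 + k 3 1 * Real.exp (z 1) := by
    rw [key, u4, u5, u8]; ring
  have q32 : PT k z 3 2 = k 3 0 * Real.exp (z 0) * k 2 0 + k 3 1 * Real.exp (z 1) * k 2 1 +
      k 3 2 * Real.exp (z 2) := by
    rw [key, u6, u9]; ring
  have q22 : PT k z 2 2 = k 2 0 * Real.exp (z 0) * k 2 0 + k 2 1 * Real.exp (z 1) * k 2 1 +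
      Real.exp (z 2) := by
    rw [key, u6, u9]; ring
  have g1 := h1
  have g2 : m2 (PT k z) = Real.exp (z 0) * Real.exp (z 1) := by rw [h2, Real.exp_add]
  have g3 : m3 (PT k z) = Real.exp (z 0) * Real.exp (z 1) * Real.exp (z 2) := by
    rw [h3, Real.exp_add, Real.exp_add]
  ext i j
  fin_cases i <;> fin_cases j <;> simp only [kof, Fin.zero_eta, Fin.mk_one,
    Fin.reduceFinMk, Matrix.of_apply, Matrix.cons_val', Matrix.cons_val_zero, Matrix.cons_val_one,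
    Matrix.cons_val, Matrix.cons_val_fin_one, g1, g2, g3, q00, q10, q20, q30, q11, q21, q31, q32,
    q22, u1, u2, u3, u4, u5, u6, u7, u8, u9, u10] <;> field_simp <;> ring

end Pool.Agent.W538.HPol
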