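import Pool.Agent.W538.HPol.Geo

/-! Charts of the leaves, connectedness and closedness. -/

noncomputable section

namespace Pool.Agent.W538.HPol

open Matrix Set
open scoped ContDiff

/-- unipotent matrices from coordinates -/
def Kmat (y : Fin 6 → ℝ) : Mat :=
  !![1, 0, 0, 0; y 0, 1, 0, 0; y 1, y 2, 1, 0; y 3, y 4, y 5, 1]

/-- coordinates of unipotent matrices -/
def kvec (k : Mat) : Fin 6 → ℝ := ![k 1 0, k 2 0, k 2 1, k 3 0, k 3 1, k 3 2]

lemma uni_Kmat (y : Fin 6 → ℝ) : Uni (Kmat y) := by simp [Uni, Low, Kmat]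

lemma kvec_Kmat (y : Fin 6 → ℝ) : kvec (Kmat y) = y := by
  ext i; fin_cases i <;> simp [kvec, Kmat]

lemma Kmat_kvec {k : Mat} (hk : Uni k) : Kmat (kvec k) = k := by
  obtain ⟨⟨a1, a2, a3, a4, a5, a6⟩, a7, a8, a9, a10⟩ := hk
  ext i j
  fin_cases i <;> fin_cases j <;> simp [kvec, Kmat, a1, a2, a3, a4, a5, a6, a7, a8, a9, a10]

lemma sm_Kmat {E : Type*} [NormedAddCommGroup E] [NormedSpace ℝ E] {y : E → Fin 6 → ℝ}
    (h : ∀ i, ContDiff ℝ ∞ fun x => y x i) : Sm fun x => Kmat (y x) := by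
  intro i j
  fin_cases i <;> fin_cases j
  · exact contDiff_const
  · exact contDiff_const
  · exact contDiff_const
  · exact contDiff_const
  · exact h 0
  · exact contDiff_const
  · exact contDiff_const
  · exact contDiff_const
  · exact h 1
  · exact h 2
  · exact contDiff_const
  · exact contDiff_const
  · exact h 3
  · exact h 4
  · exact h 5
  · exact contDiff_const

lemma chart {m : ℕ} {L : Set Mat} {P : Mat} (hLP : L ⊆ PD) (W : Set Mat) (hW : IsOpen W)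
    (hWU : W ⊆ U0) (hPW : P ∈ W) (f : (Fin m → ℝ) → Fin 4 → ℝ)
    (hf : ∀ i, ContDiff ℝ ∞ fun u => f u i) (hf0 : ∀ u, Z0 (f u)) (g : (Fin 4 → ℝ) → Fin m → ℝ)
    (hg : ∀ a, SmoothOn (fun Q => g (zof Q) a) W) (hfL : ∀ k u, Uni k → PT k (f u) ∈ L ∩ W)
    (hgf : ∀ u, g (f u) = u) (hfg : ∀ Q ∈ L ∩ W, f (g (zof Q)) = zof Q) :
    ∃ (U : Set Mat) (φ : (Fin (6 + m) → ℝ) → Mat) (ψ : Mat → Fin (6 + m) → ℝ), IsOpen U ∧ P ∈ U ∧
    (∀ i j, ContDiff ℝ ∞ fun x => φ x i j) ∧ (∀ a, SmoothOn (fun Q => ψ Q a) U) ∧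
    (∀ x, φ x ∈ L ∩ U) ∧ (∀ x, ψ (φ x) = x) ∧ ∀ Q ∈ L ∩ U, φ (ψ Q) = Q := by
  refine ⟨W, fun x => PT (Kmat fun i => x (Fin.castAdd m i)) (f fun j => x (Fin.natAdd 6 j)),
    fun Q => Fin.append (kvec (kof Q)) (g (zof Q)), hW, hPW, ?_, ?_, ?_, ?_, ?_⟩
  · apply sm_PT
    · exact sm_Kmat fun i => contDiff_apply ℝ ℝ _
    · intro i
      exact (hf i).comp (contDiff_pi.2 fun j => contDiff_apply ℝ ℝ _)
  · intro a
    refine Fin.addCases (fun i => ?_) (fun j => ?_) a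
    · simp only [Fin.append_left]
      have h := sm_kof
      fin_cases i
      · exact (h 1 0).mono hWU
      · exact (h 2 0).mono hWU
      · exact (h 2 1).mono hWU
      · exact (h 3 0).mono hWU
      · exact (h 3 1).mono hWU
      · exact (h 3 2).mono hWU
    · simp only [Fin.append_right]
      exact hg j
  · intro x
    exact hfL _ _ (uni_Kmat _)
  · intro x
    simp only []
    rw [kof_PT (uni_Kmat _) (hf0 _), zof_PT (uni_Kmat _) (hf0 _), kvec_Kmat, hgf]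
    exact Fin.append_castAdd_natAdd
  · intro Q hQ
    simp only [Fin.append_left, Fin.append_right]
    have e1 : (fun i => kvec (kof Q) i) = kvec (kof Q) := rfl
    have e2 : (fun i => g (zof Q) i) = g (zof Q) := rfl
    rw [e1, e2, Kmat_kvec (uni_kof Q), hfg Q hQ]
    exact (chol (hLP hQ.1)).symm

lemma submfd_PD : IsSubmfd 9 PD := by
  intro P hP
  refine chart (m := 3) (fun _ h => h) U0 isOpen_U0 (fun _ h => h) (PD_sub_U0 hP)
    (fun u => zz (u 0) (u 1) (u 2)) ?_ (fun u => Z0_zz _ _ _) (fun z => ![ξ1 z, ξ2 z, ξ3 z]) ?_ ?_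
    ?_ ?_
  · intro i
    have k1 : ContDiff ℝ ∞ fun u : Fin 3 → ℝ => u 0 := contDiff_apply ℝ ℝ _
    have k2 : ContDiff ℝ ∞ fun u : Fin 3 → ℝ => u 1 := contDiff_apply ℝ ℝ _
    have k3 : ContDiff ℝ ∞ fun u : Fin 3 → ℝ => u 2 := contDiff_apply ℝ ℝ _
    simp only [zz]
    fin_cases i
    · exact ((k1.add (contDiff_const.mul k3)).add (contDiff_const.mul k2)).div_const 10
    · exact (((contDiff_const.mul k1).add k3).sub (contDiff_const.mul k2)).div_const 10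
    · exact (((contDiff_const.mul k1).sub k3).sub (contDiff_const.mul k2)).div_const 10
    · exact ((k1.neg.sub (contDiff_const.mul k3)).add (contDiff_const.mul k2)).div_const 10
  · intro a
    fin_cases a
    · exact sm_ξ1
    · exact sm_ξ2
    · exact sm_ξ3
  · intro k u hk
    exact ⟨PT_mem hk (Z0_zz _ _ _), PD_sub_U0 (PT_mem hk (Z0_zz _ _ _))⟩
  · intro u
    simp only [ξ1_zz, ξ2_zz, ξ3_zz]
    ext i
    fin_cases i <;> rfl
  · intro Q _
    simp only [Matrix.cons_val_zero, Matrix.cons_val_one, Matrix.cons_val]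
    exact zz_ξ (Z0_zof Q)

lemma leaf_sub (a r : ℝ) : Leaf a r ⊆ PD := fun _ h => h.1

lemma submfd_zero (a : ℝ) : IsSubmfd 6 (Leaf a 0) := by
  intro P hP
  refine chart (m := 0) (leaf_sub a 0) U0 isOpen_U0 (fun _ h => h) (PD_sub_U0 hP.1)
    (fun _ => zz 0 0 a) (fun _ => contDiff_const) (fun u => Z0_zz _ _ _) (fun _ => Fin.elim0)
    (fun a => Fin.elim0 a) ?_ (fun u => by ext i; exact Fin.elim0 i) ?_
  · intro k u hk
    have := PT_mem hk (Z0_zz 0 0 a)
    refine ⟨⟨this, ?_, ?_⟩, PD_sub_U0 this⟩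
    · rw [zof_PT hk (Z0_zz _ _ _), ξ3_zz]
    · rw [zof_PT hk (Z0_zz _ _ _), ξ1_zz, ξ2_zz]; norm_num
  · rintro Q ⟨hQ, -⟩
    have h := hQ.2.2
    have z1 : ξ1 (zof Q) = 0 := by nlinarith [sq_nonneg (ξ1 (zof Q)), sq_nonneg (ξ2 (zof Q))]
    have z2 : ξ2 (zof Q) = 0 := by nlinarith [sq_nonneg (ξ1 (zof Q)), sq_nonneg (ξ2 (zof Q))]
    have := zz_ξ (Z0_zof Q)
    rw [z1, z2, hQ.2.1] at this
    exact this

lemma submfd_pos (a : ℝ) {r : ℝ} (hr : 0 < r) : IsSubmfd 7 (Leaf a r) := by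
  intro P hP
  set ρ := Real.sqrt r with hρ
  have hρ0 : 0 < ρ := Real.sqrt_pos.2 hr
  have hρ2 : ρ ^ 2 = r := Real.sq_sqrt hr.le
  obtain ⟨ε, hε, hP'⟩ : ∃ ε : ℝ, ε ^ 2 = 1 ∧ 0 < ρ + ε * ξ1 (zof P) := by
    rcases lt_or_ge (-ρ) (ξ1 (zof P)) with h | h
    · exact ⟨1, by norm_num, by linarith⟩
    · exact ⟨-1, by norm_num, by linarith⟩
  set W : Set Mat := U0 ∩ (fun Q => ρ + ε * ξ1 (zof Q)) ⁻¹' Ioi 0 with hW
  have hden : SmoothOn (fun Q => ρ + ε * ξ1 (zof Q)) U0 :=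
    (smoothOn_const ρ U0).add ((smoothOn_const ε U0).mul sm_ξ1)
  have hWo : IsOpen W := hden.continuousOn.isOpen_inter_preimage isOpen_U0 isOpen_Ioi
  have hpos : ∀ u : ℝ, 0 < 1 + u ^ 2 := fun u => by positivity
  have key : ∀ u : ℝ, ρ + ε * (ε * ρ * (1 - u ^ 2) / (1 + u ^ 2)) = 2 * ρ / (1 + u ^ 2) := by
    intro u
    have := (hpos u).ne'
    field_simp
    linear_combination (1 - u ^ 2) * hε
  refine chart (m := 1) (leaf_sub a r) W hWo inter_subset_left ⟨PD_sub_U0 hP.1, hP'⟩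
    (fun u => zz (ε * ρ * (1 - u 0 ^ 2) / (1 + u 0 ^ 2)) (ρ * (2 * u 0) / (1 + u 0 ^ 2)) a) ?_
    (fun u => Z0_zz _ _ _) (fun z => ![ξ2 z / (ρ + ε * ξ1 z)]) ?_ ?_ ?_ ?_
  · have k0 : ContDiff ℝ ∞ fun u : Fin 1 → ℝ => u 0 := contDiff_apply ℝ ℝ _
    have k1 : ContDiff ℝ ∞ fun u : Fin 1 → ℝ => ε * ρ * (1 - u 0 ^ 2) / (1 + u 0 ^ 2) :=
      (contDiff_const.mul (contDiff_const.sub (k0.pow 2))).div (contDiff_const.add (k0.pow 2))
        fun u => (hpos _).ne'
    have k2 : ContDiff ℝ ∞ fun u : Fin 1 → ℝ => ρ * (2 * u 0) / (1 + u 0 ^ 2) :=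
      (contDiff_const.mul (contDiff_const.mul k0)).div (contDiff_const.add (k0.pow 2))
        fun u => (hpos _).ne'
    have k3 : ContDiff ℝ ∞ fun _ : Fin 1 → ℝ => a := contDiff_const
    intro i
    simp only [zz]
    fin_cases i
    · exact ((k1.add (contDiff_const.mul k3)).add (contDiff_const.mul k2)).div_const 10
    · exact (((contDiff_const.mul k1).add k3).sub (contDiff_const.mul k2)).div_const 10
    · exact (((contDiff_const.mul k1).sub k3).sub (contDiff_const.mul k2)).div_const 10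
    · exact ((k1.neg.sub (contDiff_const.mul k3)).add (contDiff_const.mul k2)).div_const 10
  · intro j
    fin_cases j
    exact (sm_ξ2.mono inter_subset_left).div (hden.mono inter_subset_left) fun Q hQ => hQ.2.ne'
  · intro k u hk
    have h1 := PT_mem hk (Z0_zz (ε * ρ * (1 - u 0 ^ 2) / (1 + u 0 ^ 2))
      (ρ * (2 * u 0) / (1 + u 0 ^ 2)) a)
    have hz := zof_PT hk (Z0_zz (ε * ρ * (1 - u 0 ^ 2) / (1 + u 0 ^ 2))
      (ρ * (2 * u 0) / (1 + u 0 ^ 2)) a)
    refine ⟨⟨h1, ?_, ?_⟩, PD_sub_U0 h1, ?_⟩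
    · rw [hz, ξ3_zz]
    · rw [hz, ξ1_zz, ξ2_zz, ← hρ2]
      have := (hpos (u 0)).ne'
      field_simp
      linear_combination ((1 - u 0 ^ 2) ^ 2) * hε
    · simp only [mem_preimage, mem_Ioi]
      rw [hz, ξ1_zz, key]
      have := hpos (u 0)
      positivity
  · intro u
    simp only [ξ1_zz, ξ2_zz, key]
    have := (hpos (u 0)).ne'
    ext i
    fin_cases i
    simp only [Fin.zero_eta, Matrix.cons_val_fin_one]
    have h2 : ρ ≠ 0 := hρ0.ne'
    field_simp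
  · rintro Q ⟨hQ, hQW⟩
    simp only [Matrix.cons_val_zero, Matrix.cons_val_fin_one]
    have hd : 0 < ρ + ε * ξ1 (zof Q) := hQW.2
    set x := ξ1 (zof Q) with hx
    set y := ξ2 (zof Q) with hy
    have hr2 : x ^ 2 + y ^ 2 = ρ ^ 2 := by rw [hρ2]; exact hQ.2.2
    have e1 : 1 + (y / (ρ + ε * x)) ^ 2 = 2 * ρ / (ρ + ε * x) := by
      field_simp
      linear_combination hr2 + (x ^ 2) * hε
    have e2 : 1 - (y / (ρ + ε * x)) ^ 2 = 2 * ε * x / (ρ + ε * x) := by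
      field_simp
      linear_combination -hr2 - (x ^ 2) * hε
    have f1 : ε * ρ * (1 - (y / (ρ + ε * x)) ^ 2) / (1 + (y / (ρ + ε * x)) ^ 2) = x := by
      rw [e1, e2]
      field_simp
      linear_combination x * hε
    have f2 : ρ * (2 * (y / (ρ + ε * x))) / (1 + (y / (ρ + ε * x)) ^ 2) = y := by
      rw [e1]
      field_simp
    rw [f1, f2, ← hQ.2.1]
    exact zz_ξ (Z0_zof Q)

lemma exists_angle (x y : ℝ) :
    ∃ θ, x = Real.sqrt (x ^ 2 + y ^ 2) * Real.cos θ ∧ y = Real.sqrt (x ^ 2 + y ^ 2) * Real.sin θ := by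
  refine ⟨Complex.arg ⟨x, y⟩, ?_, ?_⟩
  · have := Complex.norm_mul_cos_arg ⟨x, y⟩
    rw [Complex.norm_def, Complex.normSq_mk] at this
    rw [sq, sq]; exact this.symm
  · have := Complex.norm_mul_sin_arg ⟨x, y⟩
    rw [Complex.norm_def, Complex.normSq_mk] at this
    rw [sq, sq]; exact this.symm

lemma connected_leaf (a : ℝ) {r : ℝ} (hr : 0 ≤ r) : IsConnected (Leaf a r) := by
  set F : (Fin 6 → ℝ) × ℝ → Mat := fun p =>
    PT (Kmat p.1) (zz (Real.sqrt r * Real.cos p.2) (Real.sqrt r * Real.sin p.2) a) with hF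
  have hFc : Continuous F := by
    have : Sm F := by
      apply sm_PT
      · exact sm_Kmat fun i => (contDiff_apply ℝ ℝ i).comp contDiff_fst
      · have k1 : ContDiff ℝ ∞ fun p : (Fin 6 → ℝ) × ℝ => Real.sqrt r * Real.cos p.2 :=
          contDiff_const.mul (Real.contDiff_cos.comp contDiff_snd)
        have k2 : ContDiff ℝ ∞ fun p : (Fin 6 → ℝ) × ℝ => Real.sqrt r * Real.sin p.2 :=
          contDiff_const.mul (Real.contDiff_sin.comp contDiff_snd)
        have k3 : ContDiff ℝ ∞ fun _ : (Fin 6 → ℝ) × ℝ => a := contDiff_const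
        intro i
        simp only [zz]
        fin_cases i
        · exact ((k1.add (contDiff_const.mul k3)).add (contDiff_const.mul k2)).div_const 10
        · exact (((contDiff_const.mul k1).add k3).sub (contDiff_const.mul k2)).div_const 10
        · exact (((contDiff_const.mul k1).sub k3).sub (contDiff_const.mul k2)).div_const 10
        · exact ((k1.neg.sub (contDiff_const.mul k3)).add (contDiff_const.mul k2)).div_const 10
    exact continuous_matrix fun i j => (this i j).continuous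
  have : Leaf a r = Set.range F := by
    ext P
    constructor
    · intro hP
      obtain ⟨θ, h1, h2⟩ := exists_angle (ξ1 (zof P)) (ξ2 (zof P))
      rw [hP.2.2] at h1 h2
      refine ⟨(kvec (kof P), θ), ?_⟩
      rw [hF]
      simp only []
      rw [← h1, ← h2, Kmat_kvec (uni_kof P), ← hP.2.1, zz_ξ (Z0_zof P)]
      exact (chol hP.1).symm
    · rintro ⟨p, rfl⟩
      rw [hF]
      simp only []
      refine ⟨PT_mem (uni_Kmat _) (Z0_zz _ _ _), ?_, ?_⟩
      · rw [zof_PT (uni_Kmat _) (Z0_zz _ _ _), ξ3_zz]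
      · rw [zof_PT (uni_Kmat _) (Z0_zz _ _ _), ξ1_zz, ξ2_zz, mul_pow, mul_pow, Real.sq_sqrt hr]
        have := Real.sin_sq_add_cos_sq p.2
        linear_combination r * this
  rw [this]
  exact isConnected_range hFc

lemma closed_leaf (a r : ℝ) : IsClosed (Leaf a r) := by
  have h1 : ContinuousOn (fun Q => ξ3 (zof Q)) PD := (sm_ξ3.mono PD_sub_U0).continuousOn
  have h2 : ContinuousOn (fun Q => ξ1 (zof Q) ^ 2 + ξ2 (zof Q) ^ 2) PD :=
    ((sm_ξ1.mono PD_sub_U0).continuousOn.pow 2).add ((sm_ξ2.mono PD_sub_U0).continuousOn.pow 2)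
  have h3 := h1.preimage_isClosed_of_isClosed isClosed_PD (isClosed_singleton (x := a))
  have h4 := h2.preimage_isClosed_of_isClosed isClosed_PD (isClosed_singleton (x := r))
  have : Leaf a r = (PD ∩ (fun Q => ξ3 (zof Q)) ⁻¹' {a}) ∩
      (PD ∩ (fun Q => ξ1 (zof Q) ^ 2 + ξ2 (zof Q) ^ 2) ⁻¹' {r}) := by
    ext Q
    constructor
    · rintro ⟨h1, h2, h3⟩; exact ⟨⟨h1, h2⟩, h1, h3⟩
    · rintro ⟨⟨h1, h2⟩, -, h3⟩; exact ⟨h1, h2, h3⟩
  rw [this]
  exact h3.inter h4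

end Pool.Agent.W538.HPol
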