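import Pool.Agent.W538.HPol.Rigid

/-! Coordinates of the flat, smoothness of the horospherical coordinates. -/

noncomputable section

namespace Pool.Agent.W538.HPol

open Matrix Set
open scoped ContDiff

/-- the square root of five -/
def s5 : ℝ := Real.sqrt 5

lemma s5_sq : s5 * s5 = 5 := Real.mul_self_sqrt (by norm_num)

lemma s5_pos : 0 < s5 := Real.sqrt_pos.2 (by norm_num)

/-- first coordinate -/
def ξ1 (z : Fin 4 → ℝ) : ℝ := (z 0 - 3 * z 1 + 3 * z 2 - z 3) / 2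
/-- second coordinate -/
def ξ2 (z : Fin 4 → ℝ) : ℝ := s5 * (z 0 - z 1 - z 2 + z 3) / 2
/-- third coordinate -/
def ξ3 (z : Fin 4 → ℝ) : ℝ := (3 * z 0 + z 1 - z 2 - 3 * z 3) / 2

/-- inverse coordinates -/
def zz (a b c : ℝ) : Fin 4 → ℝ :=
  ![(a + 3 * c + s5 * b) / 10, (-3 * a + c - s5 * b) / 10, (3 * a - c - s5 * b) / 10,
    (-a - 3 * c + s5 * b) / 10]

/-- the sum is zero -/
def Z0 (z : Fin 4 → ℝ) : Prop := z 0 + z 1 + z 2 + z 3 = 0

lemma Z0_zz (a b c : ℝ) : Z0 (zz a b c) := by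
  simp [Z0, zz]; ring

lemma ξ1_zz (a b c : ℝ) : ξ1 (zz a b c) = a := by
  simp [ξ1, zz]; ring

lemma ξ2_zz (a b c : ℝ) : ξ2 (zz a b c) = b := by
  simp [ξ2, zz]
  linear_combination (b / 5) * s5_sq

lemma ξ3_zz (a b c : ℝ) : ξ3 (zz a b c) = c := by
  simp [ξ3, zz]; ring

lemma zz_ξ {z : Fin 4 → ℝ} (hz : Z0 z) : zz (ξ1 z) (ξ2 z) (ξ3 z) = z := by
  have h5 := s5_sq
  have h3 : z 3 = -z 0 - z 1 - z 2 := by
    unfold Z0 at hz; linarith
  ext i
  fin_cases i <;> simp [ξ1, ξ2, ξ3, zz, h3]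
  · linear_combination ((z 0 - z 1 - z 2 + (-z 0 - z 1 - z 2)) / 20) * h5
  · linear_combination (-(z 0 - z 1 - z 2 + (-z 0 - z 1 - z 2)) / 20) * h5
  · linear_combination (-(z 0 - z 1 - z 2 + (-z 0 - z 1 - z 2)) / 20) * h5
  · linear_combination ((z 0 - z 1 - z 2 + (-z 0 - z 1 - z 2)) / 20) * h5

lemma inner_ξ {z w : Fin 4 → ℝ} (hz : Z0 z) (hw : Z0 w) :
    ∑ i, z i * w i = (ξ1 z * ξ1 w + ξ2 z * ξ2 w + ξ3 z * ξ3 w) / 5 := by
  have h5 := s5_sq
  have h3 : z 3 = -z 0 - z 1 - z 2 := by unfold Z0 at hz; linarith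
  have h3' : w 3 = -w 0 - w 1 - w 2 := by unfold Z0 at hw; linarith
  simp only [Fin.sum_univ_four, ξ1, ξ2, ξ3, h3, h3']
  linear_combination (-(z 0 - z 1 - z 2 + (-z 0 - z 1 - z 2)) *
    (w 0 - w 1 - w 2 + (-w 0 - w 1 - w 2)) / 20) * h5

/-- the generator of the rotations -/
def J (z : Fin 4 → ℝ) : Fin 4 → ℝ := zz (-ξ2 z) (ξ1 z) 0

lemma inner_J {z w : Fin 4 → ℝ} (hw : Z0 w) :
    ∑ i, w i * J z i = (ξ2 w * ξ1 z - ξ1 w * ξ2 z) / 5 := by
  have h : Z0 (J z) := Z0_zz _ _ _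
  rw [inner_ξ hw h, J, ξ1_zz, ξ2_zz, ξ3_zz]
  ring

/-- the rotations -/
def zrot (θ : ℝ) (z : Fin 4 → ℝ) : Fin 4 → ℝ :=
  zz (Real.cos θ * ξ1 z - Real.sin θ * ξ2 z) (Real.sin θ * ξ1 z + Real.cos θ * ξ2 z) (ξ3 z)

lemma Z0_zof (P : Mat) : Z0 (zof P) := sum_zof P

/-! smoothness on open sets -/

lemma smoothOn_entry (i j : Fin 4) (U : Set Mat) : SmoothOn (fun Q => Q i j) U :=
  (contDiff_apply_apply ℝ ℝ i j).contDiffOn

lemma smoothOn_const (a : ℝ) (U : Set Mat) : SmoothOn (fun _ => a) U := contDiffOn_const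

lemma SmoothOn.add {f g : Mat → ℝ} {U : Set Mat} (hf : SmoothOn f U) (hg : SmoothOn g U) :
    SmoothOn (fun Q => f Q + g Q) U := ContDiffOn.add hf hg

lemma SmoothOn.sub {f g : Mat → ℝ} {U : Set Mat} (hf : SmoothOn f U) (hg : SmoothOn g U) :
    SmoothOn (fun Q => f Q - g Q) U := ContDiffOn.sub hf hg

lemma SmoothOn.neg {f : Mat → ℝ} {U : Set Mat} (hf : SmoothOn f U) :
    SmoothOn (fun Q => -f Q) U := ContDiffOn.neg hf

lemma SmoothOn.mul {f g : Mat → ℝ} {U : Set Mat} (hf : SmoothOn f U) (hg : SmoothOn g U) :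
    SmoothOn (fun Q => f Q * g Q) U := ContDiffOn.mul hf hg

lemma SmoothOn.div {f g : Mat → ℝ} {U : Set Mat} (hf : SmoothOn f U) (hg : SmoothOn g U)
    (h : ∀ Q ∈ U, g Q ≠ 0) : SmoothOn (fun Q => f Q / g Q) U :=
  ContDiffOn.div hf hg fun x hx => h _ hx

lemma SmoothOn.log {f : Mat → ℝ} {U : Set Mat} (hf : SmoothOn f U) (h : ∀ Q ∈ U, f Q ≠ 0) :
    SmoothOn (fun Q => Real.log (f Q)) U := ContDiffOn.log hf fun x hx => h _ hx

lemma SmoothOn.exp {f : Mat → ℝ} {U : Set Mat} (hf : SmoothOn f U) :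
    SmoothOn (fun Q => Real.exp (f Q)) U := ContDiffOn.exp hf

lemma SmoothOn.mono {f : Mat → ℝ} {U V : Set Mat} (hf : SmoothOn f U) (h : V ⊆ U) :
    SmoothOn f V := ContDiffOn.mono hf fun _ hx => h hx

lemma SmoothOn.fsum {ι : Type*} {s : Finset ι} {f : ι → Mat → ℝ} {U : Set Mat}
    (hf : ∀ i ∈ s, SmoothOn (f i) U) : SmoothOn (fun Q => ∑ i ∈ s, f i Q) U :=
  ContDiffOn.sum hf

lemma SmoothOn.continuousOn {f : Mat → ℝ} {U : Set Mat} (hf : SmoothOn f U) :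
    ContinuousOn f U := ContDiffOn.continuousOn hf

/-- smooth matrix valued maps -/
def SmM (V : Mat → Mat) (U : Set Mat) : Prop := ∀ i j, SmoothOn (fun Q => V Q i j) U

lemma SmM.mul {V W : Mat → Mat} {U : Set Mat} (hV : SmM V U) (hW : SmM W U) :
    SmM (fun Q => V Q * W Q) U := by
  intro i j
  simp only [Matrix.mul_apply]
  exact SmoothOn.fsum fun l _ => (hV i l).mul (hW l j)

lemma SmM.add {V W : Mat → Mat} {U : Set Mat} (hV : SmM V U) (hW : SmM W U) :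
    SmM (fun Q => V Q + W Q) U := fun i j => (hV i j).add (hW i j)

lemma SmM.transpose {V : Mat → Mat} {U : Set Mat} (hV : SmM V U) :
    SmM (fun Q => (V Q)ᵀ) U := fun i j => hV j i

lemma smM_const (A : Mat) (U : Set Mat) : SmM (fun _ => A) U := fun i j => smoothOn_const _ _

lemma smM_id (U : Set Mat) : SmM (fun Q => Q) U := fun i j => smoothOn_entry i j U

/-- the open set where the leading minors are positive -/
def U0 : Set Mat := {Q | 0 < m1 Q ∧ 0 < m2 Q ∧ 0 < m3 Q}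

lemma sm_m1 (U : Set Mat) : SmoothOn m1 U := smoothOn_entry 0 0 U

lemma sm_m2 (U : Set Mat) : SmoothOn m2 U :=
  ((smoothOn_entry 0 0 U).mul (smoothOn_entry 1 1 U)).sub
    ((smoothOn_entry 0 1 U).mul (smoothOn_entry 1 0 U))

lemma sm_m3 (U : Set Mat) : SmoothOn m3 U := by
  have h := fun i j => smoothOn_entry i j U
  exact (((h 0 0).mul (((h 1 1).mul (h 2 2)).sub ((h 1 2).mul (h 2 1)))).sub
      ((h 0 1).mul (((h 1 0).mul (h 2 2)).sub ((h 1 2).mul (h 2 0))))).add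
      ((h 0 2).mul (((h 1 0).mul (h 2 1)).sub ((h 1 1).mul (h 2 0))))

lemma cont_of_smoothOn {f : Mat → ℝ} (h : SmoothOn f univ) : Continuous f :=
  continuousOn_univ.1 h.continuousOn

lemma isOpen_U0 : IsOpen U0 := by
  have h1 := cont_of_smoothOn (sm_m1 univ)
  have h2 := cont_of_smoothOn (sm_m2 univ)
  have h3 := cont_of_smoothOn (sm_m3 univ)
  exact (isOpen_lt continuous_const h1).inter
    ((isOpen_lt continuous_const h2).inter (isOpen_lt continuous_const h3))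

lemma PD_sub_U0 : PD ⊆ U0 := fun _ hP => ⟨m1_pos hP.1, m2_pos hP.1, m3_pos hP.1⟩

lemma sm_zof (i : Fin 4) : SmoothOn (fun Q => zof Q i) U0 := by
  have l1 := (sm_m1 U0).log fun Q hQ => hQ.1.ne'
  have l2 := (sm_m2 U0).log fun Q hQ => hQ.2.1.ne'
  have l3 := (sm_m3 U0).log fun Q hQ => hQ.2.2.ne'
  fin_cases i
  · exact l1
  · exact l2.sub l1
  · exact l3.sub l2
  · exact l3.neg

lemma sm_kof : SmM kof U0 := by
  have e := fun i j => smoothOn_entry i j U0
  have n1 : ∀ Q ∈ U0, m1 Q ≠ 0 := fun Q hQ => hQ.1.ne'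
  have n2 : ∀ Q ∈ U0, m2 Q ≠ 0 := fun Q hQ => hQ.2.1.ne'
  have n3 : ∀ Q ∈ U0, m3 Q ≠ 0 := fun Q hQ => hQ.2.2.ne'
  intro i j
  fin_cases i <;> fin_cases j
  · exact smoothOn_const _ _
  · exact smoothOn_const _ _
  · exact smoothOn_const _ _
  · exact smoothOn_const _ _
  · exact (e 1 0).div (sm_m1 _) n1
  · exact smoothOn_const _ _
  · exact smoothOn_const _ _
  · exact smoothOn_const _ _
  · exact (e 2 0).div (sm_m1 _) n1
  · exact (((e 2 1).mul (e 0 0)).sub ((e 2 0).mul (e 1 0))).div (sm_m2 _) n2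
  · exact smoothOn_const _ _
  · exact smoothOn_const _ _
  · exact (e 3 0).div (sm_m1 _) n1
  · exact (((e 3 1).mul (e 0 0)).sub ((e 3 0).mul (e 1 0))).div (sm_m2 _) n2
  · exact ((((e 3 2).mul (((e 0 0).mul (e 1 1)).sub ((e 1 0).mul (e 1 0)))).sub
      ((e 3 1).mul (((e 0 0).mul (e 2 1)).sub ((e 1 0).mul (e 2 0))))).add
      ((e 3 0).mul (((e 1 0).mul (e 2 1)).sub ((e 1 1).mul (e 2 0))))).div (sm_m3 _) n3
  · exact smoothOn_const _ _

lemma sm_ξ1 : SmoothOn (fun Q => ξ1 (zof Q)) U0 := by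
  have h := sm_zof
  exact ((((h 0).sub ((smoothOn_const 3 U0).mul (h 1))).add ((smoothOn_const 3 U0).mul (h 2))).sub
    (h 3)).div (smoothOn_const 2 U0) fun _ _ => two_ne_zero

lemma sm_ξ2 : SmoothOn (fun Q => ξ2 (zof Q)) U0 := by
  have h := sm_zof
  exact ((smoothOn_const s5 U0).mul ((((h 0).sub (h 1)).sub (h 2)).add (h 3))).div
    (smoothOn_const 2 U0) fun _ _ => two_ne_zero

lemma sm_ξ3 : SmoothOn (fun Q => ξ3 (zof Q)) U0 := by
  have h := sm_zof
  exact (((((smoothOn_const 3 U0).mul (h 0)).add (h 1)).sub (h 2)).sub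
    ((smoothOn_const 3 U0).mul (h 3))).div (smoothOn_const 2 U0) fun _ _ => two_ne_zero

lemma sm_diag {f : Mat → Fin 4 → ℝ} {U : Set Mat} (h : ∀ i, SmoothOn (fun Q => f Q i) U) :
    SmM (fun Q => diagonal (f Q)) U := by
  intro i j
  simp only [Matrix.diagonal_apply]
  by_cases hij : i = j
  · simp only [hij, if_true]
    exact h j
  · simp only [hij, if_false]
    exact smoothOn_const _ _

lemma sm_J (i : Fin 4) : SmoothOn (fun Q => J (zof Q) i) U0 := by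
  have h1 := sm_ξ1
  have h2 := sm_ξ2
  have n10 : ∀ Q ∈ U0, (10 : ℝ) ≠ 0 := fun _ _ => by norm_num
  have c := fun a => smoothOn_const a U0
  fin_cases i
  · exact (((h2.neg).add ((c 3).mul (c 0))).add ((c s5).mul h1)).div (c 10) n10
  · exact ((((c (-3)).mul h2.neg).add (c 0)).sub ((c s5).mul h1)).div (c 10) n10
  · exact ((((c 3).mul h2.neg).sub (c 0)).sub ((c s5).mul h1)).div (c 10) n10
  · exact (((h2.neg.neg).sub ((c 3).mul (c 0))).add ((c s5).mul h1)).div (c 10) n10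

/-- the rotation vector field -/
def R (Q : Mat) : Mat := kof Q * (dg (zof Q) * diagonal (J (zof Q))) * (kof Q)ᵀ

lemma sm_R : SmM R U0 := by
  have h1 : SmM (fun Q => dg (zof Q)) U0 := sm_diag fun i => (sm_zof i).exp
  exact (sm_kof.mul (h1.mul (sm_diag sm_J))).mul sm_kof.transpose

lemma SmM.smul {V : Mat → Mat} {U : Set Mat} (a : ℝ) (hV : SmM V U) :
    SmM (fun Q => a • V Q) U := fun i j => (smoothOn_const a U).mul (hV i j)

/-! closedness of the space -/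

lemma isClosed_PD : IsClosed PD := by
  have : PD = {P | P.PosSemidef ∧ P.det = 1} := by
    ext P
    constructor
    · rintro ⟨h1, h2⟩; exact ⟨h1.posSemidef, h2⟩
    · rintro ⟨h1, h2⟩
      refine ⟨?_, h2⟩
      exact (h1.posDef_iff_isUnit).2 ((Matrix.isUnit_iff_isUnit_det _).2 (by rw [h2]; exact isUnit_one))
  rw [this]
  have hdet : IsClosed {P : Mat | P.det = 1} :=
    isClosed_eq (continuous_id.matrix_det) continuous_const
  have hpsd : IsClosed {P : Mat | P.PosSemidef} := by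
    have : {P : Mat | P.PosSemidef} = {P | Pᴴ = P} ∩ ⋂ x : Fin 4 → ℝ, {P | 0 ≤ star x ⬝ᵥ (P *ᵥ x)} := by
      ext P
      simp only [Matrix.posSemidef_iff_dotProduct_mulVec, Set.mem_setOf_eq, Set.mem_inter_iff,
        Set.mem_iInter, Matrix.IsHermitian]
    rw [this]
    refine IsClosed.inter (isClosed_eq continuous_id.matrix_conjTranspose continuous_id) ?_
    refine isClosed_iInter fun x => isClosed_le continuous_const ?_
    exact continuous_const.dotProduct (continuous_id.matrix_mulVec continuous_const)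
  exact hpsd.inter hdet

end Pool.Agent.W538.HPol
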