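import Mathlib

/-! Hyperpolar foliations of the symmetric space of positive definite real `4 × 4` matrices with
determinant one: definitions. -/

noncomputable section

namespace Pool.Agent.W538.HPol

open Matrix Set
open scoped ContDiff

/-- Real `4 × 4` matrices. -/
abbrev Mat := Matrix (Fin 4) (Fin 4) ℝ

/-- The symmetric space `SL(4, ℝ) / SO(4)`, as the manifold of the positive definite symmetric real
`4 × 4` matrices with determinant one. -/
def PD : Set Mat := {P | P.PosDef ∧ P.det = 1}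

/-- The velocity of a curve of matrices. -/
def vel (c : ℝ → Mat) (t : ℝ) : Mat := Matrix.of fun i j => deriv (fun s => c s i j) t

/-- `c` is a smooth curve, defined on the real line, with values in `L`. -/
def SmoothIn (L : Set Mat) (c : ℝ → Mat) : Prop :=
  (∀ i j, ContDiff ℝ ∞ fun t => c t i j) ∧ ∀ t, c t ∈ L

/-- The Riemannian metric of `SL(4, ℝ) / SO(4)` at the point `P`: `tr (P⁻¹ X P⁻¹ Y)`. -/
def met (P X Y : Mat) : ℝ := (P⁻¹ * X * P⁻¹ * Y).trace

/-- `c` is a geodesic of `SL(4, ℝ) / SO(4)`: a smooth curve with `c'' = c' c⁻¹ c'`, which is the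
geodesic equation of the metric `met`. -/
def IsGeodesic (c : ℝ → Mat) : Prop :=
  SmoothIn PD c ∧ ∀ t, vel (vel c) t = vel c t * (c t)⁻¹ * vel c t

/-- The length of the restriction of the curve `c` to the unit interval. -/
def len (c : ℝ → Mat) : ℝ := ∫ t in (0 : ℝ)..1, Real.sqrt (met (c t) (vel c t) (vel c t))

/-- The Riemannian distance of `SL(4, ℝ) / SO(4)`: the infimum of the lengths of the smooth
curves from `P` to `Q`. -/
def rdist (P Q : Mat) : ℝ := sInf {l | ∃ c, SmoothIn PD c ∧ c 0 = P ∧ c 1 = Q ∧ len c = l}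

/-- The tangent vectors of `L` at `P`: the initial velocities of the smooth curves in `L` that
start at `P`. -/
def Tan (L : Set Mat) (P : Mat) : Set Mat := {X | ∃ c, SmoothIn L c ∧ c 0 = P ∧ vel c 0 = X}

/-- The real function `f` of matrices is smooth on the set `U`, as a function of the entries. -/
def SmoothOn (f : Mat → ℝ) (U : Set Mat) : Prop :=
  ContDiffOn ℝ ∞ (fun x : Fin 4 → Fin 4 → ℝ => f (Matrix.of x)) {x | Matrix.of x ∈ U}

/-- `L` is an embedded smooth submanifold of dimension `k` of the space of matrices: around each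
point it is parametrised by a smooth map `φ` defined on `ℝ ^ k` which has a left inverse `ψ` that is
smooth on an open set `U` of matrices, with `L ∩ U` the image of `φ`. -/
def IsSubmfd (k : ℕ) (L : Set Mat) : Prop :=
  ∀ P ∈ L, ∃ (U : Set Mat) (φ : (Fin k → ℝ) → Mat) (ψ : Mat → Fin k → ℝ), IsOpen U ∧ P ∈ U ∧
    (∀ i j, ContDiff ℝ ∞ fun x => φ x i j) ∧ (∀ a, SmoothOn (fun Q => ψ Q a) U) ∧
    (∀ x, φ x ∈ L ∩ U) ∧ (∀ x, ψ (φ x) = x) ∧ ∀ Q ∈ L ∩ U, φ (ψ Q) = Q

/-- `𝓕` is (the set of the leaves of) a singular Riemannian foliation of `SL(4, ℝ) / SO(4)` with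
closed embedded leaves: the leaves are connected closed embedded submanifolds which form a
partition, each vector tangent to a leaf extends to a smooth vector field that is tangent to all
leaves, and each geodesic that is orthogonal to the leaf at one of its points is orthogonal to the
leaves at all of its points. -/
structure IsSRF (𝓕 : Set (Set Mat)) : Prop where
  subset : ∀ L ∈ 𝓕, L ⊆ PD
  partition : ∀ P ∈ PD, ∃! L, L ∈ 𝓕 ∧ P ∈ L
  connected : ∀ L ∈ 𝓕, IsConnected L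
  closed : ∀ L ∈ 𝓕, IsClosed L
  submanifold : ∀ L ∈ 𝓕, ∃ k, IsSubmfd k L
  fields : ∀ L ∈ 𝓕, ∀ P ∈ L, ∀ X ∈ Tan L P, ∃ (U : Set Mat) (V : Mat → Mat), IsOpen U ∧ PD ⊆ U ∧
    (∀ i j, SmoothOn (fun Q => V Q i j) U) ∧ (∀ L' ∈ 𝓕, ∀ Q ∈ L', V Q ∈ Tan L' Q) ∧ V P = X
  transnormal : ∀ c, IsGeodesic c → ∀ s,
    (∀ L ∈ 𝓕, c s ∈ L → ∀ X ∈ Tan L (c s), met (c s) (vel c s) X = 0) →
      ∀ t, ∀ L ∈ 𝓕, c t ∈ L → ∀ X ∈ Tan L (c t), met (c t) (vel c t) X = 0

/-- The maximal dimension of the leaves is `7`, that is `𝓕` has codimension `2` in the manifold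
`SL(4, ℝ) / SO(4)` of dimension `9`. -/
def HasCodimTwo (𝓕 : Set (Set Mat)) : Prop :=
  IsSubmfd 9 PD ∧ (∃ L ∈ 𝓕, IsSubmfd 7 L) ∧ ∀ L ∈ 𝓕, ∃ k ≤ 7, IsSubmfd k L

/-- `σ` parametrises a two-dimensional flat section of `𝓕`: it is a smooth isometric immersion of
the Euclidean plane `ℝ × ℝ` in `SL(4, ℝ) / SO(4)` which maps each line to a geodesic (so its image
is a complete flat totally geodesic immersed surface), it meets each leaf, and it is orthogonal to
the leaves at all intersection points. -/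
structure IsFlatSection (𝓕 : Set (Set Mat)) (σ : ℝ → ℝ → Mat) : Prop where
  smooth : ∀ i j, ContDiff ℝ ∞ fun x : ℝ × ℝ => σ x.1 x.2 i j
  isometric : ∀ x y a b, met (σ x y) (vel (fun t => σ (x + t * a) (y + t * b)) 0)
    (vel (fun t => σ (x + t * a) (y + t * b)) 0) = a ^ 2 + b ^ 2
  geodesic : ∀ x y a b, IsGeodesic fun t => σ (x + t * a) (y + t * b)
  meets : ∀ L ∈ 𝓕, ∃ x y, σ x y ∈ L
  orthogonal : ∀ x y a b, ∀ L ∈ 𝓕, σ x y ∈ L → ∀ X ∈ Tan L (σ x y),
    met (σ x y) (vel (fun t => σ (x + t * a) (y + t * b)) 0) X = 0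

/-- `𝓕` is hyperpolar of cohomogeneity two: through every point passes a flat section of
dimension `2`. -/
def IsHyperpolar (𝓕 : Set (Set Mat)) : Prop :=
  ∀ P ∈ PD, ∃ σ, IsFlatSection 𝓕 σ ∧ ∃ x y, σ x y = P

/-- `𝓕` is homogeneous: its leaves are the orbits of a group of isometries (that is, of bijections
preserving the Riemannian distance) of `SL(4, ℝ) / SO(4)`. -/
def IsHomogeneous (𝓕 : Set (Set Mat)) : Prop :=
  ∃ H : Subgroup (Equiv.Perm PD), (∀ h ∈ H, ∀ P Q : PD, rdist (h P) (h Q) = rdist P Q) ∧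
    ∀ L, L ∈ 𝓕 ↔ ∃ P : PD, L = {Q : Mat | ∃ h ∈ H, Q = h P}

/-- `γ` consists of geodesics which start at `P`, and whose initial velocities form an orthonormal
basis of the tangent space, of dimension `9`, of `SL(4, ℝ) / SO(4)` at `P`. -/
def IsFrame (P : Mat) (γ : Fin 9 → ℝ → Mat) : Prop :=
  (∀ a, IsGeodesic (γ a) ∧ γ a 0 = P) ∧
    ∀ a b, met P (vel (γ a) 0) (vel (γ b) 0) = if a = b then 1 else 0

/-- `𝓕` is isoparametric: its leaves are the level sets of a smooth map `(f₁, f₂)` with two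
components, such that the inner products of the gradients of the components, and the Laplacians of
the components, are functions of `(f₁, f₂)`. (The gradients and the Laplacians are computed by means
of the geodesics of orthonormal frames.) -/
def IsIsoparametric (𝓕 : Set (Set Mat)) : Prop :=
  ∃ (U : Set Mat) (f₁ f₂ : Mat → ℝ) (A B C D E : ℝ → ℝ → ℝ), IsOpen U ∧ PD ⊆ U ∧
    SmoothOn f₁ U ∧ SmoothOn f₂ U ∧
    (∀ P ∈ PD, {Q | Q ∈ PD ∧ f₁ Q = f₁ P ∧ f₂ Q = f₂ P} ∈ 𝓕) ∧
    ∀ P ∈ PD, ∀ γ, IsFrame P γ →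
      ∑ a, deriv (fun t => f₁ (γ a t)) 0 ^ 2 = A (f₁ P) (f₂ P) ∧
      ∑ a, deriv (fun t => f₁ (γ a t)) 0 * deriv (fun t => f₂ (γ a t)) 0 = B (f₁ P) (f₂ P) ∧
      ∑ a, deriv (fun t => f₂ (γ a t)) 0 ^ 2 = C (f₁ P) (f₂ P) ∧
      ∑ a, deriv (deriv fun t => f₁ (γ a t)) 0 = D (f₁ P) (f₂ P) ∧
      ∑ a, deriv (deriv fun t => f₂ (γ a t)) 0 = E (f₁ P) (f₂ P)

end Pool.Agent.W538.HPol
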