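import Pool.Agent.W538.HPol.Met

/-! The Riemannian distance. -/

noncomputable section

namespace Pool.Agent.W538.HPol

open Matrix Set
open scoped ContDiff

lemma Sm.of_smoothIn {L : Set Mat} {c : ℝ → Mat} (h : SmoothIn L c) : Sm c := h.1

lemma hasVel_symm {c : ℝ → Mat} {X : Mat} {t : ℝ} (hc : ∀ s, c s ∈ PD) (h : HasVel c X t) :
    Xᵀ = X := by
  have : HasVel c Xᵀ t := by
    intro i j
    have := h j i
    have e : (fun s => c s i j) = fun s => c s j i := funext fun s => symm_of (hc s).1 i j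
    rw [e]; exact this
  exact this.unique h

lemma sum_sq_le_met {c : ℝ → Mat} {X : Mat} {t : ℝ} {k : Mat} {z : Fin 4 → ℝ}
    (hc : ∀ s, c s ∈ PD) (h : HasVel c X t) (hk : Uni k) (hct : c t = PT k z) :
    ∑ i, ((k⁻¹ * X * (k⁻¹)ᵀ) i i * Real.exp (-z i)) ^ 2 ≤ met (c t) X X := by
  have hs := hasVel_symm hc h
  rw [hct, met_PT hk, met_dg]
  set Y := k⁻¹ * X * (k⁻¹)ᵀ with hY
  have hYs : Yᵀ = Y := by
    rw [hY, Matrix.transpose_mul, Matrix.transpose_mul, hs, Matrix.transpose_transpose,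
      Matrix.mul_assoc]
  have hYs' : ∀ i j, Y i j = Y j i := fun i j => by
    conv_lhs => rw [← hYs]
    rfl
  refine Finset.sum_le_sum fun i _ => ?_
  have : ∀ j ∈ Finset.univ, 0 ≤ Real.exp (-z i) * Y i j * Real.exp (-z j) * Y j i := by
    intro j _
    rw [← hYs' i j]
    have : Real.exp (-z i) * Y i j * Real.exp (-z j) * Y i j =
      Real.exp (-z i) * Real.exp (-z j) * (Y i j * Y i j) := by ring
    rw [this]
    exact mul_nonneg (by positivity) (mul_self_nonneg _)
  refine le_trans (le_of_eq ?_) (Finset.single_le_sum this (Finset.mem_univ i))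
  ring

/-- the Euclidean distance -/
def dz (z w : Fin 4 → ℝ) : ℝ := Real.sqrt (∑ i, (z i - w i) ^ 2)

lemma det_ne {P : Mat} (hP : P ∈ PD) : IsUnit P.det := by rw [hP.2]; exact isUnit_one

lemma inv_eq_adj {P : Mat} (hP : P ∈ PD) : P⁻¹ = P.adjugate := by
  rw [Matrix.inv_def, hP.2]; simp

lemma Sm.continuous {c : ℝ → Mat} (h : Sm c) : Continuous c :=
  continuous_matrix fun i j => (h i j).continuous

lemma cont_met {c : ℝ → Mat} (h : SmoothIn PD c) :
    Continuous fun t => met (c t) (vel c t) (vel c t) := by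
  have h1 : Continuous c := Sm.continuous h.1
  have h2 : Continuous (vel c) := Sm.continuous (Sm.vel h.1)
  have h3 : Continuous fun t => (c t)⁻¹ := by
    have : (fun t => (c t)⁻¹) = fun t => (c t).adjugate := funext fun t => inv_eq_adj (h.2 t)
    rw [this]
    exact h1.matrix_adjugate
  unfold met
  exact (((h3.matrix_mul h2).matrix_mul h3).matrix_mul h2).matrix_trace

lemma met_nonneg {P X : Mat} (hP : P ∈ PD) (hX : Xᵀ = X) : 0 ≤ met P X X := by
  have hk := uni_kof P
  conv_rhs => rw [chol hP]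
  rw [met_PT hk, met_dg]
  set Y := (kof P)⁻¹ * X * ((kof P)⁻¹)ᵀ with hY
  have hYs : Yᵀ = Y := by
    rw [hY, Matrix.transpose_mul, Matrix.transpose_mul, hX, Matrix.transpose_transpose,
      Matrix.mul_assoc]
  refine Finset.sum_nonneg fun i _ => Finset.sum_nonneg fun j _ => ?_
  have : Y j i = Y i j := by
    conv_lhs => rw [← hYs]
    rfl
  rw [this]
  have : Real.exp (-zof P i) * Y i j * Real.exp (-zof P j) * Y i j =
      Real.exp (-zof P i) * Real.exp (-zof P j) * (Y i j * Y i j) := by ring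
  rw [this]
  exact mul_nonneg (by positivity) (mul_self_nonneg _)

lemma len_nonneg {c : ℝ → Mat} : 0 ≤ len c :=
  intervalIntegral.integral_nonneg (by norm_num) fun t _ => Real.sqrt_nonneg _

lemma contDiff_m1 {E : Type*} [NormedAddCommGroup E] [NormedSpace ℝ E] {c : E → Mat} (h : Sm c) :
    ContDiff ℝ ∞ fun t => m1 (c t) := h 0 0

lemma contDiff_m2 {E : Type*} [NormedAddCommGroup E] [NormedSpace ℝ E] {c : E → Mat} (h : Sm c) :
    ContDiff ℝ ∞ fun t => m2 (c t) := ((h 0 0).mul (h 1 1)).sub ((h 0 1).mul (h 1 0))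

lemma contDiff_m3 {E : Type*} [NormedAddCommGroup E] [NormedSpace ℝ E] {c : E → Mat} (h : Sm c) :
    ContDiff ℝ ∞ fun t => m3 (c t) :=
  (((h 0 0).mul (((h 1 1).mul (h 2 2)).sub ((h 1 2).mul (h 2 1)))).sub
      ((h 0 1).mul (((h 1 0).mul (h 2 2)).sub ((h 1 2).mul (h 2 0))))).add
      ((h 0 2).mul (((h 1 0).mul (h 2 1)).sub ((h 1 1).mul (h 2 0))))

lemma contDiff_zof {E : Type*} [NormedAddCommGroup E] [NormedSpace ℝ E] {c : E → Mat} (h : Sm c)
    (hc : ∀ s, c s ∈ PD) (i : Fin 4) : ContDiff ℝ ∞ fun t => zof (c t) i := by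
  have l1 : ContDiff ℝ ∞ fun t => Real.log (m1 (c t)) :=
    (contDiff_m1 h).log fun t => (m1_pos (hc t).1).ne'
  have l2 : ContDiff ℝ ∞ fun t => Real.log (m2 (c t)) :=
    (contDiff_m2 h).log fun t => (m2_pos (hc t).1).ne'
  have l3 : ContDiff ℝ ∞ fun t => Real.log (m3 (c t)) :=
    (contDiff_m3 h).log fun t => (m3_pos (hc t).1).ne'
  fin_cases i
  · exact l1
  · exact l2.sub l1
  · exact l3.sub l2
  · exact l3.neg

/-- the coordinates `zof` are a `1`-Lipschitz map, curve version -/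
lemma dz_le_len {c : ℝ → Mat} (h : SmoothIn PD c) : dz (zof (c 0)) (zof (c 1)) ≤ len c := by
  set u : Fin 4 → ℝ := fun i => zof (c 1) i - zof (c 0) i with hu
  set S : ℝ := ∑ i, (u i) ^ 2 with hS
  have hS0 : 0 ≤ S := Finset.sum_nonneg fun i _ => sq_nonneg _
  set φ : ℝ → ℝ := fun t => ∑ i, u i * zof (c t) i with hφ
  have hφc : ContDiff ℝ ∞ φ :=
    ContDiff.sum fun i _ => contDiff_const.mul (contDiff_zof h.1 h.2 i)
  have hder : ∀ t, deriv φ t ≤ Real.sqrt S * Real.sqrt (met (c t) (vel c t) (vel c t)) := by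
    intro t
    have hv := Sm.hasVel h.1 t
    have hk := uni_kof (c t)
    have hct := chol (h.2 t)
    have H : HasDerivAt φ (∑ i, u i * (((kof (c t))⁻¹ * vel c t * ((kof (c t))⁻¹)ᵀ) i i *
        Real.exp (-zof (c t) i))) t :=
      HasDerivAt.fun_sum fun i _ => (deriv_zof h.2 hv hk hct i).const_mul _
    rw [H.deriv]
    refine (Real.sum_mul_le_sqrt_mul_sqrt _ _ _).trans ?_
    exact mul_le_mul_of_nonneg_left (Real.sqrt_le_sqrt (sum_sq_le_met h.2 hv hk hct))
      (Real.sqrt_nonneg _)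
  have hint : ∫ t in (0 : ℝ)..1, deriv φ t = φ 1 - φ 0 := by
    refine intervalIntegral.integral_deriv_eq_sub' φ rfl (fun t _ => ?_) ?_
    · exact hφc.differentiable (by simp) t
    · exact (hφc.continuous_deriv (by simp)).continuousOn
  have hle : ∫ t in (0 : ℝ)..1, deriv φ t ≤
      ∫ t in (0 : ℝ)..1, Real.sqrt S * Real.sqrt (met (c t) (vel c t) (vel c t)) := by
    refine intervalIntegral.integral_mono_on (by norm_num) ?_ ?_ fun t _ => hder t
    · exact (hφc.continuous_deriv (by simp)).intervalIntegrable _ _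
    · exact (continuous_const.mul (cont_met h).sqrt).intervalIntegrable _ _
  have hdiff : φ 1 - φ 0 = S := by
    rw [hφ, hS]
    simp only []
    rw [← Finset.sum_sub_distrib]
    refine Finset.sum_congr rfl fun i _ => ?_
    rw [hu]; ring
  rw [hint, hdiff, intervalIntegral.integral_const_mul] at hle
  have hdz : dz (zof (c 0)) (zof (c 1)) = Real.sqrt S := by
    rw [dz, hS]
    congr 1
    refine Finset.sum_congr rfl fun i _ => ?_
    rw [hu]; ring
  rw [hdz]
  have hlen : len c = ∫ t in (0 : ℝ)..1, Real.sqrt (met (c t) (vel c t) (vel c t)) := rfl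
  rw [← hlen] at hle
  rcases eq_or_lt_of_le (Real.sqrt_nonneg S) with h0 | h0
  · rw [← h0]; exact len_nonneg
  · have : Real.sqrt S * Real.sqrt S ≤ Real.sqrt S * len c := by
      rw [Real.mul_self_sqrt hS0]; exact hle
    exact le_of_mul_le_mul_left this h0

lemma rdist_le {c : ℝ → Mat} (h : SmoothIn PD c) : rdist (c 0) (c 1) ≤ len c :=
  csInf_le ⟨0, by rintro l ⟨c, _, _, _, rfl⟩; exact len_nonneg⟩ ⟨c, h, rfl, rfl, rfl⟩

/-- affine interpolation -/
def lin (A B : Mat) (t : ℝ) : Mat := A + t • (B - A)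

lemma uni_lin {A B : Mat} (hA : Uni A) (hB : Uni B) (t : ℝ) : Uni (lin A B t) := by
  obtain ⟨⟨a1, a2, a3, a4, a5, a6⟩, a7, a8, a9, a10⟩ := hA
  obtain ⟨⟨b1, b2, b3, b4, b5, b6⟩, b7, b8, b9, b10⟩ := hB
  refine ⟨⟨?_, ?_, ?_, ?_, ?_, ?_⟩, ?_, ?_, ?_, ?_⟩ <;>
    simp [lin, a1, a2, a3, a4, a5, a6, a7, a8, a9, a10, b1, b2, b3, b4, b5, b6, b7, b8, b9, b10]

lemma sm_lin (A B : Mat) : Sm (lin A B) := by
  intro i j
  simp only [lin, Matrix.add_apply, Matrix.smul_apply, Matrix.sub_apply, smul_eq_mul]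
  exact contDiff_const.add (contDiff_id.mul contDiff_const)

/-- affine interpolation -/
def linz (z w : Fin 4 → ℝ) (t : ℝ) : Fin 4 → ℝ := fun i => z i + t * (w i - z i)

lemma sum_linz {z w : Fin 4 → ℝ} (hz : z 0 + z 1 + z 2 + z 3 = 0) (hw : w 0 + w 1 + w 2 + w 3 = 0)
    (t : ℝ) : linz z w t 0 + linz z w t 1 + linz z w t 2 + linz z w t 3 = 0 := by
  simp only [linz]
  linear_combination (1 - t) * hz + t * hw

lemma smoothIn_lin {A B : Mat} (hA : Uni A) (hB : Uni B) {z w : Fin 4 → ℝ}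
    (hz : z 0 + z 1 + z 2 + z 3 = 0) (hw : w 0 + w 1 + w 2 + w 3 = 0) :
    SmoothIn PD fun t => PT (lin A B t) (linz z w t) := by
  refine ⟨sm_PT (sm_lin A B) fun i => ?_, fun t => PT_mem (uni_lin hA hB t) (sum_linz hz hw t)⟩
  simp only [linz]
  exact contDiff_const.add (contDiff_id.mul contDiff_const)

lemma exists_curve {P Q : Mat} (hP : P ∈ PD) (hQ : Q ∈ PD) :
    ∃ c, SmoothIn PD c ∧ c 0 = P ∧ c 1 = Q := by
  refine ⟨_, smoothIn_lin (uni_kof P) (uni_kof Q) (sum_zof P) (sum_zof Q), ?_, ?_⟩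
  · have h1 : lin (kof P) (kof Q) 0 = kof P := by simp [lin]
    have h2 : linz (zof P) (zof Q) 0 = zof P := by ext i; simp [linz]
    simp only [h1, h2]
    exact (chol hP).symm
  · have h1 : lin (kof P) (kof Q) 1 = kof Q := by simp [lin]
    have h2 : linz (zof P) (zof Q) 1 = zof Q := by ext i; simp [linz]
    simp only [h1, h2]
    exact (chol hQ).symm

lemma le_rdist {P Q : Mat} (hP : P ∈ PD) (hQ : Q ∈ PD) {r : ℝ}
    (h : ∀ c, SmoothIn PD c → c 0 = P → c 1 = Q → r ≤ len c) : r ≤ rdist P Q := by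
  obtain ⟨c, h1, h2, h3⟩ := exists_curve hP hQ
  refine le_csInf ⟨_, c, h1, h2, h3, rfl⟩ ?_
  rintro l ⟨c, h1, h2, h3, rfl⟩
  exact h c h1 h2 h3

/-- the coordinates `zof` are a `1`-Lipschitz map -/
lemma dz_le_rdist {P Q : Mat} (hP : P ∈ PD) (hQ : Q ∈ PD) : dz (zof P) (zof Q) ≤ rdist P Q :=
  le_rdist hP hQ fun c h1 h2 h3 => by rw [← h2, ← h3]; exact dz_le_len h1

lemma conj_mem {g : Mat} (hg : g.det ^ 2 = 1) {P : Mat} (hP : P ∈ PD) : g * P * gᵀ ∈ PD := by
  have hu : IsUnit g.det := by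
    rw [isUnit_iff_ne_zero]
    rintro h
    rw [h] at hg
    norm_num at hg
  refine ⟨?_, ?_⟩
  · have h2 : gᴴ = gᵀ := Matrix.conjTranspose_eq_transpose_of_trivial g
    have h3 := hP.1.mul_mul_conjTranspose_same (B := g) (by
      rw [Matrix.vecMul_injective_iff_isUnit, Matrix.isUnit_iff_isUnit_det]
      exact hu)
    rw [h2] at h3
    exact h3
  · rw [Matrix.det_mul, Matrix.det_mul, Matrix.det_transpose, hP.2]
    linarith

lemma rdist_conj_le {g : Mat} (hg : g.det ^ 2 = 1) {P Q : Mat} (hP : P ∈ PD) (hQ : Q ∈ PD) :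
    rdist (g * P * gᵀ) (g * Q * gᵀ) ≤ rdist P Q := by
  have hu : IsUnit g.det := by
    rw [isUnit_iff_ne_zero]
    rintro h
    rw [h] at hg
    norm_num at hg
  refine le_rdist hP hQ fun c h1 h2 h3 => ?_
  have hc' : SmoothIn PD fun t => g * c t * gᵀ :=
    ⟨((sm_const g).mul h1.1).mul (sm_const gᵀ), fun t => conj_mem hg (h1.2 t)⟩
  have := rdist_le hc'
  rw [h2, h3] at this
  refine this.trans (le_of_eq ?_)
  unfold len
  refine intervalIntegral.integral_congr fun t _ => ?_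
  simp only []
  have hv : vel (fun t => g * c t * gᵀ) t = g * vel c t * gᵀ :=
    (((Sm.hasVel h1.1 t).lmul g).rmul gᵀ).vel
  rw [hv, met_conj hu]

lemma rdist_conj {g : Mat} (hg : g.det ^ 2 = 1) {P Q : Mat} (hP : P ∈ PD) (hQ : Q ∈ PD) :
    rdist (g * P * gᵀ) (g * Q * gᵀ) = rdist P Q := by
  have hu : IsUnit g.det := by
    rw [isUnit_iff_ne_zero]
    rintro h
    rw [h] at hg
    norm_num at hg
  refine le_antisymm (rdist_conj_le hg hP hQ) ?_
  have hg' : (g⁻¹).det ^ 2 = 1 := by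
    rw [Matrix.det_nonsing_inv, Ring.inverse_eq_inv', inv_pow, hg, inv_one]
  have := rdist_conj_le hg' (conj_mem hg hP) (conj_mem hg hQ)
  rw [inv_conj hu, inv_conj hu] at this
  exact this

lemma det_uni_sq {k : Mat} (hk : Uni k) : k.det ^ 2 = 1 := by rw [det_uni hk]; norm_num

lemma det_uni_inv_sq {k : Mat} (hk : Uni k) : (k⁻¹).det ^ 2 = 1 := by
  rw [Matrix.det_nonsing_inv, det_uni hk]; simp

/-- distances in the flats -/
lemma rdist_PT {k : Mat} (hk : Uni k) {z w : Fin 4 → ℝ} (hz : z 0 + z 1 + z 2 + z 3 = 0)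
    (hw : w 0 + w 1 + w 2 + w 3 = 0) : rdist (PT k z) (PT k w) = dz z w := by
  apply le_antisymm
  · have h1 := smoothIn_lin hk hk hz hw
    have h2 := rdist_le h1
    have e0 : lin k k = fun _ => k := by ext t i j; simp [lin]
    have e1 : linz z w 0 = z := by ext i; simp [linz]
    have e2 : linz z w 1 = w := by ext i; simp [linz]
    simp only [e0, e1, e2] at h2 h1
    refine h2.trans (le_of_eq ?_)
    unfold len
    have : ∀ t, met (PT k (linz z w t)) (vel (fun t => PT k (linz z w t)) t)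
        (vel (fun t => PT k (linz z w t)) t) = ∑ i, (z i - w i) ^ 2 := by
      intro t
      have hv := hasVel_PT (k := fun _ => k) (z := linz z w) (v := fun i => w i - z i)
        (hasVel_const k t) (fun i => by
          have := ((hasDerivAt_id t).mul_const (w i - z i)).const_add (z i)
          simpa [linz] using this)
      rw [hv.vel, met_PT hk, met_dg]
      simp only [Matrix.zero_mul, Matrix.transpose_zero, Matrix.mul_zero, zero_add]
      rw [inv_conj (det_uni_unit hk), dg, Matrix.diagonal_mul_diagonal]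
      refine Finset.sum_congr rfl fun i _ => ?_
      rw [Finset.sum_eq_single i]
      · simp only [Matrix.diagonal_apply_eq]
        have : Real.exp (-linz z w t i) * Real.exp (linz z w t i) = 1 := by
          rw [← Real.exp_add]; simp
        linear_combination (w i - z i) ^ 2 *
          (Real.exp (-linz z w t i) * Real.exp (linz z w t i) + 1) * this
      · intro j _ hj
        rw [Matrix.diagonal_apply_ne' _ hj]; ring
      · simp
    simp only [this]
    simp [dz]
  · have := dz_le_rdist (PT_mem hk hz) (PT_mem hk hw)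
    rwa [zof_PT hk hz, zof_PT hk hw] at this

end Pool.Agent.W538.HPol
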