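import Pool.Agent.W538.HPol.Coord

/-! The foliation: leaves, tangent vectors, vector fields. -/

noncomputable section

namespace Pool.Agent.W538.HPol

open Matrix Set
open scoped ContDiff

/-- the leaves -/
def Leaf (a r : ℝ) : Set Mat := {P | P ∈ PD ∧ ξ3 (zof P) = a ∧ ξ1 (zof P) ^ 2 + ξ2 (zof P) ^ 2 = r}

/-- the foliation -/
def Fol : Set (Set Mat) := {L | ∃ a r, 0 ≤ r ∧ L = Leaf a r}

/-- strictly lower triangular -/
def SL (A : Mat) : Prop := Low A ∧ A 0 0 = 0 ∧ A 1 1 = 0 ∧ A 2 2 = 0 ∧ A 3 3 = 0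

lemma sl_mul {A B : Mat} (hA : SL A) (hB : Low B) : SL (A * B) := by
  obtain ⟨h1, h2⟩ := low_mul hA.1 hB
  refine ⟨h1, ?_, ?_, ?_, ?_⟩
  · rw [h2, hA.2.1, zero_mul]
  · rw [h2, hA.2.2.1, zero_mul]
  · rw [h2, hA.2.2.2.1, zero_mul]
  · rw [h2, hA.2.2.2.2, zero_mul]

lemma sl_zero : SL 0 := by simp [SL, Low]

lemma uni_add_sl {k A : Mat} (hk : Uni k) (hA : SL A) : Uni (k + A) := by
  obtain ⟨⟨a1, a2, a3, a4, a5, a6⟩, a7, a8, a9, a10⟩ := hA
  obtain ⟨⟨b1, b2, b3, b4, b5, b6⟩, b7, b8, b9, b10⟩ := hk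
  simp [Uni, Low, a1, a2, a3, a4, a5, a6, a7, a8, a9, a10, b1, b2, b3, b4, b5, b6, b7, b8, b9, b10]

lemma sl_smul {A : Mat} (hA : SL A) (t : ℝ) : SL (t • A) := by
  obtain ⟨⟨a1, a2, a3, a4, a5, a6⟩, a7, a8, a9, a10⟩ := hA
  simp [SL, Low, a1, a2, a3, a4, a5, a6, a7, a8, a9, a10]

/-- the velocity of a curve of unipotent matrices -/
lemma sl_of_vel {k : ℝ → Mat} {K : Mat} {t : ℝ} (hk : ∀ t, Uni (k t)) (h : HasVel k K t) :
    SL K := by
  have key : ∀ (i j : Fin 4) (a : ℝ), (∀ t, k t i j = a) → K i j = 0 := by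
    intro i j a ha
    have h1 := h i j
    have e : (fun s => k s i j) = fun _ => a := funext ha
    rw [e] at h1
    exact h1.unique (hasDerivAt_const _ _)
  exact ⟨⟨key _ _ 0 fun t => (hk t).1.1, key _ _ 0 fun t => (hk t).1.2.1,
    key _ _ 0 fun t => (hk t).1.2.2.1, key _ _ 0 fun t => (hk t).1.2.2.2.1,
    key _ _ 0 fun t => (hk t).1.2.2.2.2.1, key _ _ 0 fun t => (hk t).1.2.2.2.2.2⟩,
    key _ _ 1 fun t => (hk t).2.1, key _ _ 1 fun t => (hk t).2.2.1,
    key _ _ 1 fun t => (hk t).2.2.2.1, key _ _ 1 fun t => (hk t).2.2.2.2⟩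

lemma SmoothOn.comp_curve {f : Mat → ℝ} {U : Set Mat} (hf : SmoothOn f U) {c : ℝ → Mat}
    (hc : Sm c) (h : ∀ t, c t ∈ U) : ContDiff ℝ ∞ fun t => f (c t) := by
  have h1 : ContDiff ℝ ∞ fun t => (fun i j => c t i j : Fin 4 → Fin 4 → ℝ) :=
    contDiff_pi.2 fun i => contDiff_pi.2 fun j => hc i j
  exact hf.comp_contDiff h1 h

lemma sm_kof_curve {c : ℝ → Mat} (hc : Sm c) (h : ∀ t, c t ∈ PD) : Sm fun t => kof (c t) :=
  fun i j => (sm_kof i j).comp_curve hc fun t => PD_sub_U0 (h t)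

/-- general form of the tangent vectors of the symmetric space -/
lemma vel_form {c : ℝ → Mat} {X : Mat} {t : ℝ} (hc : SmoothIn PD c) (h : HasVel c X t) :
    ∃ A v, SL A ∧ Z0 v ∧ (∀ i, HasDerivAt (fun t => zof (c t) i) (v i) t) ∧
      X = A * c t + c t * Aᵀ + kof (c t) * (dg (zof (c t)) * diagonal v) * (kof (c t))ᵀ := by
  have h1 := sm_kof_curve hc.1 hc.2
  have h2 : ∀ i, ContDiff ℝ ∞ fun t => zof (c t) i := fun i =>
    (sm_zof i).comp_curve hc.1 fun t => PD_sub_U0 (hc.2 t)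
  set K := vel (fun t => kof (c t)) t with hK
  set v : Fin 4 → ℝ := fun i => deriv (fun t => zof (c t) i) t with hv
  have h3 : HasVel (fun t => kof (c t)) K t := h1.hasVel t
  have h4 : ∀ i, HasDerivAt (fun t => zof (c t) i) (v i) t := fun i =>
    ((h2 i).differentiable (by simp) t).hasDerivAt
  have hKs : SL K := sl_of_vel (fun t => uni_kof (c t)) h3
  have h5 := hasVel_PT h3 h4
  have e : (fun t => PT (kof (c t)) (zof (c t))) = c := funext fun t => (chol (hc.2 t)).symm
  rw [e] at h5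
  have hu := det_uni_unit (uni_kof (c t))
  refine ⟨K * (kof (c t))⁻¹, v, sl_mul hKs (uni_inv (uni_kof _)).1, ?_, h4, ?_⟩
  · have h6 := (((h4 0).add (h4 1)).add (h4 2)).add (h4 3)
    have h7 : HasDerivAt (fun _ : ℝ => (0 : ℝ)) 0 t := hasDerivAt_const _ _
    have e : ((((fun t => zof (c t) 0) + fun t => zof (c t) 1) + fun t => zof (c t) 2) +
      fun t => zof (c t) 3) = fun _ : ℝ => (0 : ℝ) := by
      ext s
      exact sum_zof (c s)
    rw [e] at h6
    exact h6.unique h7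
  · rw [h.unique h5]
    congr 1
    have a1 : K * (kof (c t))⁻¹ * c t = K * dg (zof (c t)) * (kof (c t))ᵀ := by
      conv_lhs => rw [chol (hc.2 t)]
      rw [kof_PT (uni_kof _) (sum_zof _), PT]
      calc K * (kof (c t))⁻¹ * (kof (c t) * dg (zof (c t)) * (kof (c t))ᵀ) =
          K * ((kof (c t))⁻¹ * kof (c t)) * dg (zof (c t)) * (kof (c t))ᵀ := by noncomm_ring
        _ = _ := by rw [Matrix.nonsing_inv_mul _ hu, Matrix.mul_one]
    have a2 : c t * (K * (kof (c t))⁻¹)ᵀ = kof (c t) * dg (zof (c t)) * Kᵀ := by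
      have hs : (c t)ᵀ = c t := by
        ext i j; exact symm_of (hc.2 t).1 j i
      have := congrArg Matrix.transpose a1
      rw [Matrix.transpose_mul (K * (kof (c t))⁻¹) (c t), hs] at this
      rw [this]
      have h7 : (dg (zof (c t)))ᵀ = dg (zof (c t)) := by rw [dg, Matrix.diagonal_transpose]
      rw [Matrix.transpose_mul, Matrix.transpose_mul, Matrix.transpose_transpose, h7]
      noncomm_ring
    rw [a1, a2]

lemma hasDeriv_ξ {z : ℝ → Fin 4 → ℝ} {v : Fin 4 → ℝ} {t : ℝ}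
    (h : ∀ i, HasDerivAt (fun t => z t i) (v i) t) :
    HasDerivAt (fun t => ξ1 (z t)) (ξ1 v) t ∧ HasDerivAt (fun t => ξ2 (z t)) (ξ2 v) t ∧
      HasDerivAt (fun t => ξ3 (z t)) (ξ3 v) t := by
  refine ⟨?_, ?_, ?_⟩
  · exact ((((h 0).sub ((h 1).const_mul 3)).add ((h 2).const_mul 3)).sub (h 3)).div_const 2
  · exact (((((h 0).sub (h 1)).sub (h 2)).add (h 3)).const_mul s5).div_const 2
  · exact (((((h 0).const_mul 3).add (h 1)).sub (h 2)).sub ((h 3).const_mul 3)).div_const 2

lemma zz_smul (l a b c : ℝ) : zz (l * a) (l * b) (l * c) = fun i => l * zz a b c i := by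
  ext i
  fin_cases i <;> simp [zz] <;> ring

lemma tan_leaf {a r : ℝ} {P X : Mat} (hP : P ∈ Leaf a r) (hX : X ∈ Tan (Leaf a r) P) :
    ∃ A l, SL A ∧ X = A * P + P * Aᵀ + (l : ℝ) • R P := by
  obtain ⟨c, hc, hc0, hcX⟩ := hX
  have hcPD : SmoothIn PD c := ⟨hc.1, fun t => (hc.2 t).1⟩
  have hv : HasVel c X 0 := by rw [← hcX]; exact Sm.hasVel hc.1 0
  obtain ⟨A, v, hA, hv0, hd, hXe⟩ := vel_form hcPD hv
  rw [hc0] at hXe
  obtain ⟨d1, d2, d3⟩ := hasDeriv_ξ hd
  have w3 : ξ3 v = 0 := by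
    have e : (fun t => ξ3 (zof (c t))) = fun _ => a := funext fun t => (hc.2 t).2.1
    rw [e] at d3
    exact d3.unique (hasDerivAt_const _ _)
  have w12 : ξ1 (zof P) * ξ1 v + ξ2 (zof P) * ξ2 v = 0 := by
    have e : (fun t => ξ1 (zof (c t)) * ξ1 (zof (c t)) + ξ2 (zof (c t)) * ξ2 (zof (c t))) =
        fun _ => r := by
      funext t
      have := (hc.2 t).2.2
      rw [← this]; ring
    have h1 := (d1.mul d1).add (d2.mul d2)
    have h2 : HasDerivAt (fun t => ξ1 (zof (c t)) * ξ1 (zof (c t)) +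
      ξ2 (zof (c t)) * ξ2 (zof (c t))) (ξ1 v * ξ1 (zof (c 0)) + ξ1 (zof (c 0)) * ξ1 v +
        (ξ2 v * ξ2 (zof (c 0)) + ξ2 (zof (c 0)) * ξ2 v)) 0 := h1
    rw [e] at h2
    have h3 := h2.unique (hasDerivAt_const _ _)
    rw [hc0] at h3
    linarith
  suffices h : ∃ l : ℝ, ∀ i, v i = l * J (zof P) i by
    obtain ⟨l, hl⟩ := h
    refine ⟨A, l, hA, ?_⟩
    rw [hXe]
    congr 1
    have : v = l • J (zof P) := by ext i; simp [hl]
    rw [R, this, Matrix.diagonal_smul]
    simp [Matrix.mul_smul, Matrix.smul_mul]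
  have hr := hP.2.2
  by_cases hr0 : r = 0
  · refine ⟨0, fun i => ?_⟩
    have z1 : ∀ t, ξ1 (zof (c t)) = 0 := fun t => by
      have := (hc.2 t).2.2
      rw [hr0] at this
      nlinarith [sq_nonneg (ξ1 (zof (c t))), sq_nonneg (ξ2 (zof (c t)))]
    have z2 : ∀ t, ξ2 (zof (c t)) = 0 := fun t => by
      have := (hc.2 t).2.2
      rw [hr0] at this
      nlinarith [sq_nonneg (ξ1 (zof (c t))), sq_nonneg (ξ2 (zof (c t)))]
    have w1 : ξ1 v = 0 := by
      have e : (fun t => ξ1 (zof (c t))) = fun _ => 0 := funext z1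
      rw [e] at d1
      exact d1.unique (hasDerivAt_const _ _)
    have w2 : ξ2 v = 0 := by
      have e : (fun t => ξ2 (zof (c t))) = fun _ => 0 := funext z2
      rw [e] at d2
      exact d2.unique (hasDerivAt_const _ _)
    rw [← zz_ξ hv0, w1, w2, w3]
    fin_cases i <;> simp [zz]
  · set x := ξ1 (zof P) with hx
    set y := ξ2 (zof P) with hy
    refine ⟨(x * ξ2 v - y * ξ1 v) / r, fun i => ?_⟩
    have e1 : ξ1 v = (x * ξ2 v - y * ξ1 v) / r * (-y) := by
      field_simp
      rw [← hr]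
      linear_combination x * w12
    have e2 : ξ2 v = (x * ξ2 v - y * ξ1 v) / r * x := by
      field_simp
      rw [← hr]
      linear_combination y * w12
    have e3 : ξ3 v = (x * ξ2 v - y * ξ1 v) / r * 0 := by rw [w3]; ring
    have : v = zz (ξ1 v) (ξ2 v) (ξ3 v) := (zz_ξ hv0).symm
    set q := (x * ξ2 v - y * ξ1 v) / r with hq
    rw [e1, e2, e3, zz_smul] at this
    rw [this, J]

/-- conversely these vectors are tangent -/
lemma mem_tan {a r : ℝ} {P : Mat} (hP : P ∈ Leaf a r) {A : Mat} (hA : SL A) (l : ℝ) :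
    A * P + P * Aᵀ + l • R P ∈ Tan (Leaf a r) P := by
  have hk := uni_kof P
  set c : ℝ → Mat := fun t => PT (kof P + t • (A * kof P)) (zrot (l * t) (zof P)) with hc
  have hu : ∀ t : ℝ, Uni (kof P + t • (A * kof P)) := fun t =>
    uni_add_sl hk (sl_smul (sl_mul hA hk.1) t)
  have hz : ∀ t : ℝ, Z0 (zrot (l * t) (zof P)) := fun t => Z0_zz _ _ _
  have hc0 : c 0 = P := by
    rw [hc]
    simp only [zero_smul, add_zero, mul_zero, zrot, Real.cos_zero, Real.sin_zero, one_mul,
      zero_mul, sub_zero, zero_add]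
    rw [zz_ξ (Z0_zof P)]
    exact (chol hP.1).symm
  have hlt : ∀ t : ℝ, HasDerivAt (fun t : ℝ => l * t) l t := fun t => by
    simpa using (hasDerivAt_id t).const_mul l
  refine ⟨c, ⟨?_, fun t => ⟨PT_mem (hu t) (hz t), ?_, ?_⟩⟩, hc0, ?_⟩
  · apply sm_PT
    · intro i j
      simp only [Matrix.add_apply, Matrix.smul_apply, smul_eq_mul]
      exact contDiff_const.add (contDiff_id.mul contDiff_const)
    · intro i
      have hs : ContDiff ℝ ∞ fun t : ℝ => Real.sin (l * t) :=
        Real.contDiff_sin.comp (contDiff_const.mul contDiff_id)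
      have hcs : ContDiff ℝ ∞ fun t : ℝ => Real.cos (l * t) :=
        Real.contDiff_cos.comp (contDiff_const.mul contDiff_id)
      have k1 : ContDiff ℝ ∞ fun t : ℝ => Real.cos (l * t) * ξ1 (zof P) -
        Real.sin (l * t) * ξ2 (zof P) := (hcs.mul contDiff_const).sub (hs.mul contDiff_const)
      have k2 : ContDiff ℝ ∞ fun t : ℝ => Real.sin (l * t) * ξ1 (zof P) +
        Real.cos (l * t) * ξ2 (zof P) := (hs.mul contDiff_const).add (hcs.mul contDiff_const)
      simp only [zrot, zz]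
      fin_cases i
      · exact ((k1.add contDiff_const).add (contDiff_const.mul k2)).div_const 10
      · exact (((contDiff_const.mul k1).add contDiff_const).sub (contDiff_const.mul k2)).div_const 10
      · exact (((contDiff_const.mul k1).sub contDiff_const).sub (contDiff_const.mul k2)).div_const 10
      · exact ((k1.neg.sub contDiff_const).add (contDiff_const.mul k2)).div_const 10
  · rw [hc]
    simp only []
    rw [zof_PT (hu t) (hz t), zrot, ξ3_zz]
    exact hP.2.1
  · rw [hc]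
    simp only []
    rw [zof_PT (hu t) (hz t), zrot, ξ1_zz, ξ2_zz, ← hP.2.2]
    have := Real.sin_sq_add_cos_sq (l * t)
    linear_combination (ξ1 (zof P) ^ 2 + ξ2 (zof P) ^ 2) * this
  · have hK : HasVel (fun t : ℝ => kof P + t • (A * kof P)) (A * kof P) 0 := by
      intro i j
      simp only [Matrix.add_apply, Matrix.smul_apply, smul_eq_mul]
      simpa using ((hasDerivAt_id (0 : ℝ)).mul_const ((A * kof P) i j)).const_add (kof P i j)
    have hZ : ∀ i, HasDerivAt (fun t : ℝ => zrot (l * t) (zof P) i) (l * J (zof P) i) 0 := by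
      have hs : HasDerivAt (fun t : ℝ => Real.sin (l * t)) l 0 := by
        simpa using (hlt 0).sin
      have hcs : HasDerivAt (fun t : ℝ => Real.cos (l * t)) 0 0 := by
        simpa using (hlt 0).cos
      have k1 : HasDerivAt (fun t : ℝ => Real.cos (l * t) * ξ1 (zof P) -
        Real.sin (l * t) * ξ2 (zof P)) (0 * ξ1 (zof P) - l * ξ2 (zof P)) 0 :=
        (hcs.mul_const _).sub (hs.mul_const _)
      have k2 : HasDerivAt (fun t : ℝ => Real.sin (l * t) * ξ1 (zof P) +
        Real.cos (l * t) * ξ2 (zof P)) (l * ξ1 (zof P) + 0 * ξ2 (zof P)) 0 :=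
        (hs.mul_const _).add (hcs.mul_const _)
      intro i
      simp only [zrot, zz, J]
      fin_cases i
      · refine (((k1.add_const (3 * ξ3 (zof P))).add (k2.const_mul s5)).div_const 10).congr_deriv ?_
        simp; ring
      · refine ((((k1.const_mul (-3)).add_const (ξ3 (zof P))).sub
          (k2.const_mul s5)).div_const 10).congr_deriv ?_
        simp; ring
      · refine ((((k1.const_mul 3).sub_const (ξ3 (zof P))).sub
          (k2.const_mul s5)).div_const 10).congr_deriv ?_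
        simp; ring
      · refine (((k1.neg.sub_const (3 * ξ3 (zof P))).add (k2.const_mul s5)).div_const 10).congr_deriv ?_
        simp; ring
    have h1 := (hasVel_PT hK hZ).vel
    have : vel c 0 = vel (fun t => PT (kof P + t • (A * kof P)) (zrot (l * t) (zof P))) 0 := rfl
    rw [this, h1]
    have e0 : kof P + (0 : ℝ) • (A * kof P) = kof P := by simp
    have e1 : zrot (l * 0) (zof P) = zof P := by
      simp only [mul_zero, zrot, Real.cos_zero, Real.sin_zero, one_mul,
        zero_mul, sub_zero, zero_add]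
      exact zz_ξ (Z0_zof P)
    rw [e0, e1]
    have e2 : A * kof P * dg (zof P) * (kof P)ᵀ = A * P := by
      conv_rhs => rw [chol hP.1, PT]
      noncomm_ring
    have e3 : kof P * dg (zof P) * (A * kof P)ᵀ = P * Aᵀ := by
      conv_rhs => rw [chol hP.1, PT]
      rw [Matrix.transpose_mul]; noncomm_ring
    rw [e2, e3]
    congr 1
    have : (fun i => l * J (zof P) i) = l • J (zof P) := by ext i; simp
    rw [this, Matrix.diagonal_smul, R]
    simp [Matrix.mul_smul, Matrix.smul_mul]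

end Pool.Agent.W538.HPol
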