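import Pool.Agent.W538.HPol.Fol

/-! Geodesics, transnormality and flat sections. -/

noncomputable section

namespace Pool.Agent.W538.HPol

open Matrix Set
open scoped ContDiff

lemma Sm.adjugate {c : ℝ → Mat} (h : Sm c) : Sm fun t => (c t).adjugate := by
  intro i j
  simp only [Matrix.adjugate_apply, Matrix.det_apply]
  refine ContDiff.sum fun σ _ => ?_
  refine ContDiff.const_smul _ ?_
  refine contDiff_prod fun l _ => ?_
  simp only [Matrix.updateRow_apply]
  by_cases hl : σ l = j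
  · simp only [hl, if_true]; exact contDiff_const
  · simp only [hl, if_false]; exact h _ _

lemma Sm.inv {c : ℝ → Mat} (h : SmoothIn PD c) : Sm fun t => (c t)⁻¹ := by
  have : (fun t => (c t)⁻¹) = fun t => (c t).adjugate := funext fun t => inv_eq_adj (h.2 t)
  rw [this]
  exact Sm.adjugate h.1

lemma geodesic_const {c : ℝ → Mat} (h : IsGeodesic c) :
    ∃ Y, ∀ t, vel c t = Y * c t := by
  have h1 := Sm.inv h.1
  have h2 : Sm (HPol.vel c) := Sm.vel h.1.1
  set Y : ℝ → Mat := fun t => vel c t * (c t)⁻¹ with hY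
  have hYs : Sm Y := h2.mul h1
  have hYc : ∀ t, Y t * c t = vel c t := fun t => by
    rw [hY]; simp only []
    rw [Matrix.mul_assoc, Matrix.nonsing_inv_mul _ (det_ne (h.1.2 t)), Matrix.mul_one]
  have hY0 : ∀ t, vel Y t = 0 := by
    intro t
    have a1 := (hYs.hasVel t).mul (Sm.hasVel h.1.1 t)
    have a2 : (fun s => Y s * c s) = vel c := funext hYc
    rw [a2] at a1
    have a3 := a1.vel
    rw [h.2 t] at a3
    have a4 : vel c t * (c t)⁻¹ * vel c t = Y t * vel c t := rfl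
    rw [a4] at a3
    have a5 : vel Y t * c t = 0 := by
      have := a3.symm
      rwa [add_eq_right] at this
    calc vel Y t = vel Y t * c t * (c t)⁻¹ := by
          rw [Matrix.mul_assoc, Matrix.mul_nonsing_inv _ (det_ne (h.1.2 t)), Matrix.mul_one]
      _ = 0 := by rw [a5, Matrix.zero_mul]
  refine ⟨Y 0, fun t => ?_⟩
  have : Y t = Y 0 := by
    ext i j
    refine is_const_of_deriv_eq_zero ((hYs i j).differentiable (by simp)) (fun s => ?_) t 0
    have := congrFun (congrFun (hY0 s) i) j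
    exact this
  rw [← this, hYc]

lemma met_low {P Y A : Mat} (hP : P ∈ PD) (hs : (Y * P)ᵀ = Y * P) :
    met P (Y * P) (A * P + P * Aᵀ) = 2 * (Y * A).trace := by
  have hu := det_ne hP
  have hPs : Pᵀ = P := by ext i j; exact symm_of hP.1 j i
  have h1 : P⁻¹ * P = 1 := Matrix.nonsing_inv_mul _ hu
  have h2 : P * P⁻¹ = 1 := Matrix.mul_nonsing_inv _ hu
  have h3 : P * Yᵀ = Y * P := by rw [← hs, Matrix.transpose_mul, hPs]
  have h4 : P⁻¹ * (Y * P) = Yᵀ := by rw [← h3, ← Matrix.mul_assoc, h1, Matrix.one_mul]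
  unfold met
  rw [Matrix.mul_add, Matrix.trace_add]
  have a1 : (P⁻¹ * (Y * P) * P⁻¹ * (A * P)).trace = (Y * A).trace := by
    have : P⁻¹ * (Y * P) * P⁻¹ * (A * P) = P⁻¹ * Y * (P * P⁻¹) * A * P := by noncomm_ring
    rw [this, h2, Matrix.mul_one, Matrix.trace_mul_comm]
    have : P * (P⁻¹ * Y * A) = (P * P⁻¹) * Y * A := by noncomm_ring
    rw [this, h2, Matrix.one_mul]
  have a2 : (P⁻¹ * (Y * P) * P⁻¹ * (P * Aᵀ)).trace = (Y * A).trace := by
    have : P⁻¹ * (Y * P) * P⁻¹ * (P * Aᵀ) = P⁻¹ * (Y * P) * (P⁻¹ * P) * Aᵀ := by noncomm_ring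
    rw [this, h1, Matrix.mul_one, h4, ← Matrix.transpose_mul, Matrix.trace_transpose,
      Matrix.trace_mul_comm]
  rw [a1, a2]; ring

lemma met_diag {P : Mat} (hP : P ∈ PD) (X : Mat) (j : Fin 4 → ℝ) :
    met P X (kof P * (dg (zof P) * diagonal j) * (kof P)ᵀ) =
      ∑ i, ((kof P)⁻¹ * X * ((kof P)⁻¹)ᵀ) i i * Real.exp (-zof P i) * j i := by
  have hk := uni_kof P
  have h0 : met P X (kof P * (dg (zof P) * diagonal j) * (kof P)ᵀ) =
      met (PT (kof P) (zof P)) X (kof P * (dg (zof P) * diagonal j) * (kof P)ᵀ) := by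
    rw [← chol hP]
  rw [h0, met_PT hk, inv_conj (det_uni_unit hk), met_dg]
  refine Finset.sum_congr rfl fun i _ => ?_
  rw [dg, Matrix.diagonal_mul_diagonal, Finset.sum_eq_single i]
  · simp only [Matrix.diagonal_apply_eq]
    have : Real.exp (-zof P i) * Real.exp (zof P i) = 1 := by rw [← Real.exp_add]; simp
    linear_combination (((kof P)⁻¹ * X * ((kof P)⁻¹)ᵀ) i i * Real.exp (-zof P i) * j i) * this
  · intro l _ hl
    rw [Matrix.diagonal_apply_ne _ hl]; ring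
  · simp

lemma met_smul_right (P X Y : Mat) (l : ℝ) : met P X (l • Y) = l * met P X Y := by
  simp [met, Matrix.mul_smul, Matrix.trace_smul]

lemma met_add_right (P X Y Z : Mat) : met P X (Y + Z) = met P X Y + met P X Z := by
  simp [met, Matrix.mul_add, Matrix.trace_add]

lemma trace_low_sl {Y A : Mat} (hY : Low Y) (hA : SL A) : (Y * A).trace = 0 := by
  have := (low_mul hY hA.1).2
  rw [Matrix.trace, Fin.sum_univ_four]
  simp only [Matrix.diag_apply, this, hA.2.1, hA.2.2.1, hA.2.2.2.1, hA.2.2.2.2]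
  ring

lemma mem_leaf {P : Mat} (hP : P ∈ PD) :
    P ∈ Leaf (ξ3 (zof P)) (ξ1 (zof P) ^ 2 + ξ2 (zof P) ^ 2) := ⟨hP, rfl, rfl⟩

/-- diagonal of a conjugate of a lower triangular matrix -/
lemma diag_conj_low {Y : Mat} (hY : Low Y) {k : Mat} (hk : Uni k) (i : Fin 4) :
    (k⁻¹ * Y * k) i i = Y i i := by
  obtain ⟨l1, l2⟩ := low_mul (uni_inv hk).1 hY
  obtain ⟨-, l4⟩ := low_mul l1 hk.1
  rw [l4, l2]
  have k1 : k i i = 1 := by fin_cases i <;> simp [hk.2.1, hk.2.2.1, hk.2.2.2.1, hk.2.2.2.2]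
  have k2 : k⁻¹ i i = 1 := by
    have := uni_inv hk
    fin_cases i <;> simp [this.2.1, this.2.2.1, this.2.2.2.1, this.2.2.2.2]
  rw [k1, k2]; ring

lemma coef_eq {P Y : Mat} (hP : P ∈ PD) (i : Fin 4) :
    ((kof P)⁻¹ * (Y * P) * ((kof P)⁻¹)ᵀ) i i * Real.exp (-zof P i) =
      ((kof P)⁻¹ * Y * kof P) i i := by
  have hk := uni_kof P
  have hu := det_uni_unit hk
  have h1 : (kof P)ᵀ * ((kof P)⁻¹)ᵀ = 1 := by
    rw [← Matrix.transpose_mul, Matrix.nonsing_inv_mul _ hu, Matrix.transpose_one]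
  have h2 : (kof P)⁻¹ * (Y * P) * ((kof P)⁻¹)ᵀ = ((kof P)⁻¹ * Y * kof P) * dg (zof P) := by
    have : (kof P)⁻¹ * (Y * P) * ((kof P)⁻¹)ᵀ =
      (kof P)⁻¹ * (Y * (PT (kof P) (zof P))) * ((kof P)⁻¹)ᵀ := by rw [← chol hP]
    rw [this, PT]
    calc (kof P)⁻¹ * (Y * (kof P * dg (zof P) * (kof P)ᵀ)) * ((kof P)⁻¹)ᵀ =
        ((kof P)⁻¹ * Y * kof P) * dg (zof P) * ((kof P)ᵀ * ((kof P)⁻¹)ᵀ) := by noncomm_ring
      _ = _ := by rw [h1, Matrix.mul_one]
  rw [h2, dg, Matrix.mul_diagonal, mul_assoc, ← Real.exp_add]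
  simp

lemma met_R {P Y : Mat} (hP : P ∈ PD) (hY : Low Y) (j : Fin 4 → ℝ) :
    met P (Y * P) (kof P * (dg (zof P) * diagonal j) * (kof P)ᵀ) = ∑ i, Y i i * j i := by
  rw [met_diag hP]
  refine Finset.sum_congr rfl fun i _ => ?_
  rw [coef_eq hP, diag_conj_low hY (uni_kof P)]

lemma transnormal {c : ℝ → Mat} (h : IsGeodesic c) (s : ℝ)
    (ho : ∀ L ∈ Fol, c s ∈ L → ∀ X ∈ Tan L (c s), met (c s) (vel c s) X = 0) (t : ℝ) :
    ∀ L ∈ Fol, c t ∈ L → ∀ X ∈ Tan L (c t), met (c t) (vel c t) X = 0 := by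
  obtain ⟨Y, hY⟩ := geodesic_const h
  have hsym : ∀ t, (Y * c t)ᵀ = Y * c t := fun t => by
    rw [← hY]; exact hasVel_symm h.1.2 (Sm.hasVel h.1.1 t)
  have hfol : ∀ P ∈ PD, Leaf (ξ3 (zof P)) (ξ1 (zof P) ^ 2 + ξ2 (zof P) ^ 2) ∈ Fol := fun P _ =>
    ⟨_, _, by positivity, rfl⟩
  have hps := h.1.2 s
  have ho' := ho _ (hfol _ hps) (mem_leaf hps)
  have hLow : Low Y := by
    have key : ∀ i j : Fin 4, SL (Matrix.single j i 1) → Y i j = 0 := by
      intro i j hA
      have h1 := mem_tan (mem_leaf hps) hA 0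
      rw [zero_smul, add_zero] at h1
      have h2 := ho' _ h1
      rw [hY, met_low hps (hsym s), Matrix.trace_mul_single] at h2
      simpa using h2
    have hSL : ∀ i j : Fin 4, i < j → SL (Matrix.single j i (1 : ℝ)) := by
      intro i j hij
      fin_cases i <;> fin_cases j <;> simp at hij <;> simp [SL, Low, Matrix.single]
    exact ⟨key _ _ (hSL _ _ (by decide)), key _ _ (hSL _ _ (by decide)),
      key _ _ (hSL _ _ (by decide)), key _ _ (hSL _ _ (by decide)),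
      key _ _ (hSL _ _ (by decide)), key _ _ (hSL _ _ (by decide))⟩
  set v : Fin 4 → ℝ := fun i => Y i i with hv
  have hder : ∀ t, ∀ i, HasDerivAt (fun t => zof (c t) i) (v i) t := by
    intro t i
    refine (deriv_zof h.1.2 (Sm.hasVel h.1.1 t) (uni_kof (c t)) (chol (h.1.2 t)) i).congr_deriv ?_
    rw [hY, coef_eq (h.1.2 t), diag_conj_low hLow (uni_kof _)]
  have hv0 : Z0 v := by
    have h6 := (((hder 0 0).add (hder 0 1)).add (hder 0 2)).add (hder 0 3)
    have h7 : HasDerivAt (fun _ : ℝ => (0 : ℝ)) 0 0 := hasDerivAt_const _ _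
    have e : ((((fun t => zof (c t) 0) + fun t => zof (c t) 1) + fun t => zof (c t) 2) +
      fun t => zof (c t) 3) = fun _ : ℝ => (0 : ℝ) := by
      ext s
      exact sum_zof (c s)
    rw [e] at h6
    exact h6.unique h7
  set g : ℝ → ℝ := fun t => (ξ2 v * ξ1 (zof (c t)) - ξ1 v * ξ2 (zof (c t))) / 5 with hg
  have hg0 : ∀ t, HasDerivAt g 0 t := by
    intro t
    obtain ⟨d1, d2, -⟩ := hasDeriv_ξ (hder t)
    refine (((d1.const_mul (ξ2 v)).sub (d2.const_mul (ξ1 v))).div_const 5).congr_deriv ?_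
    ring
  have hgs : g s = 0 := by
    have h1 := mem_tan (mem_leaf hps) sl_zero 1
    rw [Matrix.zero_mul, Matrix.transpose_zero, Matrix.mul_zero, add_zero, zero_add, one_smul] at h1
    have h2 := ho' _ h1
    rw [hY, R, met_R hps hLow, inner_J (w := v) hv0] at h2
    exact h2
  have hgt : g t = 0 := by
    rw [← hgs]
    exact is_const_of_deriv_eq_zero (fun s => (hg0 s).differentiableAt) (fun s => (hg0 s).deriv) t s
  rintro L ⟨a, r, -, rfl⟩ hL X hX
  obtain ⟨A, l, hA, rfl⟩ := tan_leaf hL hX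
  rw [hY, met_add_right, met_low (h.1.2 t) (hsym t), trace_low_sl hLow hA, met_smul_right, R,
    met_R (h.1.2 t) hLow, inner_J (w := v) hv0]
  have : (ξ2 v * ξ1 (zof (c t)) - ξ1 v * ξ2 (zof (c t))) / 5 = 0 := hgt
  rw [this]; ring

/-- lines in the flats are geodesics -/
lemma geodesic_PT {k : Mat} (hk : Uni k) {z : ℝ → Fin 4 → ℝ} {v : Fin 4 → ℝ}
    (hz : ∀ t, Z0 (z t)) (h : ∀ t i, HasDerivAt (fun t => z t i) (v i) t)
    (hs : ∀ i, ContDiff ℝ ∞ fun t => z t i) :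
    IsGeodesic (fun t => PT k (z t)) ∧
      ∀ t, vel (fun t => PT k (z t)) t = (k * diagonal v * k⁻¹) * PT k (z t) := by
  have hu := det_uni_unit hk
  have hv : ∀ t, vel (fun t => PT k (z t)) t = k * (dg (z t) * diagonal v) * kᵀ := by
    intro t
    have := (hasVel_PT (hasVel_const k t) (h t)).vel
    rw [this]
    simp
  have h0 : ∀ t, diagonal v * dg (z t) = dg (z t) * diagonal v := by
    intro t
    rw [dg, Matrix.diagonal_mul_diagonal, Matrix.diagonal_mul_diagonal]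
    congr 1
    ext i
    ring
  have h1 : ∀ t, (k * diagonal v * k⁻¹) * PT k (z t) = k * (dg (z t) * diagonal v) * kᵀ := by
    intro t
    rw [PT]
    calc k * diagonal v * k⁻¹ * (k * dg (z t) * kᵀ) =
        k * (diagonal v * (k⁻¹ * k) * dg (z t)) * kᵀ := by noncomm_ring
      _ = _ := by rw [Matrix.nonsing_inv_mul _ hu, Matrix.mul_one, h0]
  have hS : SmoothIn PD fun t => PT k (z t) :=
    ⟨sm_PT (sm_const k) hs, fun t => PT_mem hk (hz t)⟩
  refine ⟨⟨hS, fun t => ?_⟩, fun t => by rw [hv, h1]⟩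
  have e : vel (fun t => PT k (z t)) = fun t => (k * diagonal v * k⁻¹) * PT k (z t) := by
    funext t; rw [hv, h1]
  have h3 : vel (vel fun t => PT k (z t)) t =
      (k * diagonal v * k⁻¹) * vel (fun t => PT k (z t)) t := by
    conv_lhs => rw [e]
    exact ((Sm.hasVel hS.1 t).lmul _).vel
  rw [h3]
  have h4 : vel (fun t => PT k (z t)) t * (PT k (z t))⁻¹ = k * diagonal v * k⁻¹ := by
    rw [e, Matrix.mul_assoc, Matrix.mul_nonsing_inv _ (det_ne (PT_mem hk (hz t))), Matrix.mul_one]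
  rw [h4]

lemma diag_kdk {k : Mat} (hk : Uni k) (v : Fin 4 → ℝ) (i : Fin 4) :
    (k * diagonal v * k⁻¹) i i = v i := by
  obtain ⟨l1, l2⟩ := low_mul hk.1 (low_diag v)
  obtain ⟨-, l4⟩ := low_mul l1 (uni_inv hk).1
  rw [l4, l2]
  have k1 : k i i = 1 := by fin_cases i <;> simp [hk.2.1, hk.2.2.1, hk.2.2.2.1, hk.2.2.2.2]
  have k2 : k⁻¹ i i = 1 := by
    have := uni_inv hk
    fin_cases i <;> simp [this.2.1, this.2.2.1, this.2.2.2.1, this.2.2.2.2]
  rw [k1, k2]; simp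

/-- the flat sections -/
def sect (k : Mat) (u1 u2 x y : ℝ) : Mat := PT k (zz (s5 * x * u1) (s5 * x * u2) (s5 * y))

lemma zz_line (a b c a' b' c' t : ℝ) (i : Fin 4) :
    zz (a + t * a') (b + t * b') (c + t * c') i = zz a b c i + t * zz a' b' c' i := by
  fin_cases i <;> simp [zz] <;> ring

lemma isFlatSection_sect {k : Mat} (hk : Uni k) {u1 u2 : ℝ} (hu : u1 ^ 2 + u2 ^ 2 = 1) :
    IsFlatSection Fol (sect k u1 u2) := by
  have hline : ∀ x y a b, ∃ z : ℝ → Fin 4 → ℝ, ∃ v, (∀ t, Z0 (z t)) ∧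
      (∀ t i, HasDerivAt (fun t => z t i) (v i) t) ∧ (∀ i, ContDiff ℝ ∞ fun t => z t i) ∧
      (fun t => sect k u1 u2 (x + t * a) (y + t * b)) = (fun t => PT k (z t)) ∧
      v = zz (s5 * a * u1) (s5 * a * u2) (s5 * b) ∧
      z 0 = zz (s5 * x * u1) (s5 * x * u2) (s5 * y) := by
    intro x y a b
    have e : ∀ t i, zz (s5 * (x + t * a) * u1) (s5 * (x + t * a) * u2) (s5 * (y + t * b)) i =
        zz (s5 * x * u1) (s5 * x * u2) (s5 * y) i +
          t * zz (s5 * a * u1) (s5 * a * u2) (s5 * b) i := by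
      intro t i
      rw [← zz_line]
      ring_nf
    refine ⟨fun t => zz (s5 * (x + t * a) * u1) (s5 * (x + t * a) * u2) (s5 * (y + t * b)),
      zz (s5 * a * u1) (s5 * a * u2) (s5 * b), fun t => Z0_zz _ _ _, fun t i => ?_, fun i => ?_,
      rfl, rfl, ?_⟩
    · simp only [e]
      simpa using ((hasDerivAt_id t).mul_const
        (zz (s5 * a * u1) (s5 * a * u2) (s5 * b) i)).const_add
          (zz (s5 * x * u1) (s5 * x * u2) (s5 * y) i)
    · simp only [e]
      exact contDiff_const.add (contDiff_id.mul contDiff_const)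
    · simp
  have hs5 := s5_pos
  refine ⟨?_, ?_, ?_, ?_, ?_⟩
  · intro i j
    have : Sm fun x : ℝ × ℝ => sect k u1 u2 x.1 x.2 := by
      unfold sect
      apply sm_PT (sm_const k)
      intro i
      have k1 : ContDiff ℝ ∞ fun x : ℝ × ℝ => s5 * x.1 * u1 :=
        (contDiff_const.mul contDiff_fst).mul contDiff_const
      have k2 : ContDiff ℝ ∞ fun x : ℝ × ℝ => s5 * x.1 * u2 :=
        (contDiff_const.mul contDiff_fst).mul contDiff_const
      have k3 : ContDiff ℝ ∞ fun x : ℝ × ℝ => s5 * x.2 := contDiff_const.mul contDiff_snd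
      simp only [zz]
      fin_cases i
      · exact ((k1.add (contDiff_const.mul k3)).add (contDiff_const.mul k2)).div_const 10
      · exact (((contDiff_const.mul k1).add k3).sub (contDiff_const.mul k2)).div_const 10
      · exact (((contDiff_const.mul k1).sub k3).sub (contDiff_const.mul k2)).div_const 10
      · exact ((k1.neg.sub (contDiff_const.mul k3)).add (contDiff_const.mul k2)).div_const 10
    exact this i j
  · intro x y a b
    obtain ⟨z, v, z1, z2, z3, z4, z5, z6⟩ := hline x y a b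
    rw [z4, (geodesic_PT hk z1 z2 z3).2 0]
    have hP : PT k (z 0) ∈ PD := PT_mem hk (z1 0)
    have e0 : sect k u1 u2 x y = PT k (z 0) := by rw [z6]; rfl
    rw [e0]
    have hlow : Low (k * diagonal v * k⁻¹) := (low_mul (low_mul hk.1 (low_diag v)).1 (uni_inv hk).1).1
    have e1 : (k * diagonal v * k⁻¹) * PT k (z 0) =
        kof (PT k (z 0)) * (dg (zof (PT k (z 0))) * diagonal v) * (kof (PT k (z 0)))ᵀ := by
      rw [← (geodesic_PT hk z1 z2 z3).2 0, kof_PT hk (z1 0), zof_PT hk (z1 0)]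
      have := (hasVel_PT (hasVel_const k 0) (z2 0)).vel
      rw [this]
      simp
    have e2 := met_R hP hlow v
    rw [← e1] at e2
    rw [e2]
    have e3 : ∀ i, (k * diagonal v * k⁻¹) i i = v i := diag_kdk hk v
    simp only [e3]
    have hv0 : Z0 v := by rw [z5]; exact Z0_zz _ _ _
    rw [inner_ξ hv0 hv0, z5, ξ1_zz, ξ2_zz, ξ3_zz]
    have := s5_sq
    linear_combination (a ^ 2 * (u1 ^ 2 + u2 ^ 2) / 5 + b ^ 2 / 5) * this + a ^ 2 * hu
  · intro x y a b
    obtain ⟨z, v, z1, z2, z3, z4, z5, z6⟩ := hline x y a b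
    rw [z4]
    exact (geodesic_PT hk z1 z2 z3).1
  · rintro L ⟨a, r, hr, rfl⟩
    refine ⟨Real.sqrt r / s5, a / s5, ?_⟩
    have e1 : s5 * (Real.sqrt r / s5) = Real.sqrt r := by field_simp
    have e2 : s5 * (a / s5) = a := by field_simp
    rw [sect, e1, e2]
    refine ⟨PT_mem hk (Z0_zz _ _ _), ?_, ?_⟩
    · rw [zof_PT hk (Z0_zz _ _ _), ξ3_zz]
    · rw [zof_PT hk (Z0_zz _ _ _), ξ1_zz, ξ2_zz, mul_pow, mul_pow, Real.sq_sqrt hr, ← mul_add, hu,
        mul_one]
  · rintro x y a b L ⟨a', r, hr, rfl⟩ hL X hX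
    obtain ⟨z, v, z1, z2, z3, z4, z5, z6⟩ := hline x y a b
    obtain ⟨A, l, hA, rfl⟩ := tan_leaf hL hX
    have e0 : sect k u1 u2 x y = PT k (z 0) := by rw [z6]; rfl
    have hP : PT k (z 0) ∈ PD := PT_mem hk (z1 0)
    have hlow : Low (k * diagonal v * k⁻¹) := (low_mul (low_mul hk.1 (low_diag v)).1 (uni_inv hk).1).1
    have e1 := (geodesic_PT hk z1 z2 z3).2 0
    have hsym : ((k * diagonal v * k⁻¹) * PT k (z 0))ᵀ = (k * diagonal v * k⁻¹) * PT k (z 0) := by
      rw [← e1]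
      exact hasVel_symm (geodesic_PT hk z1 z2 z3).1.1.2
        (Sm.hasVel (geodesic_PT hk z1 z2 z3).1.1.1 0)
    have hv0 : Z0 v := by rw [z5]; exact Z0_zz _ _ _
    rw [z4, e1, e0, met_add_right, met_low hP hsym, trace_low_sl hlow hA, met_smul_right, R,
      met_R hP hlow]
    simp only [diag_kdk hk v]
    rw [inner_J hv0, zof_PT hk (z1 0), z5, z6, ξ1_zz, ξ2_zz, ξ1_zz, ξ2_zz]
    ring

end Pool.Agent.W538.HPol
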