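import Pool.Agent.W538.HPol.Rigid

/-! Nonexistence of certain isometries. -/

noncomputable section

namespace Pool.Agent.W538.HPol

open Matrix Set
open scoped ContDiff

/-- exchange of two coordinates -/
def sw (i : Fin 4) : Mat := Matrix.of fun a b =>
  if a = 0 then (if b = i then 1 else 0) else if a = i then (if b = 0 then 1 else 0) else
    if a = b then 1 else 0

lemma det_sw (i : Fin 4) : (sw i).det ^ 2 = 1 := by
  fin_cases i <;> rw [det_four] <;> simp [sw]

lemma sw_conj (i : Fin 4) (P : Mat) : (sw i * P * (sw i)ᵀ) 0 0 = P i i := by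
  simp [mul3_apply, sw]

lemma diag_le {P Q : Mat} (hP : P ∈ PD) (hQ : Q ∈ PD) (i : Fin 4) :
    Real.log (P i i) - Real.log (Q i i) ≤ rdist P Q := by
  have h1 := conj_mem (det_sw i) hP
  have h2 := conj_mem (det_sw i) hQ
  refine le_trans ?_ (rdist_conj_le (det_sw i) hP hQ)
  refine le_trans ?_ (dz_le_rdist h1 h2)
  have e1 : zof (sw i * P * (sw i)ᵀ) 0 = Real.log (P i i) := by
    simp only [zof, m1, Matrix.cons_val_zero, sw_conj]
  have e2 : zof (sw i * Q * (sw i)ᵀ) 0 = Real.log (Q i i) := by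
    simp only [zof, m1, Matrix.cons_val_zero, sw_conj]
  rw [← e1, ← e2, dz]
  apply Real.le_sqrt_of_sq_le
  exact Finset.single_le_sum (f := fun j => (zof (sw i * P * (sw i)ᵀ) j -
    zof (sw i * Q * (sw i)ᵀ) j) ^ 2) (fun j _ => sq_nonneg _) (Finset.mem_univ 0)

lemma collinear {a w : Fin 4 → ℝ} {t : ℝ} (ht : 0 ≤ t) (h1 : nz a = t * nz w)
    (h2 : dz a w ≤ |t - 1| * nz w) : a = fun i => t * w i := by
  have hS : ∀ u : Fin 4 → ℝ, nz u ^ 2 = ∑ i, u i ^ 2 := by
    intro u
    rw [nz, dz, Real.sq_sqrt (Finset.sum_nonneg fun i _ => sq_nonneg _)]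
    simp
  have hD : dz a w ^ 2 = ∑ i, (a i - w i) ^ 2 := by
    rw [dz, Real.sq_sqrt (Finset.sum_nonneg fun i _ => sq_nonneg _)]
  have h0 : 0 ≤ dz a w := Real.sqrt_nonneg _
  have h3 : dz a w ^ 2 ≤ (t - 1) ^ 2 * nz w ^ 2 := by
    have := mul_self_le_mul_self h0 h2
    calc dz a w ^ 2 = dz a w * dz a w := sq _
      _ ≤ _ := this
      _ = (|t - 1|) ^ 2 * nz w ^ 2 := by ring
      _ = _ := by rw [sq_abs]
  have h4 : nz a ^ 2 = t ^ 2 * nz w ^ 2 := by rw [h1]; ring
  rw [hS, hS] at h4
  rw [hD, hS] at h3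
  simp only [Fin.sum_univ_four] at h3 h4
  have h5 : ∑ i, (a i - t * w i) ^ 2 ≤ 0 := by
    simp only [Fin.sum_univ_four]
    nlinarith
  have h6 := (Finset.sum_eq_zero_iff_of_nonneg (s := Finset.univ)
    (f := fun i => (a i - t * w i) ^ 2) (fun i _ => sq_nonneg _)).1
    (le_antisymm h5 (Finset.sum_nonneg fun i _ => sq_nonneg _))
  ext i
  have := h6 i (Finset.mem_univ i)
  have := pow_eq_zero_iff (two_ne_zero) |>.1 this
  linarith

lemma nz_smul {t : ℝ} (ht : 0 ≤ t) (w : Fin 4 → ℝ) : nz (fun i => t * w i) = t * nz w := by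
  simp only [nz, dz, Pi.zero_apply, sub_zero, mul_pow, ← Finset.mul_sum]
  rw [Real.sqrt_mul (sq_nonneg t), Real.sqrt_sq ht]

lemma dz_smul {t : ℝ} (ht : 0 ≤ t) (v w : Fin 4 → ℝ) :
    dz (fun i => t * v i) (fun i => t * w i) = t * dz v w := by
  simp only [dz, ← mul_sub, mul_pow, ← Finset.mul_sum]
  rw [Real.sqrt_mul (sq_nonneg t), Real.sqrt_sq ht]

lemma dz_smul_self (t : ℝ) (v : Fin 4 → ℝ) : dz (fun i => t * v i) v = |t - 1| * nz v := by
  have : ∀ i, t * v i - v i = (t - 1) * v i := fun i => by ring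
  simp only [nz, dz, this, mul_pow, ← Finset.mul_sum, Pi.zero_apply, sub_zero]
  rw [Real.sqrt_mul (sq_nonneg _), Real.sqrt_sq_eq_abs]

lemma nz_eq_zero {v : Fin 4 → ℝ} (h : nz v = 0) : v = 0 := by
  have h1 := (Real.sqrt_eq_zero (Finset.sum_nonneg fun i _ => sq_nonneg _)).1 h
  have h6 := (Finset.sum_eq_zero_iff_of_nonneg (s := Finset.univ)
    (f := fun i => (v i - (0 : Fin 4 → ℝ) i) ^ 2) (fun i _ => sq_nonneg _)).1 h1
  ext i
  have := h6 i (Finset.mem_univ i)
  have := pow_eq_zero_iff (two_ne_zero) |>.1 this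
  simpa using this

lemma dz_eq_zero {v w : Fin 4 → ℝ} (h : dz v w = 0) : v = w := by
  have h1 := (Real.sqrt_eq_zero (Finset.sum_nonneg fun i _ => sq_nonneg _)).1 h
  have h6 := (Finset.sum_eq_zero_iff_of_nonneg (s := Finset.univ)
    (f := fun i => (v i - w i) ^ 2) (fun i _ => sq_nonneg _)).1 h1
  ext i
  have := h6 i (Finset.mem_univ i)
  have := pow_eq_zero_iff (two_ne_zero) |>.1 this
  linarith

lemma dz_comm (v w : Fin 4 → ℝ) : dz v w = dz w v := by
  unfold dz
  congr 1
  exact Finset.sum_congr rfl fun i _ => by ring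

/-- the matrix `1 + s E₁₀` -/
def nn (s : ℝ) : Mat := 1 + s • Matrix.single 1 0 1

lemma uni_nn (s : ℝ) : Uni (nn s) := by simp [Uni, Low, nn, Matrix.single]

lemma nn_mul (s t : ℝ) : nn s * nn t = nn (s + t) := by
  simp only [nn, Matrix.add_mul, Matrix.mul_add, Matrix.one_mul, Matrix.mul_one, Matrix.smul_mul,
    Matrix.mul_smul]
  rw [Matrix.single_mul_single_of_ne (h := by decide)]
  module

lemma nn_zero : nn 0 = 1 := by simp [nn]

lemma nn_inv (s : ℝ) : (nn s)⁻¹ = nn (-s) := by
  apply Matrix.inv_eq_right_inv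
  rw [nn_mul, add_neg_cancel, nn_zero]

/-- contraction of the unipotent direction -/
lemma contraction {z : Fin 4 → ℝ} (hz : z 0 + z 1 + z 2 + z 3 = 0) :
    rdist (PT (nn 1) z) (dg z) ≤ Real.sqrt (2 * Real.exp (z 0 - z 1)) := by
  set c : ℝ → Mat := fun s => PT (nn (1 - s)) z with hc
  have hsm : Sm fun s : ℝ => nn (1 - s) := by
    intro i j
    simp only [nn, Matrix.add_apply, Matrix.smul_apply, smul_eq_mul]
    exact contDiff_const.add ((contDiff_const.sub contDiff_id).mul contDiff_const)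
  have hcS : SmoothIn PD c := ⟨sm_PT hsm fun i => contDiff_const, fun t => PT_mem (uni_nn _) hz⟩
  have h1 := rdist_le hcS
  have e0 : c 0 = PT (nn 1) z := by rw [hc]; simp
  have e1 : c 1 = dg z := by rw [hc]; simp [nn_zero, PT_one]
  rw [e0, e1] at h1
  refine h1.trans (le_of_eq ?_)
  have hm : ∀ t, met (c t) (vel c t) (vel c t) = 2 * Real.exp (z 0 - z 1) := by
    intro t
    have hv : HasVel (fun s : ℝ => nn (1 - s)) (-Matrix.single 1 0 1) t := by
      intro i j
      have := (((hasDerivAt_id t).const_sub 1).mul_const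
        ((Matrix.single 1 0 1 : Mat) i j)).const_add ((1 : Mat) i j)
      simp only [nn, Matrix.add_apply, Matrix.smul_apply, smul_eq_mul, Matrix.neg_apply]
      refine this.congr_deriv ?_
      simp
    have hv2 := hasVel_PT hv (z := fun _ => z) (v := 0) (fun i => hasDerivAt_const t (z i))
    have hv3 := hv2.vel
    rw [hc, hv3]
    simp only []
    rw [met_PT (uni_nn _)]
    set E : Mat := Matrix.single 1 0 1 with hE
    have hk : (nn (1 - t))⁻¹ * E = E := by
      rw [nn_inv, nn, hE, Matrix.add_mul, Matrix.smul_mul,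
        Matrix.single_mul_single_of_ne (h := by decide)]
      simp
    have hk2 : (nn (1 - t))⁻¹ * nn (1 - t) = 1 := Matrix.nonsing_inv_mul _ (det_uni_unit (uni_nn _))
    have hk3 : (nn (1 - t))ᵀ * ((nn (1 - t))⁻¹)ᵀ = 1 := by
      rw [← Matrix.transpose_mul, hk2, Matrix.transpose_one]
    have hk4 : Eᵀ * ((nn (1 - t))⁻¹)ᵀ = Eᵀ := by
      rw [← Matrix.transpose_mul, hk]
    have hX : (nn (1 - t))⁻¹ * (-E * dg z * (nn (1 - t))ᵀ + nn (1 - t) * dg z * (-E)ᵀ +
        nn (1 - t) * (dg z * diagonal 0) * (nn (1 - t))ᵀ) * ((nn (1 - t))⁻¹)ᵀ =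
        -(E * dg z + dg z * Eᵀ) := by
      have : (nn (1 - t))⁻¹ * (-E * dg z * (nn (1 - t))ᵀ + nn (1 - t) * dg z * (-E)ᵀ +
        nn (1 - t) * (dg z * diagonal 0) * (nn (1 - t))ᵀ) * ((nn (1 - t))⁻¹)ᵀ =
        -(((nn (1 - t))⁻¹ * E) * dg z * ((nn (1 - t))ᵀ * ((nn (1 - t))⁻¹)ᵀ) +
          ((nn (1 - t))⁻¹ * nn (1 - t)) * dg z * (Eᵀ * ((nn (1 - t))⁻¹)ᵀ)) := by
        simp only [Matrix.transpose_neg]
        have : (diagonal (0 : Fin 4 → ℝ) : Mat) = 0 := Matrix.diagonal_zero
        rw [this]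
        noncomm_ring
      rw [this, hk, hk2, hk3, hk4]
      simp
    rw [hX, met_dg]
    have hent : ∀ i j, (-(E * dg z + dg z * Eᵀ)) i j =
        if (i = 1 ∧ j = 0) ∨ (i = 0 ∧ j = 1) then -Real.exp (z 0) else 0 := by
      intro i j
      simp only [Matrix.neg_apply, Matrix.add_apply, dg, Matrix.mul_diagonal, Matrix.diagonal_mul,
        Matrix.transpose_apply, hE, Matrix.single]
      fin_cases i <;> fin_cases j <;> simp
    simp only [hent, Fin.sum_univ_four]
    simp
    have a0 : Real.exp (-z 0) * Real.exp (z 0) = 1 := by rw [← Real.exp_add]; simp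
    have a1 : Real.exp (z 0 - z 1) = Real.exp (z 0) * Real.exp (-z 1) := by
      rw [← Real.exp_add]; congr 1
    rw [a1]
    linear_combination (2 * Real.exp (z 0) * Real.exp (-z 1)) * a0
  unfold len
  simp only [hm]
  simp

lemma tendsto_bound {δ : ℝ} (hδ : δ < 0) :
    Filter.Tendsto (fun t : ℝ => Real.sqrt (2 * Real.exp (t * δ))) Filter.atTop (nhds 0) := by
  have h1 : Filter.Tendsto (fun t : ℝ => t * δ) Filter.atTop Filter.atBot :=
    Filter.Tendsto.atTop_mul_const_of_neg hδ Filter.tendsto_id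
  have h2 := Real.tendsto_exp_atBot.comp h1
  have h3 := (h2.const_mul 2).sqrt
  simpa using h3

lemma le_zero_of_bound {δ x : ℝ} (hδ : δ < 0)
    (h : ∀ t : ℝ, 1 ≤ t → x ≤ Real.sqrt (2 * Real.exp (t * δ))) : x ≤ 0 := by
  refine ge_of_tendsto (tendsto_bound hδ) ?_
  filter_upwards [Filter.eventually_ge_atTop 1] with t ht
  exact h t ht

/-- there is no isometry of the symmetric space that preserves the norm of the coordinates and
maps `dg v` to `dg w` -/
lemma no_isometry (h : Mat → Mat) (hm : ∀ P ∈ PD, h P ∈ PD)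
    (iso : ∀ P ∈ PD, ∀ Q ∈ PD, rdist (h P) (h Q) = rdist P Q)
    (hn : ∀ P ∈ PD, nz (zof (h P)) = nz (zof P)) {v w : Fin 4 → ℝ}
    (hv : v 0 + v 1 + v 2 + v 3 = 0) (hw : w 0 + w 1 + w 2 + w 3 = 0) (h01 : w 1 < w 0)
    (h12 : w 2 < w 1) (h23 : w 3 < w 2) (hv01 : v 0 < v 1) (hvw : h (dg v) = dg w) : False := by
  have tz : ∀ {u : Fin 4 → ℝ}, u 0 + u 1 + u 2 + u 3 = 0 → ∀ t : ℝ,
      (fun i => t * u i) 0 + (fun i => t * u i) 1 + (fun i => t * u i) 2 +
        (fun i => t * u i) 3 = 0 := by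
    intro u hu t
    simp only []
    linear_combination t * hu
  have dgm : ∀ {u : Fin 4 → ℝ}, u 0 + u 1 + u 2 + u 3 = 0 → dg u ∈ PD := by
    intro u hu
    rw [← PT_one]; exact PT_mem uni_one hu
  have zdg : ∀ {u : Fin 4 → ℝ}, u 0 + u 1 + u 2 + u 3 = 0 → zof (dg u) = u := by
    intro u hu
    rw [← PT_one]; exact zof_PT uni_one hu
  have rdg : ∀ {u u' : Fin 4 → ℝ}, u 0 + u 1 + u 2 + u 3 = 0 → u' 0 + u' 1 + u' 2 + u' 3 = 0 →
      rdist (dg u) (dg u') = dz u u' := by
    intro u u' hu hu'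
    rw [← PT_one, ← PT_one]; exact rdist_PT uni_one hu hu'
  have h0 : (0 : Fin 4 → ℝ) 0 + (0 : Fin 4 → ℝ) 1 + (0 : Fin 4 → ℝ) 2 + (0 : Fin 4 → ℝ) 3 = 0 := by
    simp
  have hvwn : nz w = nz v := by
    have := hn (dg v) (dgm hv)
    rwa [hvw, zdg hv, zdg hw] at this
  -- points of the orbit of the base point
  have base : ∀ k, Uni k → h (PT k 0) = PT (kof (h (PT k 0))) 0 := by
    intro k hk
    have hmem := hm _ (PT_mem hk h0)
    have h1 := chol hmem
    have h2 := hn _ (PT_mem hk h0)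
    rw [zof_PT hk h0] at h2
    have h3 : nz 0 = 0 := by simp [nz, dz]
    rw [h3] at h2
    rw [nz_eq_zero h2] at h1
    exact h1
  -- base point
  have hb : h 1 = 1 := by
    have h1 := base 1 uni_one
    rw [PT_one, dg_zero] at h1
    set k := kof (h 1) with hk
    have huk : Uni k := uni_kof _
    have h2 := iso (dg v) (dgm hv) 1 one_mem
    rw [hvw, h1] at h2
    have h3 : rdist (dg v) 1 = nz w := by
      rw [← dg_zero, rdg hv h0, hvwn]; rfl
    rw [h3, PT_zero] at h2
    have := rigid huk hw h2.le h01 h12 h23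
    rw [h1, this, PT_one, dg_zero]
  -- the ray through `dg v`
  have ray : ∀ t : ℝ, 0 < t → h (dg fun i => t * v i) = dg fun i => t * w i := by
    intro t ht
    set P := dg fun i => t * v i with hP
    have hPm : P ∈ PD := dgm (u := fun i => t * v i) (tz hv t)
    have a1 : nz (zof (h P)) = t * nz w := by
      rw [hn P hPm, hP, zdg (tz hv t), nz_smul ht.le, hvwn]
    have a2 : dz (zof (h P)) w ≤ |t - 1| * nz w := by
      have := dz_le_rdist (hm P hPm) (hm _ (dgm hv))
      rw [iso P hPm _ (dgm hv), hP, rdg (tz hv t) hv, dz_smul_self, ← hP, hvw, zdg hw] at this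
      rwa [hvwn]
    have a3 := collinear ht.le a1 a2
    have a4 := chol (hm P hPm)
    rw [a3] at a4
    set k := kof (h P) with hk
    have huk : Uni k := uni_kof _
    have a5 := iso P hPm 1 one_mem
    rw [hb, a4] at a5
    have a6 : rdist P 1 = nz fun i => t * w i := by
      rw [hP, ← dg_zero, rdg (tz hv t) h0, nz_smul ht.le, hvwn, ← nz_smul ht.le]; rfl
    rw [a6] at a5
    have a7 := rdist_conj (det_uni_inv_sq huk) (PT_mem (z := fun i => t * w i) huk (tz hw t)) one_mem
    rw [a5, PT, inv_conj (det_uni_unit huk), Matrix.mul_one] at a7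
    have a8 := rigid (uni_inv huk) (tz hw t) a7.le (by nlinarith) (by nlinarith) (by nlinarith)
    have a9 : k = 1 := by
      have := Matrix.mul_nonsing_inv _ (det_uni_unit huk)
      rw [a8, Matrix.mul_one] at this
      exact this
    rw [a4, a9, PT_one]
  -- the ray of the other point
  set n : Mat := nn 1 with hn1
  have hun : Uni n := uni_nn 1
  set n' : Mat := kof (h (PT n 0)) with hn'
  have hun' : Uni n' := uni_kof _
  have hbn : h (PT n 0) = PT n' 0 := base n hun
  set w' : Fin 4 → ℝ := zof (h (PT n v)) with hw'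
  have hw'n : nz w' = nz w := by
    rw [hw', hn _ (PT_mem hun hv), zof_PT hun hv, hvwn]
  have ray1 : ∀ t : ℝ, 0 < t → zof (h (PT n fun i => t * v i)) = fun i => t * w' i := by
    intro t ht
    have hPm : PT n (fun i => t * v i) ∈ PD := PT_mem (z := fun i => t * v i) hun (tz hv t)
    have a1 : nz (zof (h (PT n fun i => t * v i))) = t * nz w' := by
      rw [hn _ hPm, zof_PT hun (tz hv t), nz_smul ht.le, hw'n, hvwn]
    have a2 : dz (zof (h (PT n fun i => t * v i))) w' ≤ |t - 1| * nz w' := by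
      have := dz_le_rdist (hm _ hPm) (hm _ (PT_mem hun hv))
      rw [iso _ hPm _ (PT_mem hun hv), rdist_PT hun (tz hv t) hv, dz_smul_self, ← hw'] at this
      rwa [hw'n, hvwn]
    exact collinear ht.le a1 a2
  have hδ : v 0 - v 1 < 0 := by linarith
  have contr : ∀ t : ℝ, rdist (PT n fun i => t * v i) (dg fun i => t * v i) ≤
      Real.sqrt (2 * Real.exp (t * (v 0 - v 1))) := by
    intro t
    have := contraction (z := fun i => t * v i) (tz hv t)
    simp only [← mul_sub] at this
    exact this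
  have hww : w' = w := by
    apply dz_eq_zero
    apply le_antisymm _ (Real.sqrt_nonneg _)
    refine le_zero_of_bound hδ fun t ht => ?_
    have ht0 : 0 < t := by linarith
    refine le_trans ?_ (contr t)
    have a1 := dz_le_rdist (hm _ (PT_mem (z := fun i => t * v i) hun (tz hv t))) (hm _ (dgm (u := fun i => t * v i) (tz hv t)))
    rw [iso _ (PT_mem (z := fun i => t * v i) hun (tz hv t)) _ (dgm (u := fun i => t * v i) (tz hv t)), ray1 t ht0, ray t ht0, zdg (tz hw t),
      dz_smul ht0.le] at a1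
    have a2 : 0 ≤ dz w' w := Real.sqrt_nonneg _
    refine le_trans ?_ a1
    exact le_mul_of_one_le_left a2 ht
  have ray2 : ∀ t : ℝ, 0 < t → h (PT n fun i => t * v i) = PT n' fun i => t * w i := by
    intro t ht
    have hPm : PT n (fun i => t * v i) ∈ PD := PT_mem (z := fun i => t * v i) hun (tz hv t)
    have a4 := chol (hm _ hPm)
    rw [ray1 t ht, hww] at a4
    set k := kof (h (PT n fun i => t * v i)) with hk
    have huk : Uni k := uni_kof _
    have a5 := iso _ hPm _ (PT_mem hun h0)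
    rw [hbn, a4] at a5
    have a6 : rdist (PT n fun i => t * v i) (PT n 0) = nz fun i => t * w i := by
      rw [rdist_PT hun (tz hv t) h0, nz_smul ht.le, hvwn, ← nz_smul ht.le]; rfl
    rw [a6] at a5
    have a7 := rdist_conj (det_uni_inv_sq huk) (PT_mem (z := fun i => t * w i) huk (tz hw t)) (PT_mem hun' h0)
    have a8 : k⁻¹ * PT n' 0 * (k⁻¹)ᵀ = (k⁻¹ * n') * (k⁻¹ * n')ᵀ := by
      rw [PT_zero, Matrix.transpose_mul]; noncomm_ring
    rw [a5, a8, PT, inv_conj (det_uni_unit huk)] at a7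
    have a9 := rigid (uni_mul (uni_inv huk) hun') (tz hw t) a7.le (by nlinarith) (by nlinarith)
      (by nlinarith)
    have a10 : k = n' := by
      have : k * (k⁻¹ * n') = n' := by
        rw [← Matrix.mul_assoc, Matrix.mul_nonsing_inv _ (det_uni_unit huk), Matrix.one_mul]
      rw [a9, Matrix.mul_one] at this
      exact this
    rw [a4, a10]
  -- the unipotent part vanishes
  have van : ∀ i j, j < i → n' i j = 0 := by
    intro i j hij
    have hwij : w i < w j := by
      fin_cases i <;> fin_cases j <;> simp at hij ⊢ <;> linarith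
    have hle : Real.log (1 + n' i j ^ 2) ≤ 0 := by
      refine le_zero_of_bound hδ fun t ht => ?_
      have ht0 : 0 < t := by linarith
      refine le_trans ?_ (contr t)
      have a1 := diag_le (hm _ (PT_mem (z := fun i => t * v i) hun (tz hv t))) (hm _ (dgm (u := fun i => t * v i) (tz hv t))) i
      rw [iso _ (PT_mem (z := fun i => t * v i) hun (tz hv t)) _ (dgm (u := fun i => t * v i) (tz hv t)), ray2 t ht0, ray t ht0] at a1
      refine le_trans ?_ a1
      have e1 : (PT n' fun i => t * w i) i i = ∑ l, n' i l ^ 2 * Real.exp (t * w l) := by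
        simp only [PT, mul3_apply, Fin.sum_univ_four, dg, Matrix.diagonal_apply,
          Matrix.transpose_apply]
        simp
        ring
      have e2 : (dg fun i => t * w i) i i = Real.exp (t * w i) := by
        simp [dg]
      have hii : n' i i = 1 := by
        fin_cases i <;> simp [hun'.2.1, hun'.2.2.1, hun'.2.2.2.1, hun'.2.2.2.2]
      have e3 : (1 + n' i j ^ 2) * Real.exp (t * w i) ≤
          ∑ l, n' i l ^ 2 * Real.exp (t * w l) := by
        have hsub : ({i, j} : Finset (Fin 4)) ⊆ Finset.univ := Finset.subset_univ _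
        refine le_trans ?_ (Finset.sum_le_sum_of_subset_of_nonneg hsub
          fun l _ _ => by positivity)
        rw [Finset.sum_pair hij.ne', hii]
        have : Real.exp (t * w i) ≤ Real.exp (t * w j) := by
          apply Real.exp_le_exp.2; nlinarith
        nlinarith [sq_nonneg (n' i j)]
      rw [e1, e2]
      have e4 : 0 < (1 + n' i j ^ 2) * Real.exp (t * w i) := by positivity
      have e5 := Real.log_le_log e4 e3
      rw [Real.log_mul (by positivity) (by positivity)] at e5
      linarith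
    have h1 : 1 + n' i j ^ 2 ≤ 1 := by
      have := (Real.log_nonpos_iff (by positivity)).1 hle
      exact this
    have : n' i j ^ 2 = 0 := le_antisymm (by linarith) (sq_nonneg _)
    exact pow_eq_zero_iff (two_ne_zero) |>.1 this
  have hn'1 : n' = 1 := by
    obtain ⟨⟨b1, b2, b3, b4, b5, b6⟩, b7, b8, b9, b10⟩ := hun'
    have c1 := van 1 0 (by decide)
    have c2 := van 2 0 (by decide)
    have c3 := van 3 0 (by decide)
    have c4 := van 2 1 (by decide)
    have c5 := van 3 1 (by decide)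
    have c6 := van 3 2 (by decide)
    ext i j
    fin_cases i <;> fin_cases j <;> simp [b1, b2, b3, b4, b5, b6, b7, b8, b9, b10, c1, c2, c3, c4,
      c5, c6]
  have f1 := iso _ (PT_mem hun h0) 1 one_mem
  rw [hbn, hn'1, hb, PT_one, dg_zero] at f1
  have f2 : rdist (1 : Mat) 1 = 0 := by
    rw [← dg_zero, rdg h0 h0]; simp [dz]
  rw [f2] at f1
  have f3 := diag_le (PT_mem hun h0) one_mem 1
  rw [← f1] at f3
  have f4 : PT n 0 1 1 = 2 := by
    rw [PT_zero, hn1, nn]
    simp [Matrix.mul_apply, Fin.sum_univ_four, Matrix.single]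
    norm_num
  rw [f4] at f3
  simp at f3
  have := Real.log_pos (show (1 : ℝ) < 2 by norm_num)
  linarith

end Pool.Agent.W538.HPol
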