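import Pool.Agent.W538.HPol.Geo

/-! Second derivatives along geodesics, Laplacians. -/

noncomputable section

namespace Pool.Agent.W538.HPol

open Matrix Set
open scoped ContDiff

/-- normalised velocity -/
def Wn (P X : Mat) : Mat := Matrix.of fun i j =>
  Real.exp (-zof P i / 2) * ((kof P)⁻¹ * X * ((kof P)⁻¹)ᵀ) i j * Real.exp (-zof P j / 2)

lemma Wn_symm {P X : Mat} (hX : Xᵀ = X) (i j : Fin 4) : Wn P X i j = Wn P X j i := by
  have hYs : ((kof P)⁻¹ * X * ((kof P)⁻¹)ᵀ)ᵀ = (kof P)⁻¹ * X * ((kof P)⁻¹)ᵀ := by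
    rw [Matrix.transpose_mul, Matrix.transpose_mul, hX, Matrix.transpose_transpose,
      Matrix.mul_assoc]
  have := congrFun (congrFun hYs j) i
  rw [Matrix.transpose_apply] at this
  simp only [Wn, Matrix.of_apply]
  rw [this]; ring

lemma met_Wn {P : Mat} (hP : P ∈ PD) (X Y : Mat) :
    met P X Y = ∑ i, ∑ j, Wn P X i j * Wn P Y j i := by
  have hk := uni_kof P
  have h0 : met P X Y = met (PT (kof P) (zof P)) X Y := by rw [← chol hP]
  rw [h0, met_PT hk, met_dg]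
  refine Finset.sum_congr rfl fun i _ => Finset.sum_congr rfl fun j _ => ?_
  simp only [Wn, Matrix.of_apply]
  have e1 : ∀ x : ℝ, Real.exp (-x) = Real.exp (-x / 2) * Real.exp (-x / 2) := fun x => by
    rw [← Real.exp_add]; congr 1; ring
  rw [e1 (zof P i), e1 (zof P j)]
  ring

/-- first and second derivatives of the coordinates along a geodesic -/
lemma second_deriv {c : ℝ → Mat} (h : IsGeodesic c) (t : ℝ) :
    (∀ i, HasDerivAt (fun t => zof (c t) i) (Wn (c t) (vel c t) i i) t) ∧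
    (∀ i, HasDerivAt (fun t => Wn (c t) (vel c t) i i)
      (∑ j, if i < j then Wn (c t) (vel c t) i j ^ 2 else if j < i then
        -Wn (c t) (vel c t) i j ^ 2 else 0) t) := by
  obtain ⟨Y, hY⟩ := geodesic_const h
  have hW : ∀ t i j, Wn (c t) (vel c t) i j = Real.exp (-zof (c t) i / 2) *
      ((kof (c t))⁻¹ * Y * kof (c t)) i j * Real.exp (zof (c t) j / 2) := by
    intro t i j
    have hk := uni_kof (c t)
    have hu := det_uni_unit hk
    have h1 : (kof (c t))ᵀ * ((kof (c t))⁻¹)ᵀ = 1 := by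
      rw [← Matrix.transpose_mul, Matrix.nonsing_inv_mul _ hu, Matrix.transpose_one]
    have h2 : (kof (c t))⁻¹ * vel c t * ((kof (c t))⁻¹)ᵀ =
        ((kof (c t))⁻¹ * Y * kof (c t)) * dg (zof (c t)) := by
      have : (kof (c t))⁻¹ * (Y * c t) * ((kof (c t))⁻¹)ᵀ =
        (kof (c t))⁻¹ * (Y * (PT (kof (c t)) (zof (c t)))) * ((kof (c t))⁻¹)ᵀ := by
        rw [← chol (h.1.2 t)]
      rw [hY, this, PT]
      calc (kof (c t))⁻¹ * (Y * (kof (c t) * dg (zof (c t)) * (kof (c t))ᵀ)) * ((kof (c t))⁻¹)ᵀ =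
          ((kof (c t))⁻¹ * Y * kof (c t)) * dg (zof (c t)) *
            ((kof (c t))ᵀ * ((kof (c t))⁻¹)ᵀ) := by noncomm_ring
        _ = _ := by rw [h1, Matrix.mul_one]
    simp only [Wn, Matrix.of_apply]
    rw [h2, dg, Matrix.mul_diagonal]
    have : Real.exp (zof (c t) j) * Real.exp (-zof (c t) j / 2) = Real.exp (zof (c t) j / 2) := by
      rw [← Real.exp_add]; congr 1; ring
    rw [← this]; ring
  have hWd : ∀ t i, Wn (c t) (vel c t) i i = ((kof (c t))⁻¹ * Y * kof (c t)) i i := by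
    intro t i
    rw [hW]
    have : Real.exp (-zof (c t) i / 2) * Real.exp (zof (c t) i / 2) = 1 := by
      rw [← Real.exp_add]
      have : -zof (c t) i / 2 + zof (c t) i / 2 = 0 := by ring
      rw [this, Real.exp_zero]
    linear_combination ((kof (c t))⁻¹ * Y * kof (c t)) i i * this
  have hd1 : ∀ t i, HasDerivAt (fun t => zof (c t) i) (Wn (c t) (vel c t) i i) t := by
    intro t i
    have := deriv_zof h.1.2 (Sm.hasVel h.1.1 t) (uni_kof (c t)) (chol (h.1.2 t)) i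
    rw [hY, coef_eq (h.1.2 t)] at this
    rw [hWd]; exact this
  refine ⟨hd1 t, fun i => ?_⟩
  have hks := sm_kof_curve h.1.1 h.1.2
  set K := vel (fun t => kof (c t)) t with hK
  have h3 : HasVel (fun t => kof (c t)) K t := hks.hasVel t
  have hKs : SL K := sl_of_vel (fun t => uni_kof (c t)) h3
  have hui := fun t => det_uni_unit (uni_kof (c t))
  have hinv : Sm fun t => (kof (c t))⁻¹ := by
    have : (fun t => (kof (c t))⁻¹) = fun t => (kof (c t)).adjugate := by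
      funext t
      rw [Matrix.inv_def, det_uni (uni_kof _)]; simp
    rw [this]
    exact Sm.adjugate hks
  set K' := vel (fun t => (kof (c t))⁻¹) t with hK'
  have h4 : HasVel (fun t => (kof (c t))⁻¹) K' t := hinv.hasVel t
  have h5 : K' = -((kof (c t))⁻¹ * K * (kof (c t))⁻¹) := by
    have a1 := h4.mul h3
    have a2 : (fun t => (kof (c t))⁻¹ * kof (c t)) = fun _ => (1 : Mat) := by
      funext t
      exact Matrix.nonsing_inv_mul _ (hui t)
    rw [a2] at a1
    have a3 := a1.unique (hasVel_const 1 t)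
    calc K' = (K' * kof (c t)) * (kof (c t))⁻¹ := by
          rw [Matrix.mul_assoc, Matrix.mul_nonsing_inv _ (hui t), Matrix.mul_one]
      _ = -((kof (c t))⁻¹ * K) * (kof (c t))⁻¹ := by rw [eq_neg_of_add_eq_zero_left a3]
      _ = _ := by noncomm_ring
  have h6 := (h4.rmul Y).mul h3
  set B := (kof (c t))⁻¹ * Y * kof (c t) with hB
  set N := (kof (c t))⁻¹ * K with hN
  have h7 : K' * Y * kof (c t) + (kof (c t))⁻¹ * Y * K = B * N - N * B := by
    rw [h5, hB, hN]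
    have e : (kof (c t))⁻¹ * Y * K = (kof (c t))⁻¹ * Y * (kof (c t) * (kof (c t))⁻¹) * K := by
      rw [Matrix.mul_nonsing_inv _ (hui t), Matrix.mul_one]
    rw [e]; noncomm_ring
  rw [h7] at h6
  have h8 := h6 i i
  have h9 : (fun t => Wn (c t) (vel c t) i i) =
      fun s => ((kof (c s))⁻¹ * Y * kof (c s)) i i := funext fun s => hWd s i
  rw [h9]
  refine h8.congr_deriv ?_
  -- the strictly lower parts of B and N agree
  have hN1 : Low N ∧ ∀ i, N i i = 0 := by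
    obtain ⟨l1, l2⟩ := low_mul (uni_inv (uni_kof (c t))).1 hKs.1
    refine ⟨l1, fun i => ?_⟩
    rw [hN, l2]
    fin_cases i
    · simp [hKs.2.1]
    · simp [hKs.2.2.1]
    · simp [hKs.2.2.2.1]
    · simp [hKs.2.2.2.2]
  have hNz : ∀ a b : Fin 4, a ≤ b → N a b = 0 := by
    obtain ⟨⟨a1, a2, a3, a4, a5, a6⟩, hd⟩ := hN1
    intro a b hab
    fin_cases a <;> fin_cases b <;> simp at hab <;> simp [a1, a2, a3, a4, a5, a6, hd]
  have hBN : ∀ a b : Fin 4, b < a → B a b = N a b := by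
    intro a b hab
    have g1 := hasVel_PT h3 (hd1 t)
    have g2 : (fun t => PT (kof (c t)) (zof (c t))) = c := funext fun t => (chol (h.1.2 t)).symm
    rw [g2] at g1
    have g3 := (Sm.hasVel h.1.1 t).unique g1
    have hT : (kof (c t))ᵀ * ((kof (c t))⁻¹)ᵀ = 1 := by
      rw [← Matrix.transpose_mul, Matrix.nonsing_inv_mul _ (hui t), Matrix.transpose_one]
    have hI := Matrix.nonsing_inv_mul _ (hui t)
    have g4 : (kof (c t))⁻¹ * vel c t * ((kof (c t))⁻¹)ᵀ = N * dg (zof (c t)) +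
        dg (zof (c t)) * Nᵀ + dg (zof (c t)) * diagonal fun i => Wn (c t) (vel c t) i i := by
      have : (kof (c t))⁻¹ * vel c t * ((kof (c t))⁻¹)ᵀ = (kof (c t))⁻¹ *
          (K * dg (zof (c t)) * (kof (c t))ᵀ + kof (c t) * dg (zof (c t)) * Kᵀ +
          kof (c t) * (dg (zof (c t)) * diagonal fun i => Wn (c t) (vel c t) i i) *
            (kof (c t))ᵀ) * ((kof (c t))⁻¹)ᵀ := by
        rw [← g3]
      rw [this, hN, Matrix.transpose_mul]
      calc _ = (kof (c t))⁻¹ * K * dg (zof (c t)) * ((kof (c t))ᵀ * ((kof (c t))⁻¹)ᵀ) +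
            ((kof (c t))⁻¹ * kof (c t)) * dg (zof (c t)) * Kᵀ * ((kof (c t))⁻¹)ᵀ +
            ((kof (c t))⁻¹ * kof (c t)) * (dg (zof (c t)) *
              diagonal fun i => Wn (c t) (vel c t) i i) *
            ((kof (c t))ᵀ * ((kof (c t))⁻¹)ᵀ) := by noncomm_ring
        _ = _ := by rw [hT, hI]; noncomm_ring
    have g5 : (kof (c t))⁻¹ * vel c t * ((kof (c t))⁻¹)ᵀ = B * dg (zof (c t)) := by
      have : (kof (c t))⁻¹ * (Y * c t) * ((kof (c t))⁻¹)ᵀ =
        (kof (c t))⁻¹ * (Y * (PT (kof (c t)) (zof (c t)))) * ((kof (c t))⁻¹)ᵀ := by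
        rw [← chol (h.1.2 t)]
      rw [hY, this, PT]
      calc (kof (c t))⁻¹ * (Y * (kof (c t) * dg (zof (c t)) * (kof (c t))ᵀ)) * ((kof (c t))⁻¹)ᵀ =
          B * dg (zof (c t)) *
            ((kof (c t))ᵀ * ((kof (c t))⁻¹)ᵀ) := by rw [hB]; noncomm_ring
        _ = _ := by rw [hT, Matrix.mul_one]
    rw [g5] at g4
    have g6 := congrFun (congrFun g4 a) b
    simp only [dg, Matrix.mul_diagonal, Matrix.diagonal_mul, Matrix.add_apply,
      Matrix.transpose_apply, Matrix.diagonal_mul_diagonal, Matrix.diagonal_apply_ne _ hab.ne',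
      hNz b a hab.le, mul_zero, add_zero] at g6
    exact mul_right_cancel₀ (Real.exp_ne_zero _) g6
  have hBB : ∀ a b, B a b * B b a = Wn (c t) (vel c t) a b ^ 2 := by
    intro a b
    have s := Wn_symm (P := c t) (hasVel_symm h.1.2 (Sm.hasVel h.1.1 t)) a b
    have e1 := hW t a b
    have e2 := hW t b a
    rw [← hB] at e1 e2
    have : Wn (c t) (vel c t) a b ^ 2 = Wn (c t) (vel c t) a b * Wn (c t) (vel c t) b a := by
      rw [← s]; ring
    rw [this, e1, e2]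
    have f1 : ∀ x : ℝ, Real.exp (-x / 2) * Real.exp (x / 2) = 1 := fun x => by
      rw [← Real.exp_add]
      have : -x / 2 + x / 2 = 0 := by ring
      rw [this, Real.exp_zero]
    have f2 := f1 (zof (c t) a)
    have f3 := f1 (zof (c t) b)
    linear_combination (-(B a b * B b a)) * (Real.exp (-zof (c t) a / 2) *
      Real.exp (zof (c t) a / 2)) * f3 - B a b * B b a * f2
  rw [Matrix.sub_apply, Matrix.mul_apply, Matrix.mul_apply, ← Finset.sum_sub_distrib]
  refine Finset.sum_congr rfl fun j _ => ?_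
  rcases lt_trichotomy i j with hij | hij | hij
  · rw [if_pos hij, hNz i j hij.le, ← hBN j i hij, hBB]; ring
  · rw [hij]; simp [hNz j j le_rfl]
  · rw [if_neg (not_lt.2 hij.le), if_pos hij, hNz j i hij.le, ← hBN i j hij, hBB]; ring

/-- coordinates of normalised tangent vectors -/
def crd (W : Mat) : Fin 9 → ℝ :=
  ![Real.sqrt 2 * W 0 1, Real.sqrt 2 * W 0 2, Real.sqrt 2 * W 0 3, Real.sqrt 2 * W 1 2,
    Real.sqrt 2 * W 1 3, Real.sqrt 2 * W 2 3, ξ1 (fun i => W i i) / s5, ξ2 (fun i => W i i) / s5,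
    ξ3 (fun i => W i i) / s5]

lemma sum_nine (f : Fin 9 → ℝ) : ∑ i, f i = f 0 + f 1 + f 2 + f 3 + f 4 + f 5 + f 6 + f 7 + f 8 := by
  simp only [Fin.sum_univ_succ, Fin.sum_univ_zero]
  simp [Fin.succ]
  ring

lemma crd_inner {V W : Mat} (hV : ∀ i j, V i j = V j i) (hW : ∀ i j, W i j = W j i)
    (zV : Z0 fun i => V i i) (zW : Z0 fun i => W i i) :
    ∑ a, crd V a * crd W a = ∑ i, ∑ j, V i j * W j i := by
  have h2 : Real.sqrt 2 * Real.sqrt 2 = 2 := Real.mul_self_sqrt (by norm_num)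
  have h5 := s5_sq
  have h5' := s5_pos.ne'
  have hin := inner_ξ zV zW
  rw [Fin.sum_univ_four] at hin
  have e7 : ∀ a b : ℝ, a / s5 * (b / s5) = a * b / 5 := fun a b => by
    rw [div_mul_div_comm, h5]
  rw [sum_nine]
  simp only [crd, Matrix.cons_val_zero, Matrix.cons_val_one, Matrix.cons_val, e7,
    Fin.sum_univ_four]
  rw [hW 1 0, hW 2 0, hW 3 0, hW 2 1, hW 3 1, hW 3 2, hV 1 0, hV 2 0, hV 3 0, hV 2 1, hV 3 1,
    hV 3 2]
  linear_combination (V 0 1 * W 0 1 + V 0 2 * W 0 2 + V 0 3 * W 0 3 + V 1 2 * W 1 2 +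
    V 1 3 * W 1 3 + V 2 3 * W 2 3) * h2 - hin

lemma frame_parseval {P : Mat} {γ : Fin 9 → ℝ → Mat} (h : IsFrame P γ) (p q : Fin 9) :
    ∑ a, crd (Wn P (vel (γ a) 0)) p * crd (Wn P (vel (γ a) 0)) q = if p = q then 1 else 0 := by
  obtain ⟨h1, h2⟩ := h
  have hP : P ∈ PD := by rw [← (h1 0).2]; exact (h1 0).1.1.2 0
  set M : Matrix (Fin 9) (Fin 9) ℝ := Matrix.of fun a p => crd (Wn P (vel (γ a) 0)) p with hM
  have hsym : ∀ a i j, Wn P (vel (γ a) 0) i j = Wn P (vel (γ a) 0) j i := fun a i j =>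
    Wn_symm (hasVel_symm (h1 a).1.1.2 (Sm.hasVel (h1 a).1.1.1 0)) i j
  have hz : ∀ a, Z0 fun i => Wn P (vel (γ a) 0) i i := by
    intro a
    obtain ⟨d, -⟩ := second_deriv (h1 a).1 0
    rw [(h1 a).2] at d
    have h6 := (((d 0).add (d 1)).add (d 2)).add (d 3)
    have h7 : HasDerivAt (fun _ : ℝ => (0 : ℝ)) 0 0 := hasDerivAt_const _ _
    have e : ((((fun t => zof (γ a t) 0) + fun t => zof (γ a t) 1) + fun t => zof (γ a t) 2) +
      fun t => zof (γ a t) 3) = fun _ : ℝ => (0 : ℝ) := by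
      ext s
      exact sum_zof (γ a s)
    rw [e] at h6
    exact h6.unique h7
  have hMM : M * Mᵀ = 1 := by
    ext a b
    rw [Matrix.mul_apply]
    simp only [Matrix.transpose_apply, hM, Matrix.of_apply]
    rw [crd_inner (hsym a) (hsym b) (hz a) (hz b), ← met_Wn hP, h2, Matrix.one_apply]
  have hMM' : Mᵀ * M = 1 := mul_eq_one_comm.1 hMM
  have := congrFun (congrFun hMM' p) q
  rw [Matrix.mul_apply, Matrix.one_apply] at this
  rw [← this]
  rfl

lemma frame_sums {P : Mat} {γ : Fin 9 → ℝ → Mat} (h : IsFrame P γ) :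
    (∀ i j, i ≠ j → ∑ a, Wn P (vel (γ a) 0) i j ^ 2 = 1 / 2) ∧
    ∑ a, ξ1 (fun i => Wn P (vel (γ a) 0) i i) ^ 2 = 5 ∧
    ∑ a, ξ2 (fun i => Wn P (vel (γ a) 0) i i) ^ 2 = 5 ∧
    ∑ a, ξ3 (fun i => Wn P (vel (γ a) 0) i i) ^ 2 = 5 ∧
    ∑ a, ξ1 (fun i => Wn P (vel (γ a) 0) i i) * ξ2 (fun i => Wn P (vel (γ a) 0) i i) = 0 ∧
    ∑ a, ξ1 (fun i => Wn P (vel (γ a) 0) i i) * ξ3 (fun i => Wn P (vel (γ a) 0) i i) = 0 ∧
    ∑ a, ξ2 (fun i => Wn P (vel (γ a) 0) i i) * ξ3 (fun i => Wn P (vel (γ a) 0) i i) = 0 := by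
  have key := frame_parseval h
  have hsym : ∀ a i j, Wn P (vel (γ a) 0) i j = Wn P (vel (γ a) 0) j i := fun a i j =>
    Wn_symm (hasVel_symm (h.1 a).1.1.2 (Sm.hasVel (h.1 a).1.1.1 0)) i j
  have h2 : Real.sqrt 2 * Real.sqrt 2 = 2 := Real.mul_self_sqrt (by norm_num)
  have h5 := s5_sq
  have off : ∀ (f : Fin 9 → ℝ), ∑ a, (Real.sqrt 2 * f a) * (Real.sqrt 2 * f a) = 1 →
      ∑ a, f a ^ 2 = 1 / 2 := by
    intro f hf
    have : ∑ a, (Real.sqrt 2 * f a) * (Real.sqrt 2 * f a) = 2 * ∑ a, f a ^ 2 := by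
      rw [Finset.mul_sum]
      refine Finset.sum_congr rfl fun a _ => ?_
      linear_combination (f a ^ 2) * h2
    linarith
  have dia : ∀ (f g : Fin 9 → ℝ) (x : ℝ), ∑ a, (f a / s5) * (g a / s5) = x →
      ∑ a, f a * g a = 5 * x := by
    intro f g x hf
    have : ∑ a, (f a / s5) * (g a / s5) = (∑ a, f a * g a) / 5 := by
      rw [Finset.sum_div]
      refine Finset.sum_congr rfl fun a _ => ?_
      rw [div_mul_div_comm, h5]
    rw [this] at hf
    linarith
  have h01 := off _ (key 0 0)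
  have h02 := off _ (key 1 1)
  have h03 := off _ (key 2 2)
  have h12 := off _ (key 3 3)
  have h13 := off _ (key 4 4)
  have h23 := off _ (key 5 5)
  refine ⟨?_, ?_, ?_, ?_, ?_, ?_, ?_⟩
  · have hs : ∀ i j, ∑ a, Wn P (vel (γ a) 0) i j ^ 2 = 1 / 2 →
        ∑ a, Wn P (vel (γ a) 0) j i ^ 2 = 1 / 2 := by
      intro i j hij
      rw [← hij]
      exact Finset.sum_congr rfl fun a _ => by rw [hsym a i j]
    intro i j hij
    fin_cases i <;> fin_cases j <;> simp at hij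
    · exact h01
    · exact h02
    · exact h03
    · exact hs _ _ h01
    · exact h12
    · exact h13
    · exact hs _ _ h02
    · exact hs _ _ h12
    · exact h23
    · exact hs _ _ h03
    · exact hs _ _ h13
    · exact hs _ _ h23
  · have := dia _ _ _ (key 6 6)
    simp only [sq]
    rw [this]; simp
  · have := dia _ _ _ (key 7 7)
    simp only [sq]
    rw [this]; simp
  · have := dia _ _ _ (key 8 8)
    simp only [sq]
    rw [this]; simp
  · have := dia _ _ _ (key 6 7)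
    rw [this]; simp
  · have := dia _ _ _ (key 6 8)
    rw [this]; simp
  · have := dia _ _ _ (key 7 8)
    rw [this]; simp

/-- the sums of the second derivatives of the coordinates -/
lemma frame_second {P : Mat} {γ : Fin 9 → ℝ → Mat} (h : IsFrame P γ) (s : Fin 4 → Fin 9 → ℝ)
    (hs : ∀ i a, s i a = ∑ j, if i < j then Wn P (vel (γ a) 0) i j ^ 2 else if j < i then
        -Wn P (vel (γ a) 0) i j ^ 2 else 0) :
    (∑ a, s 0 a = 3 / 2) ∧ (∑ a, s 1 a = 1 / 2) ∧ (∑ a, s 2 a = -1 / 2) ∧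
      (∑ a, s 3 a = -3 / 2) := by
  have h1 := (frame_sums h).1
  have e : ∀ i, ∑ a, s i a = ∑ j, if i < j then (1 : ℝ) / 2 else if j < i then -1 / 2 else 0 := by
    intro i
    simp only [hs]
    rw [Finset.sum_comm]
    refine Finset.sum_congr rfl fun j _ => ?_
    by_cases h3 : i < j
    · simp only [h3, if_true]
      exact h1 i j h3.ne
    · by_cases h4 : j < i
      · simp only [h3, h4, if_true, if_false]
        rw [Finset.sum_neg_distrib, h1 i j h4.ne']
        norm_num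
      · simp only [h3, h4, if_false]
        simp
  refine ⟨?_, ?_, ?_, ?_⟩ <;> rw [e, Fin.sum_univ_four] <;> simp <;> norm_num

theorem isoparametric_fol : IsIsoparametric Fol := by
  refine ⟨U0, fun Q => ξ3 (zof Q), fun Q => ξ1 (zof Q) ^ 2 + ξ2 (zof Q) ^ 2, fun _ _ => 5,
    fun _ _ => 0, fun _ y => 20 * y, fun _ _ => 5, fun _ _ => 20, isOpen_U0, PD_sub_U0, sm_ξ3, ?_,
    ?_, ?_⟩
  · have := (sm_ξ1.mul sm_ξ1).add (sm_ξ2.mul sm_ξ2)
    simp only [sq]
    exact this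
  · intro P _
    exact ⟨_, _, by positivity, rfl⟩
  · intro P hP γ hγ
    obtain ⟨p0, p1, p2, p3, p12, p13, p23⟩ := frame_sums hγ
    -- first derivatives
    set d : Fin 9 → Fin 4 → ℝ := fun a i => Wn P (vel (γ a) 0) i i with hd
    have D : ∀ a t, HasDerivAt (fun t => ξ1 (zof (γ a t)))
        (ξ1 fun i => Wn (γ a t) (vel (γ a) t) i i) t ∧
        HasDerivAt (fun t => ξ2 (zof (γ a t))) (ξ2 fun i => Wn (γ a t) (vel (γ a) t) i i) t ∧
        HasDerivAt (fun t => ξ3 (zof (γ a t))) (ξ3 fun i => Wn (γ a t) (vel (γ a) t) i i) t :=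
      fun a t => hasDeriv_ξ (second_deriv (hγ.1 a).1 t).1
    have D2 : ∀ a t, HasDerivAt (fun t => ξ1 (zof (γ a t)) ^ 2 + ξ2 (zof (γ a t)) ^ 2)
        (2 * ξ1 (zof (γ a t)) * (ξ1 fun i => Wn (γ a t) (vel (γ a) t) i i) +
          2 * ξ2 (zof (γ a t)) * (ξ2 fun i => Wn (γ a t) (vel (γ a) t) i i)) t := by
      intro a t
      have := ((D a t).1.pow 2).add ((D a t).2.1.pow 2)
      refine this.congr_deriv ?_
      simp
    have e0 : ∀ a, γ a 0 = P := fun a => (hγ.1 a).2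
    have c3 : ∀ a, deriv (fun t => ξ3 (zof (γ a t))) 0 = ξ3 (d a) := fun a => by
      rw [(D a 0).2.2.deriv, e0]
    have c12 : ∀ a, deriv (fun t => ξ1 (zof (γ a t)) ^ 2 + ξ2 (zof (γ a t)) ^ 2) 0 =
        2 * ξ1 (zof P) * ξ1 (d a) + 2 * ξ2 (zof P) * ξ2 (d a) := fun a => by
      rw [(D2 a 0).deriv, e0]
    -- second derivatives
    set s : Fin 4 → Fin 9 → ℝ := fun i a => ∑ j, if i < j then Wn P (vel (γ a) 0) i j ^ 2 else
      if j < i then -Wn P (vel (γ a) 0) i j ^ 2 else 0 with hs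
    obtain ⟨s0, s1, s2, s3⟩ := frame_second hγ s fun i a => rfl
    have S : ∀ a, HasDerivAt (fun t => ξ1 fun i => Wn (γ a t) (vel (γ a) t) i i)
        (ξ1 fun i => s i a) 0 ∧ HasDerivAt (fun t => ξ2 fun i => Wn (γ a t) (vel (γ a) t) i i)
        (ξ2 fun i => s i a) 0 ∧ HasDerivAt (fun t => ξ3 fun i => Wn (γ a t) (vel (γ a) t) i i)
        (ξ3 fun i => s i a) 0 := by
      intro a
      have := (second_deriv (hγ.1 a).1 0).2
      rw [e0] at this
      exact hasDeriv_ξ this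
    have f3 : ∀ a, deriv (deriv fun t => ξ3 (zof (γ a t))) 0 = ξ3 fun i => s i a := by
      intro a
      have : deriv (fun t => ξ3 (zof (γ a t))) =
        fun t => ξ3 fun i => Wn (γ a t) (vel (γ a) t) i i := funext fun t => (D a t).2.2.deriv
      rw [this]
      exact (S a).2.2.deriv
    have f12 : ∀ a, deriv (deriv fun t => ξ1 (zof (γ a t)) ^ 2 + ξ2 (zof (γ a t)) ^ 2) 0 =
        2 * ξ1 (d a) * ξ1 (d a) + 2 * ξ1 (zof P) * (ξ1 fun i => s i a) +
        (2 * ξ2 (d a) * ξ2 (d a) + 2 * ξ2 (zof P) * (ξ2 fun i => s i a)) := by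
      intro a
      have : deriv (fun t => ξ1 (zof (γ a t)) ^ 2 + ξ2 (zof (γ a t)) ^ 2) =
        fun t => 2 * ξ1 (zof (γ a t)) * (ξ1 fun i => Wn (γ a t) (vel (γ a) t) i i) +
          2 * ξ2 (zof (γ a t)) * (ξ2 fun i => Wn (γ a t) (vel (γ a) t) i i) :=
        funext fun t => (D2 a t).deriv
      rw [this]
      have := ((((D a 0).1.const_mul 2).mul (S a).1).add (((D a 0).2.1.const_mul 2).mul (S a).2.1))
      rw [e0] at this
      exact this.deriv
    simp only [c3, c12, f3, f12]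
    have t3 : ∑ a, (ξ3 fun i => s i a) = 5 := by
      have : ∑ a, (ξ3 fun i => s i a) =
          (3 * ∑ a, s 0 a + ∑ a, s 1 a - ∑ a, s 2 a - 3 * ∑ a, s 3 a) / 2 := by
        simp only [ξ3]
        rw [← Finset.sum_div, Finset.sum_sub_distrib, Finset.sum_sub_distrib,
          Finset.sum_add_distrib, Finset.mul_sum, Finset.mul_sum]
      rw [this, s0, s1, s2, s3]; norm_num
    have t1 : ∑ a, (ξ1 fun i => s i a) = 0 := by
      have : ∑ a, (ξ1 fun i => s i a) =
          (∑ a, s 0 a - 3 * ∑ a, s 1 a + 3 * ∑ a, s 2 a - ∑ a, s 3 a) / 2 := by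
        simp only [ξ1]
        rw [← Finset.sum_div, Finset.sum_sub_distrib, Finset.sum_add_distrib,
          Finset.sum_sub_distrib, Finset.mul_sum, Finset.mul_sum]
      rw [this, s0, s1, s2, s3]; norm_num
    have t2 : ∑ a, (ξ2 fun i => s i a) = 0 := by
      have : ∑ a, (ξ2 fun i => s i a) =
          s5 * (∑ a, s 0 a - ∑ a, s 1 a - ∑ a, s 2 a + ∑ a, s 3 a) / 2 := by
        simp only [ξ2]
        rw [← Finset.sum_div, ← Finset.mul_sum, Finset.sum_add_distrib, Finset.sum_sub_distrib,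
          Finset.sum_sub_distrib]
      rw [this, s0, s1, s2, s3]; norm_num
    refine ⟨p3, ?_, ?_, t3, ?_⟩
    · have : ∀ a, ξ3 (d a) * (2 * ξ1 (zof P) * ξ1 (d a) + 2 * ξ2 (zof P) * ξ2 (d a)) =
        2 * ξ1 (zof P) * (ξ1 (d a) * ξ3 (d a)) + 2 * ξ2 (zof P) * (ξ2 (d a) * ξ3 (d a)) :=
        fun a => by ring
      simp only [this]
      rw [Finset.sum_add_distrib, ← Finset.mul_sum, ← Finset.mul_sum, p13, p23]
      ring
    · have : ∀ a, (2 * ξ1 (zof P) * ξ1 (d a) + 2 * ξ2 (zof P) * ξ2 (d a)) ^ 2 =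
        4 * ξ1 (zof P) ^ 2 * ξ1 (d a) ^ 2 + 4 * ξ2 (zof P) ^ 2 * ξ2 (d a) ^ 2 +
          8 * ξ1 (zof P) * ξ2 (zof P) * (ξ1 (d a) * ξ2 (d a)) := fun a => by ring
      simp only [this]
      rw [Finset.sum_add_distrib, Finset.sum_add_distrib, ← Finset.mul_sum, ← Finset.mul_sum,
        ← Finset.mul_sum, p12, p1, p2]
      ring
    · have : ∀ a, 2 * ξ1 (d a) * ξ1 (d a) + 2 * ξ1 (zof P) * (ξ1 fun i => s i a) +
        (2 * ξ2 (d a) * ξ2 (d a) + 2 * ξ2 (zof P) * (ξ2 fun i => s i a)) =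
        2 * ξ1 (d a) ^ 2 + 2 * ξ2 (d a) ^ 2 + 2 * ξ1 (zof P) * (ξ1 fun i => s i a) +
          2 * ξ2 (zof P) * (ξ2 fun i => s i a) := fun a => by ring
      simp only [this]
      rw [Finset.sum_add_distrib, Finset.sum_add_distrib, Finset.sum_add_distrib,
        ← Finset.mul_sum, ← Finset.mul_sum, ← Finset.mul_sum, ← Finset.mul_sum, p1, p2, t1, t2]
      ring

end Pool.Agent.W538.HPol
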