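import Pool.Agent.W538.HPol.Chart
import Pool.Agent.W538.HPol.Inhom
import Pool.Agent.W538.HPol.Iso

/-! Assembly. -/

noncomputable section

namespace Pool.Agent.W538.HPol

open Matrix Set
open scoped ContDiff

lemma leaf_mem_fol {P : Mat} :
    Leaf (ξ3 (zof P)) (ξ1 (zof P) ^ 2 + ξ2 (zof P) ^ 2) ∈ Fol := ⟨_, _, by positivity, rfl⟩

theorem isSRF_fol : IsSRF Fol where
  subset := by rintro L ⟨a, r, -, rfl⟩; exact leaf_sub a r
  partition := by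
    intro P hP
    refine ⟨_, ⟨leaf_mem_fol, mem_leaf hP⟩, ?_⟩
    rintro L ⟨⟨a, r, -, rfl⟩, hPL⟩
    rw [← hPL.2.1, ← hPL.2.2]
  connected := by rintro L ⟨a, r, hr, rfl⟩; exact connected_leaf a hr
  closed := by rintro L ⟨a, r, -, rfl⟩; exact closed_leaf a r
  submanifold := by
    rintro L ⟨a, r, hr, rfl⟩
    rcases eq_or_lt_of_le hr with h | h
    · exact ⟨6, by rw [← h]; exact submfd_zero a⟩
    · exact ⟨7, submfd_pos a h⟩
  fields := by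
    rintro L ⟨a, r, hr, rfl⟩ P hP X hX
    obtain ⟨A, l, hA, rfl⟩ := tan_leaf hP hX
    refine ⟨U0, fun Q => A * Q + Q * Aᵀ + l • R Q, isOpen_U0, PD_sub_U0, ?_, ?_, rfl⟩
    · exact ((((smM_const A U0).mul (smM_id U0)).add ((smM_id U0).mul (smM_const Aᵀ U0))).add
        (sm_R.smul l))
    · rintro L' ⟨a', r', -, rfl⟩ Q hQ
      exact mem_tan hQ hA l
  transnormal := fun c hc s ho t => transnormal hc s ho t

theorem codimTwo_fol : HasCodimTwo Fol := by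
  refine ⟨submfd_PD, ⟨Leaf 0 1, ⟨0, 1, zero_le_one, rfl⟩, submfd_pos 0 one_pos⟩, ?_⟩
  rintro L ⟨a, r, hr, rfl⟩
  rcases eq_or_lt_of_le hr with h | h
  · exact ⟨6, by norm_num, by rw [← h]; exact submfd_zero a⟩
  · exact ⟨7, le_refl _, submfd_pos a h⟩

theorem hyperpolar_fol : IsHyperpolar Fol := by
  intro P hP
  obtain ⟨θ, h1, h2⟩ := exists_angle (ξ1 (zof P)) (ξ2 (zof P))
  have hs5 := s5_pos
  set ρ := Real.sqrt (ξ1 (zof P) ^ 2 + ξ2 (zof P) ^ 2) with hρ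
  refine ⟨sect (kof P) (Real.cos θ) (Real.sin θ),
    isFlatSection_sect (uni_kof P) (Real.cos_sq_add_sin_sq θ), ρ / s5, ξ3 (zof P) / s5, ?_⟩
  have e1 : s5 * (ρ / s5) = ρ := by field_simp
  have e2 : s5 * (ξ3 (zof P) / s5) = ξ3 (zof P) := by field_simp
  rw [sect, e1, e2, ← h1, ← h2, zz_ξ (Z0_zof P)]
  exact (chol hP).symm

theorem not_homogeneous_fol : ¬ IsHomogeneous Fol := by
  rintro ⟨H, hiso, horb⟩
  -- the members of `H` preserve the leaves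
  have hleaf : ∀ h ∈ H, ∀ P : PD, ξ3 (zof (h P)) = ξ3 (zof P) ∧
      ξ1 (zof (h P)) ^ 2 + ξ2 (zof (h P)) ^ 2 = ξ1 (zof P) ^ 2 + ξ2 (zof P) ^ 2 := by
    intro h hh P
    obtain ⟨P', hP'⟩ := (horb _).1 (leaf_mem_fol (P := (P : Mat)))
    have h1 := mem_leaf P.2
    rw [hP'] at h1
    obtain ⟨h', hh', e⟩ := h1
    have e' : P = h' P' := Subtype.ext e
    have h2 : ((h P : PD) : Mat) ∈ Leaf (ξ3 (zof P)) (ξ1 (zof P) ^ 2 + ξ2 (zof P) ^ 2) := by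
      rw [hP']
      exact ⟨h * h', H.mul_mem hh hh', by rw [e']; rfl⟩
    exact h2.2
  set v : Fin 4 → ℝ := ![31 / 10, 37 / 10, -17 / 10, -51 / 10] with hv
  set w : Fin 4 → ℝ := ![39 / 10, 33 / 10, -33 / 10, -39 / 10] with hw
  have v0 : Z0 v := by simp [Z0, hv]; norm_num
  have w0 : Z0 w := by simp [Z0, hw]; norm_num
  have hPv : dg v ∈ PD := by rw [← PT_one]; exact PT_mem uni_one v0
  have hPw : dg w ∈ PD := by rw [← PT_one]; exact PT_mem uni_one w0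
  have zv : zof (dg v) = v := by rw [← PT_one]; exact zof_PT uni_one v0
  have zw : zof (dg w) = w := by rw [← PT_one]; exact zof_PT uni_one w0
  have ev : ξ3 v = 15 ∧ ξ1 v ^ 2 + ξ2 v ^ 2 = 36 := by
    constructor
    · simp [ξ3, hv]; norm_num
    · have h1 : ξ1 v = -4 := by simp [ξ1, hv]; norm_num
      have h2 : ξ2 v = -2 * s5 := by simp [ξ2, hv]; ring
      rw [h1, h2]
      linear_combination 4 * s5_sq
  have ew : ξ3 w = 15 ∧ ξ1 w ^ 2 + ξ2 w ^ 2 = 36 := by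
    constructor
    · simp [ξ3, hw]; norm_num
    · have h1 : ξ1 w = -6 := by simp [ξ1, hw]; norm_num
      have h2 : ξ2 w = 0 := by simp [ξ2, hw]; norm_num
      rw [h1, h2]
      norm_num
  have hLv : dg v ∈ Leaf 15 36 := ⟨hPv, by rw [zv]; exact ev.1, by rw [zv]; exact ev.2⟩
  have hLw : dg w ∈ Leaf 15 36 := ⟨hPw, by rw [zw]; exact ew.1, by rw [zw]; exact ew.2⟩
  obtain ⟨P0, hP0⟩ := (horb (Leaf 15 36)).1 ⟨15, 36, by norm_num, rfl⟩
  have hLv' := hLv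
  have hLw' := hLw
  rw [hP0] at hLv' hLw'
  obtain ⟨g1, hg1, e1⟩ := hLv'
  obtain ⟨g2, hg2, e2⟩ := hLw'
  set h : Equiv.Perm PD := g2 * g1⁻¹ with hh
  have hhH : h ∈ H := H.mul_mem hg2 (H.inv_mem hg1)
  have hvw : h ⟨dg v, hPv⟩ = ⟨dg w, hPw⟩ := by
    have a1 : (⟨dg v, hPv⟩ : PD) = g1 P0 := Subtype.ext e1
    have a2 : (⟨dg w, hPw⟩ : PD) = g2 P0 := Subtype.ext e2
    rw [a1, a2, hh]
    simp
  classical
  set h' : Mat → Mat := fun P => if hP : P ∈ PD then (h ⟨P, hP⟩ : Mat) else P with hh'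
  have hh'e : ∀ P (hP : P ∈ PD), h' P = (h ⟨P, hP⟩ : Mat) := fun P hP => by
    rw [hh']; simp only [hP, dif_pos]
  refine no_isometry h' (v := v) (w := w) ?_ ?_ ?_ v0 w0 ?_ ?_ ?_ ?_ ?_
  · intro P hP
    rw [hh'e P hP]
    exact (h ⟨P, hP⟩).2
  · intro P hP Q hQ
    rw [hh'e P hP, hh'e Q hQ]
    exact hiso h hhH ⟨P, hP⟩ ⟨Q, hQ⟩
  · intro P hP
    obtain ⟨a1, a2⟩ := hleaf h hhH ⟨P, hP⟩
    rw [hh'e P hP]
    have key : ∀ z, Z0 z → nz z = Real.sqrt ((ξ1 z ^ 2 + ξ2 z ^ 2 + ξ3 z ^ 2) / 5) := by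
      intro z hz
      have : ∑ i, (z i - (0 : Fin 4 → ℝ) i) ^ 2 = ∑ i, z i * z i :=
        Finset.sum_congr rfl fun i _ => by simp; ring
      rw [nz, dz, this, inner_ξ hz hz]
      congr 1
      ring
    rw [key _ (Z0_zof _), key _ (Z0_zof _), a1, a2]
  · simp [hw]; norm_num
  · simp [hw]; norm_num
  · simp [hw]; norm_num
  · simp [hv]; norm_num
  · rw [hh'e _ hPv, hvw]

theorem main : ∃ 𝓕 : Set (Set Mat), IsSRF 𝓕 ∧ HasCodimTwo 𝓕 ∧ IsHyperpolar 𝓕 ∧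
    IsIsoparametric 𝓕 ∧ ¬ IsHomogeneous 𝓕 :=
  ⟨Fol, isSRF_fol, codimTwo_fol, hyperpolar_fol, isoparametric_fol, not_homogeneous_fol⟩

end Pool.Agent.W538.HPol
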