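import Pool.Agent.W538.HPol.Vel

/-! The metric in horospherical coordinates; derivatives of the coordinates along curves. -/

noncomputable section

namespace Pool.Agent.W538.HPol

open Matrix Set
open scoped ContDiff

lemma met_conj {g : Mat} (hg : IsUnit g.det) (P X Y : Mat) :
    met (g * P * gᵀ) (g * X * gᵀ) (g * Y * gᵀ) = met P X Y := by
  have h1 : g⁻¹ * g = 1 := Matrix.nonsing_inv_mul _ hg
  have hg' : IsUnit gᵀ.det := by rwa [Matrix.det_transpose]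
  have h2 : gᵀ * (gᵀ)⁻¹ = 1 := Matrix.mul_nonsing_inv _ hg'
  unfold met
  rw [Matrix.mul_inv_rev, Matrix.mul_inv_rev]
  have e : (gᵀ)⁻¹ * (P⁻¹ * g⁻¹) * (g * X * gᵀ) * ((gᵀ)⁻¹ * (P⁻¹ * g⁻¹)) * (g * Y * gᵀ) =
      (gᵀ)⁻¹ * (P⁻¹ * (g⁻¹ * g) * X * (gᵀ * (gᵀ)⁻¹) * P⁻¹ * (g⁻¹ * g) * Y * gᵀ) := by
    noncomm_ring
  rw [e, h1, h2, Matrix.trace_mul_comm]
  have e' : P⁻¹ * 1 * X * 1 * P⁻¹ * 1 * Y * gᵀ * (gᵀ)⁻¹ = P⁻¹ * X * P⁻¹ * Y * (gᵀ * (gᵀ)⁻¹) := by
    noncomm_ring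
  rw [e', h2, Matrix.mul_one]

lemma dg_mul_neg (z : Fin 4 → ℝ) : dg z * dg (-z) = 1 := by
  rw [dg, dg, Matrix.diagonal_mul_diagonal]
  simp [← Real.exp_add]

lemma dg_neg_mul (z : Fin 4 → ℝ) : dg (-z) * dg z = 1 := by
  rw [dg, dg, Matrix.diagonal_mul_diagonal]
  simp [← Real.exp_add]

lemma dg_inv (z : Fin 4 → ℝ) : (dg z)⁻¹ = dg (-z) := Matrix.inv_eq_right_inv (dg_mul_neg z)

lemma met_dg (z : Fin 4 → ℝ) (X Y : Mat) :
    met (dg z) X Y = ∑ i, ∑ j, Real.exp (-z i) * X i j * Real.exp (-z j) * Y j i := by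
  unfold met
  rw [dg_inv, Matrix.trace]
  refine Finset.sum_congr rfl fun i _ => ?_
  simp only [Matrix.diag_apply, Matrix.mul_apply, dg, Matrix.diagonal_apply]
  refine Finset.sum_congr rfl fun j _ => ?_
  simp [Finset.sum_ite_eq, ite_mul, mul_ite]

lemma met_PT {k : Mat} (hk : Uni k) (z : Fin 4 → ℝ) (X Y : Mat) :
    met (PT k z) X Y = met (dg z) (k⁻¹ * X * (k⁻¹)ᵀ) (k⁻¹ * Y * (k⁻¹)ᵀ) := by
  have hu := det_uni_unit hk
  rw [← met_conj hu (dg z)]
  rw [conj_inv hu, conj_inv hu]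
  rfl

lemma deriv_zof {c : ℝ → Mat} {X : Mat} {t : ℝ} {k : Mat} {z : Fin 4 → ℝ} (hc : ∀ s, c s ∈ PD)
    (h : HasVel c X t) (hk : Uni k) (hct : c t = PT k z) (i : Fin 4) :
    HasDerivAt (fun s => zof (c s) i) ((k⁻¹ * X * (k⁻¹)ᵀ) i i * Real.exp (-z i)) t := by
  have hu := det_uni_unit hk
  set E : ℝ → Mat := fun s => k⁻¹ * c s * (k⁻¹)ᵀ with hE
  have hEv : HasVel E (k⁻¹ * X * (k⁻¹)ᵀ) t := (h.lmul _).rmul _
  have hEt : E t = dg z := by
    rw [hE]; simp only []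
    rw [hct, PT, inv_conj hu]
  have hcE : ∀ s, c s = k * E s * kᵀ := fun s => by rw [hE]; simp only []; rw [conj_inv hu]
  obtain ⟨a1, a2, a3, a4⟩ := deriv_m_diag hEv hEt
  have b1 : ∀ s, m1 (c s) = m1 (E s) := fun s => by rw [hcE, m1_conj hk.1, hk.2.1]; ring
  have b2 : ∀ s, m2 (c s) = m2 (E s) := fun s => by
    rw [hcE, m2_conj hk.1, hk.2.1, hk.2.2.1]; ring
  have b3 : ∀ s, m3 (c s) = m3 (E s) := fun s => by
    rw [hcE, m3_conj hk.1, hk.2.1, hk.2.2.1, hk.2.2.2.1]; ring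
  have b4 : ∀ s, (E s).det = 1 := fun s => by
    have : (c s).det = 1 := (hc s).2
    rw [hcE, Matrix.det_mul, Matrix.det_mul, Matrix.det_transpose, det_uni hk] at this
    simpa using this
  have t1 : m1 (E t) = Real.exp (z 0) := by rw [hEt, m1_dg]
  have t2 : m2 (E t) = Real.exp (z 0) * Real.exp (z 1) := by rw [hEt, m2_dg, Real.exp_add]
  have t3 : m3 (E t) = Real.exp (z 0) * Real.exp (z 1) * Real.exp (z 2) := by
    rw [hEt, m3_dg, Real.exp_add, Real.exp_add]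
  have l1 := a1.log (by rw [t1]; positivity)
  have l2 := a2.log (by rw [t2]; positivity)
  have l3 := a3.log (by rw [t3]; positivity)
  rw [t1] at l1
  rw [t2] at l2
  rw [t3] at l3
  have a4' : HasDerivAt (fun s => (E s).det) 0 t := by
    have : (fun s => (E s).det) = fun _ => (1 : ℝ) := funext b4
    rw [this]
    exact hasDerivAt_const _ _
  have u4 := a4.unique a4'
  have p0 := Real.exp_ne_zero (z 0)
  have p1 := Real.exp_ne_zero (z 1)
  have p2 := Real.exp_ne_zero (z 2)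
  have p3 := Real.exp_ne_zero (z 3)
  simp only [zof, b1, b2, b3]
  fin_cases i
  · simp only [Fin.zero_eta, Matrix.cons_val_zero]
    refine l1.congr_deriv ?_
    rw [Real.exp_neg]; rfl
  · simp only [Fin.mk_one, Matrix.cons_val_one]
    refine (l2.sub l1).congr_deriv ?_
    rw [Real.exp_neg]; field_simp; ring
  · simp only [Fin.reduceFinMk, Matrix.cons_val]
    refine (l3.sub l2).congr_deriv ?_
    rw [Real.exp_neg]; field_simp; ring
  · simp only [Fin.reduceFinMk, Matrix.cons_val]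
    refine l3.neg.congr_deriv ?_
    rw [Real.exp_neg]; field_simp; linarith

end Pool.Agent.W538.HPol
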