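import Pool.Agent.W538.HPol.Dist

/-! The rigidity lemma: a point of the horosphere orbit which is nearest to a point of a strictly
dominant direction. -/

noncomputable section

namespace Pool.Agent.W538.HPol

open Matrix Set
open scoped ContDiff

lemma low_mul {A B : Mat} (hA : Low A) (hB : Low B) : Low (A * B) ∧
    ∀ i, (A * B) i i = A i i * B i i := by
  obtain ⟨a1, a2, a3, a4, a5, a6⟩ := hA
  obtain ⟨b1, b2, b3, b4, b5, b6⟩ := hB
  refine ⟨⟨?_, ?_, ?_, ?_, ?_, ?_⟩, fun i => ?_⟩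
  · simp [Matrix.mul_apply, Fin.sum_univ_four, a1, a2, a3, b1]
  · simp [Matrix.mul_apply, Fin.sum_univ_four, a1, a2, a3, b2]
  · simp [Matrix.mul_apply, Fin.sum_univ_four, a1, a2, a3, b3]
  · simp [Matrix.mul_apply, Fin.sum_univ_four, a4, a5, b2, b4]
  · simp [Matrix.mul_apply, Fin.sum_univ_four, a4, a5, b3, b5]
  · simp [Matrix.mul_apply, Fin.sum_univ_four, a6, b3, b5, b6]
  · fin_cases i <;>
      simp [Matrix.mul_apply, Fin.sum_univ_four, a1, a2, a3, a4, a5, a6, b1, b2, b3, b4, b5, b6]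

lemma uni_mul {A B : Mat} (hA : Uni A) (hB : Uni B) : Uni (A * B) := by
  obtain ⟨h1, h2⟩ := low_mul hA.1 hB.1
  refine ⟨h1, ?_, ?_, ?_, ?_⟩
  · rw [h2, hA.2.1, hB.2.1, one_mul]
  · rw [h2, hA.2.2.1, hB.2.2.1, one_mul]
  · rw [h2, hA.2.2.2.1, hB.2.2.2.1, one_mul]
  · rw [h2, hA.2.2.2.2, hB.2.2.2.2, one_mul]

lemma uni_one : Uni (1 : Mat) := by simp [Uni, Low]

lemma uni_inv {k : Mat} (hk : Uni k) : Uni k⁻¹ := by
  obtain ⟨⟨a1, a2, a3, a4, a5, a6⟩, a7, a8, a9, a10⟩ := hk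
  have : k⁻¹ = !![1, 0, 0, 0; -k 1 0, 1, 0, 0; k 1 0 * k 2 1 - k 2 0, -k 2 1, 1, 0;
      -k 3 0 + k 1 0 * k 3 1 - k 1 0 * k 2 1 * k 3 2 + k 2 0 * k 3 2, k 2 1 * k 3 2 - k 3 1,
        -k 3 2, 1] := by
    apply Matrix.inv_eq_right_inv
    ext i j
    fin_cases i <;> fin_cases j <;>
      simp [Matrix.mul_apply, Fin.sum_univ_four, a1, a2, a3, a4, a5, a6, a7, a8, a9, a10] <;> ring
  rw [this]
  simp [Uni, Low]

lemma low_diag (z : Fin 4 → ℝ) : Low (diagonal z) := by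
  refine ⟨?_, ?_, ?_, ?_, ?_, ?_⟩ <;> simp [Matrix.diagonal_apply]

/-- rotations -/
def rot (Ω : Mat) (θ : ℝ) : Mat := 1 + Real.sin θ • Ω + (1 - Real.cos θ) • (Ω * Ω)

lemma rot_mul {Ω : Mat} (h1 : Ωᵀ = -Ω) (h3 : Ω * Ω * Ω = -Ω) (θ : ℝ) :
    rot Ω θ * (rot Ω θ)ᵀ = 1 := by
  have ht : (rot Ω θ)ᵀ = 1 - Real.sin θ • Ω + (1 - Real.cos θ) • (Ω * Ω) := by
    simp only [rot, Matrix.transpose_add, Matrix.transpose_smul, Matrix.transpose_mul, h1,
      Matrix.transpose_one]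
    simp [sub_eq_add_neg]
  have h4 : Ω * Ω * (Ω * Ω) = -(Ω * Ω) := by
    rw [← Matrix.mul_assoc, h3, Matrix.neg_mul]
  have h3' : Ω * (Ω * Ω) = -Ω := by rw [← Matrix.mul_assoc, h3]
  rw [ht, rot]
  simp only [Matrix.add_mul, Matrix.mul_add, Matrix.mul_sub, Matrix.one_mul, Matrix.mul_one,
    Matrix.smul_mul, Matrix.mul_smul, smul_add, smul_sub, smul_smul, h3, h4, h3', smul_neg]
  have hsc := Real.sin_sq_add_cos_sq θ
  have : Real.sin θ * Real.sin θ = 1 - Real.cos θ * Real.cos θ := by nlinarith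
  rw [this]
  module

lemma det_rot {Ω : Mat} (h1 : Ωᵀ = -Ω) (h3 : Ω * Ω * Ω = -Ω) (θ : ℝ) :
    (rot Ω θ).det ^ 2 = 1 := by
  have := congrArg Matrix.det (rot_mul h1 h3 θ)
  rw [Matrix.det_mul, Matrix.det_transpose, Matrix.det_one] at this
  rw [sq]; exact this

lemma hasVel_rot (Ω : Mat) : HasVel (rot Ω) Ω 0 := by
  intro i j
  have h1 : HasDerivAt (fun θ : ℝ => Real.sin θ) 1 0 := by simpa using Real.hasDerivAt_sin 0
  have h2 : HasDerivAt (fun θ : ℝ => 1 - Real.cos θ) 0 0 := by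
    simpa using (Real.hasDerivAt_cos 0).const_sub 1
  have := ((h1.mul_const (Ω i j)).const_add ((1 : Mat) i j)).add (h2.mul_const ((Ω * Ω) i j))
  simp only [rot, Matrix.add_apply, Matrix.smul_apply, smul_eq_mul]
  refine this.congr_deriv ?_
  ring

lemma rot_zero (Ω : Mat) : rot Ω 0 = 1 := by simp [rot]

lemma sm_rot (Ω : Mat) : Sm (rot Ω) := by
  intro i j
  simp only [rot, Matrix.add_apply, Matrix.smul_apply, smul_eq_mul]
  exact (contDiff_const.add (Real.contDiff_sin.mul contDiff_const)).add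
    ((contDiff_const.sub Real.contDiff_cos).mul contDiff_const)

lemma PT_zero (k : Mat) : PT k 0 = k * kᵀ := by
  simp [PT, dg]

lemma PT_one (z : Fin 4 → ℝ) : PT 1 z = dg z := by simp [PT]

lemma dg_zero : dg 0 = 1 := by simp [dg]

lemma one_mem : (1 : Mat) ∈ PD := by
  have := PT_mem uni_one (z := 0) (by simp)
  rwa [PT_one, dg_zero] at this

/-- norm of the coordinates -/
def nz (z : Fin 4 → ℝ) : ℝ := dz z 0

/-- first order condition -/
lemma first_order {k : Mat} (hk : Uni k) {z : Fin 4 → ℝ} (hz : z 0 + z 1 + z 2 + z 3 = 0)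
    (hd : rdist (dg z) (k * kᵀ) ≤ nz z) {Ω : Mat} (h1 : Ωᵀ = -Ω) (h3 : Ω * Ω * Ω = -Ω) :
    ∑ i, z i * (k⁻¹ * Ω * k) i i = 0 := by
  have hP : dg z ∈ PD := by rw [← PT_one]; exact PT_mem uni_one hz
  have hQ : k * kᵀ ∈ PD := by rw [← PT_zero]; exact PT_mem hk (by simp)
  have hG := fun θ => det_rot h1 h3 θ
  have c1 : ∀ θ, rot Ω θ * dg z * (rot Ω θ)ᵀ ∈ PD := fun θ => conj_mem (hG θ) hP
  have c2 : ∀ θ, rot Ω θ * (k * kᵀ) * (rot Ω θ)ᵀ ∈ PD := fun θ => conj_mem (hG θ) hQ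
  have v1 : HasVel (fun θ => rot Ω θ * dg z * (rot Ω θ)ᵀ) (Ω * dg z * 1 + 1 * dg z * Ωᵀ) 0 := by
    have := ((hasVel_rot Ω).rmul (dg z)).mul (hasVel_rot Ω).transpose
    simpa [rot_zero] using this
  have v2 : HasVel (fun θ => rot Ω θ * (k * kᵀ) * (rot Ω θ)ᵀ)
      (Ω * (k * kᵀ) * 1 + 1 * (k * kᵀ) * Ωᵀ) 0 := by
    have := ((hasVel_rot Ω).rmul (k * kᵀ)).mul (hasVel_rot Ω).transpose
    simpa [rot_zero] using this
  have e1 := fun i => deriv_zof c1 v1 uni_one (z := z) (by simp [rot_zero, PT_one]) i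
  have e2 := fun i => deriv_zof c2 v2 hk (z := 0) (by simp [rot_zero, PT_zero]) i
  have f1 : ∀ i, HasDerivAt (fun θ => zof (rot Ω θ * dg z * (rot Ω θ)ᵀ) i) 0 0 := by
    intro i
    refine (e1 i).congr_deriv ?_
    have : Ω i i = 0 := by
      have := congrFun (congrFun h1 i) i
      simp only [Matrix.transpose_apply, Matrix.neg_apply] at this
      linarith
    simp [dg, Matrix.mul_diagonal, Matrix.diagonal_mul, this]
  have f2 : ∀ i, HasDerivAt (fun θ => zof (rot Ω θ * (k * kᵀ) * (rot Ω θ)ᵀ) i)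
      (2 * (k⁻¹ * Ω * k) i i) 0 := by
    intro i
    refine (e2 i).congr_deriv ?_
    have hu := det_uni_unit hk
    have q1 : kᵀ * (k⁻¹)ᵀ = 1 := by
      rw [← Matrix.transpose_mul, Matrix.nonsing_inv_mul _ hu, Matrix.transpose_one]
    have q2 : k⁻¹ * k = 1 := Matrix.nonsing_inv_mul _ hu
    have : k⁻¹ * (Ω * (k * kᵀ) * 1 + 1 * (k * kᵀ) * Ωᵀ) * (k⁻¹)ᵀ =
        k⁻¹ * Ω * k + (k⁻¹ * Ω * k)ᵀ := by
      have : k⁻¹ * (Ω * (k * kᵀ) * 1 + 1 * (k * kᵀ) * Ωᵀ) * (k⁻¹)ᵀ =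
        k⁻¹ * Ω * k * (kᵀ * (k⁻¹)ᵀ) + (k⁻¹ * k) * kᵀ * Ωᵀ * (k⁻¹)ᵀ := by noncomm_ring
      rw [this, q1, q2, Matrix.transpose_mul, Matrix.transpose_mul]
      noncomm_ring
    rw [this]
    simp only [Matrix.add_apply, Matrix.transpose_apply, Pi.zero_apply, neg_zero, Real.exp_zero]
    ring
  set f : ℝ → ℝ := fun θ => ∑ i, (zof (rot Ω θ * dg z * (rot Ω θ)ᵀ) i -
    zof (rot Ω θ * (k * kᵀ) * (rot Ω θ)ᵀ) i) ^ 2 with hf
  have z1 : zof (dg z) = z := by rw [← PT_one]; exact zof_PT uni_one hz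
  have z2 : zof (k * kᵀ) = 0 := by rw [← PT_zero]; exact zof_PT hk (by simp)
  have hf0 : f 0 = ∑ i, z i ^ 2 := by
    rw [hf]
    simp only [rot_zero, Matrix.one_mul, Matrix.transpose_one, Matrix.mul_one]
    rw [z1, z2]
    simp
  have hS0 : 0 ≤ ∑ i, z i ^ 2 := Finset.sum_nonneg fun i _ => sq_nonneg _
  have hmax : ∀ θ, f θ ≤ f 0 := by
    intro θ
    have a := (dz_le_rdist (c1 θ) (c2 θ)).trans ((rdist_conj_le (hG θ) hP hQ).trans hd)
    rw [hf0]
    have a' : Real.sqrt (f θ) ≤ Real.sqrt (∑ i, z i ^ 2) := by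
      simpa [nz, dz, hf] using a
    exact (Real.sqrt_le_sqrt_iff hS0).1 a'
  have hder : HasDerivAt f (∑ i, 2 * (z i - 0) * (0 - 2 * (k⁻¹ * Ω * k) i i)) 0 := by
    have : ∀ i ∈ (Finset.univ : Finset (Fin 4)),
        HasDerivAt (fun θ => (zof (rot Ω θ * dg z * (rot Ω θ)ᵀ) i -
        zof (rot Ω θ * (k * kᵀ) * (rot Ω θ)ᵀ) i) ^ 2)
        (2 * (z i - 0) * (0 - 2 * (k⁻¹ * Ω * k) i i)) 0 := by
      intro i _
      have := ((f1 i).sub (f2 i)).pow 2
      refine this.congr_deriv ?_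
      simp [rot_zero, z1, z2]
    exact HasDerivAt.fun_sum this
  have hloc : IsLocalMax f 0 := Filter.Eventually.of_forall hmax
  have := hloc.hasDerivAt_eq_zero hder
  have h5 : ∑ i, 2 * (z i - 0) * (0 - 2 * (k⁻¹ * Ω * k) i i) =
      -4 * ∑ i, z i * (k⁻¹ * Ω * k) i i := by
    rw [Finset.mul_sum]
    refine Finset.sum_congr rfl fun i _ => ?_
    ring
  rw [h5] at this
  linarith

lemma rigid {k : Mat} (hk : Uni k) {z : Fin 4 → ℝ} (hz : z 0 + z 1 + z 2 + z 3 = 0)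
    (hd : rdist (dg z) (k * kᵀ) ≤ nz z) (h01 : z 1 < z 0) (h12 : z 2 < z 1) (h23 : z 3 < z 2) :
    k = 1 := by
  have hu := det_uni_unit hk
  set M := k * diagonal z * k⁻¹ with hM
  obtain ⟨l1, l2⟩ := low_mul hk.1 (low_diag z)
  obtain ⟨l3, l4⟩ := low_mul l1 (uni_inv hk).1
  have key : ∀ a b : Fin 4, a ≠ b → M b a = M a b := by
    intro a b hab
    set Ω : Mat := Matrix.single a b 1 - Matrix.single b a 1 with hΩ
    have h1 : Ωᵀ = -Ω := by
      rw [hΩ, Matrix.transpose_sub, Matrix.transpose_single, Matrix.transpose_single, neg_sub]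
    have h3 : Ω * Ω * Ω = -Ω := by
      rw [hΩ]
      simp only [Matrix.sub_mul, Matrix.mul_sub]
      simp [hab, hab.symm]
      abel
    have := first_order hk hz hd h1 h3
    have e : ∑ i, z i * (k⁻¹ * Ω * k) i i = (M * Ω).trace := by
      have : ∑ i, z i * (k⁻¹ * Ω * k) i i = (diagonal z * (k⁻¹ * Ω * k)).trace := by
        simp only [Matrix.trace, Matrix.diag_apply, Matrix.diagonal_mul]
      rw [this]
      have : diagonal z * (k⁻¹ * Ω * k) = (diagonal z * k⁻¹ * Ω) * k := by noncomm_ring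
      rw [this, Matrix.trace_mul_comm]
      congr 1
      rw [hM]; noncomm_ring
    rw [e, hΩ, Matrix.mul_sub, Matrix.trace_sub] at this
    simp [Matrix.trace_mul_single] at this
    linarith
  have hMd : M = diagonal z := by
    have d : ∀ i, M i i = z i := by
      intro i
      rw [hM, l4, l2]
      have k1 : k i i = 1 := by fin_cases i <;> simp [hk.2.1, hk.2.2.1, hk.2.2.2.1, hk.2.2.2.2]
      have k2 : k⁻¹ i i = 1 := by
        have := uni_inv hk
        fin_cases i <;> simp [this.2.1, this.2.2.1, this.2.2.2.1, this.2.2.2.2]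
      rw [k1, k2]; simp
    obtain ⟨n1, n2, n3, n4, n5, n6⟩ := l3
    have n1' := key 0 1 (by decide)
    have n2' := key 0 2 (by decide)
    have n3' := key 0 3 (by decide)
    have n4' := key 1 2 (by decide)
    have n5' := key 1 3 (by decide)
    have n6' := key 2 3 (by decide)
    rw [← hM] at n1 n2 n3 n4 n5 n6
    ext i j
    fin_cases i <;> fin_cases j <;> simp [d, n1, n2, n3, n4, n5, n6, n1', n2', n3', n4', n5', n6']
  have hcomm : k * diagonal z = diagonal z * k := by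
    have h6 : M * k = k * diagonal z := by
      rw [hM, Matrix.mul_assoc, Matrix.nonsing_inv_mul _ hu, Matrix.mul_one]
    rw [← h6, hMd]
  have hij : ∀ i j, z i ≠ z j → k i j = 0 := by
    intro i j hne
    have := congrFun (congrFun hcomm i) j
    rw [Matrix.mul_diagonal, Matrix.diagonal_mul] at this
    have : (z i - z j) * k i j = 0 := by linarith
    rcases mul_eq_zero.1 this with h | h
    · exact absurd (sub_eq_zero.1 h) hne
    · exact h
  ext i j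
  by_cases h : i = j
  · subst h
    rw [Matrix.one_apply_eq]
    fin_cases i <;> simp [hk.2.1, hk.2.2.1, hk.2.2.2.1, hk.2.2.2.2]
  · rw [Matrix.one_apply_ne h]
    apply hij
    fin_cases i <;> fin_cases j <;> simp at h ⊢ <;> (intro hc; linarith)

end Pool.Agent.W538.HPol
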