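import Pool.Agent.W538.HPol.Alg

/-! Velocities of curves of matrices. -/

noncomputable section

namespace Pool.Agent.W538.HPol

open Matrix Set
open scoped ContDiff

/-- `X` is the velocity of `c` at `t` -/
def HasVel (c : ℝ → Mat) (X : Mat) (t : ℝ) : Prop := ∀ i j, HasDerivAt (fun s => c s i j) (X i j) t

lemma HasVel.vel {c : ℝ → Mat} {X : Mat} {t : ℝ} (h : HasVel c X t) : vel c t = X := by
  ext i j
  exact (h i j).deriv

lemma HasVel.mul {c d : ℝ → Mat} {X Y : Mat} {t : ℝ} (h : HasVel c X t) (h' : HasVel d Y t) :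
    HasVel (fun s => c s * d s) (X * d t + c t * Y) t := by
  intro i j
  simp only [Matrix.mul_apply, Matrix.add_apply]
  rw [← Finset.sum_add_distrib]
  exact HasDerivAt.fun_sum fun k _ => (h i k).mul (h' k j)

lemma HasVel.transpose {c : ℝ → Mat} {X : Mat} {t : ℝ} (h : HasVel c X t) :
    HasVel (fun s => (c s)ᵀ) Xᵀ t := fun i j => h j i

lemma hasVel_const (A : Mat) (t : ℝ) : HasVel (fun _ => A) 0 t := fun i j => by
  simpa using hasDerivAt_const t (A i j)

lemma HasVel.lmul {c : ℝ → Mat} {X : Mat} {t : ℝ} (A : Mat) (h : HasVel c X t) :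
    HasVel (fun s => A * c s) (A * X) t := by
  simpa using (hasVel_const A t).mul h

lemma HasVel.rmul {c : ℝ → Mat} {X : Mat} {t : ℝ} (A : Mat) (h : HasVel c X t) :
    HasVel (fun s => c s * A) (X * A) t := by
  simpa using h.mul (hasVel_const A t)

lemma HasVel.unique {c : ℝ → Mat} {X Y : Mat} {t : ℝ} (h : HasVel c X t) (h' : HasVel c Y t) :
    X = Y := by
  rw [← h.vel, ← h'.vel]

/-- smooth family of matrices -/
def Sm {E : Type*} [NormedAddCommGroup E] [NormedSpace ℝ E] (c : E → Mat) : Prop :=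
  ∀ i j, ContDiff ℝ ∞ fun t => c t i j

lemma Sm.hasVel {c : ℝ → Mat} (h : Sm c) (t : ℝ) : HasVel c (vel c t) t := fun i j =>
  ((h i j).differentiable (by simp) t).hasDerivAt

section
variable {E : Type*} [NormedAddCommGroup E] [NormedSpace ℝ E]

lemma Sm.mul {c d : E → Mat} (h : Sm c) (h' : Sm d) : Sm fun s => c s * d s := by
  intro i j
  simp only [Matrix.mul_apply]
  exact ContDiff.sum fun k _ => (h i k).mul (h' k j)

lemma Sm.transpose {c : E → Mat} (h : Sm c) : Sm fun s => (c s)ᵀ := fun i j => h j i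

lemma sm_const (A : Mat) : Sm fun _ : E => A := fun _ _ => contDiff_const

lemma Sm.add {c d : E → Mat} (h : Sm c) (h' : Sm d) : Sm fun s => c s + d s := fun i j =>
  (h i j).add (h' i j)

lemma sm_dg {z : E → Fin 4 → ℝ} (h : ∀ i, ContDiff ℝ ∞ fun t => z t i) : Sm fun t => dg (z t) := by
  intro i j
  simp only [dg, Matrix.diagonal_apply]
  by_cases hij : i = j
  · simp only [hij, if_true]
    exact Real.contDiff_exp.comp (h j)
  · simp only [hij, if_false]
    exact contDiff_const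

lemma sm_PT {k : E → Mat} {z : E → Fin 4 → ℝ} (hk : Sm k) (h : ∀ i, ContDiff ℝ ∞ fun t => z t i) :
    Sm fun t => PT (k t) (z t) := (hk.mul (sm_dg h)).mul hk.transpose

end

lemma Sm.vel {c : ℝ → Mat} (h : Sm c) : Sm (vel c) := by
  intro i j
  have := h i j
  simp only [HPol.vel, Matrix.of_apply]
  rw [contDiff_infty_iff_deriv] at this
  exact this.2

lemma hasVel_dg {z : ℝ → Fin 4 → ℝ} {v : Fin 4 → ℝ} {t : ℝ}
    (h : ∀ i, HasDerivAt (fun t => z t i) (v i) t) :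
    HasVel (fun t => dg (z t)) (dg (z t) * diagonal v) t := by
  intro i j
  rw [dg, Matrix.diagonal_mul_diagonal]
  simp only [dg, Matrix.diagonal_apply]
  by_cases hij : i = j
  · simp only [hij, if_true]
    exact (h j).exp
  · simp only [hij, if_false]
    exact hasDerivAt_const _ _

lemma hasVel_PT {k : ℝ → Mat} {z : ℝ → Fin 4 → ℝ} {K : Mat} {v : Fin 4 → ℝ} {t : ℝ}
    (hk : HasVel k K t) (h : ∀ i, HasDerivAt (fun t => z t i) (v i) t) :
    HasVel (fun t => PT (k t) (z t)) (K * dg (z t) * (k t)ᵀ + k t * dg (z t) * Kᵀ +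
      k t * (dg (z t) * diagonal v) * (k t)ᵀ) t := by
  have := (hk.mul (hasVel_dg h)).mul hk.transpose
  have e : K * dg (z t) * (k t)ᵀ + k t * dg (z t) * Kᵀ + k t * (dg (z t) * diagonal v) * (k t)ᵀ =
      (K * dg (z t) + k t * (dg (z t) * diagonal v)) * (k t)ᵀ + k t * dg (z t) * Kᵀ := by
    rw [Matrix.add_mul]
    abel
  rw [e]
  exact this

/-! derivatives of the minors -/

lemma det_uni_unit {k : Mat} (hk : Uni k) : IsUnit k.det := by rw [det_uni hk]; exact isUnit_one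

lemma conj_inv {k : Mat} (hk : IsUnit k.det) (P : Mat) : k * (k⁻¹ * P * (k⁻¹)ᵀ) * kᵀ = P := by
  have h1 : (k⁻¹)ᵀ * kᵀ = 1 := by
    rw [← Matrix.transpose_mul, Matrix.mul_nonsing_inv _ hk, Matrix.transpose_one]
  calc k * (k⁻¹ * P * (k⁻¹)ᵀ) * kᵀ = (k * k⁻¹) * P * ((k⁻¹)ᵀ * kᵀ) := by noncomm_ring
    _ = P := by rw [h1, Matrix.mul_nonsing_inv _ hk]; simp

lemma inv_conj {k : Mat} (hk : IsUnit k.det) (P : Mat) : k⁻¹ * (k * P * kᵀ) * (k⁻¹)ᵀ = P := by
  have h1 : kᵀ * (k⁻¹)ᵀ = 1 := by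
    rw [← Matrix.transpose_mul, Matrix.nonsing_inv_mul _ hk, Matrix.transpose_one]
  calc k⁻¹ * (k * P * kᵀ) * (k⁻¹)ᵀ = (k⁻¹ * k) * P * (kᵀ * (k⁻¹)ᵀ) := by noncomm_ring
    _ = P := by rw [h1, Matrix.nonsing_inv_mul _ hk]; simp

lemma deriv_m_diag {E : ℝ → Mat} {X : Mat} {z : Fin 4 → ℝ} {t : ℝ} (h : HasVel E X t)
    (hE : E t = dg z) :
    HasDerivAt (fun s => m1 (E s)) (X 0 0) t ∧
    HasDerivAt (fun s => m2 (E s)) (X 0 0 * Real.exp (z 1) + Real.exp (z 0) * X 1 1) t ∧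
    HasDerivAt (fun s => m3 (E s)) (X 0 0 * Real.exp (z 1) * Real.exp (z 2) +
      Real.exp (z 0) * X 1 1 * Real.exp (z 2) + Real.exp (z 0) * Real.exp (z 1) * X 2 2) t ∧
    HasDerivAt (fun s => (E s).det) (X 0 0 * Real.exp (z 1) * Real.exp (z 2) * Real.exp (z 3) +
      Real.exp (z 0) * X 1 1 * Real.exp (z 2) * Real.exp (z 3) +
      Real.exp (z 0) * Real.exp (z 1) * X 2 2 * Real.exp (z 3) +
      Real.exp (z 0) * Real.exp (z 1) * Real.exp (z 2) * X 3 3) t := by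
  have d : ∀ i j, E t i j = if i = j then Real.exp (z i) else 0 := by
    intro i j; rw [hE, dg, Matrix.diagonal_apply]
  have d00 := d 0 0
  have d01 := d 0 1
  have d02 := d 0 2
  have d03 := d 0 3
  have d10 := d 1 0
  have d11 := d 1 1
  have d12 := d 1 2
  have d13 := d 1 3
  have d20 := d 2 0
  have d21 := d 2 1
  have d22 := d 2 2
  have d23 := d 2 3
  have d30 := d 3 0
  have d31 := d 3 1
  have d32 := d 3 2
  have d33 := d 3 3
  simp at d00 d01 d02 d03 d10 d11 d12 d13 d20 d21 d22 d23 d30 d31 d32 d33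
  have H : ∀ i j, HasDerivAt (fun s => E s i j) (X i j) t := h
  refine ⟨h 0 0, ?_, ?_, ?_⟩
  · have := ((H 0 0).mul (H 1 1)).sub ((H 0 1).mul (H 1 0))
    refine this.congr_deriv ?_
    rw [d00, d11, d01, d10]; ring
  · have := (((H 0 0).mul (((H 1 1).mul (H 2 2)).sub ((H 1 2).mul (H 2 1)))).sub
      ((H 0 1).mul (((H 1 0).mul (H 2 2)).sub ((H 1 2).mul (H 2 0))))).add
      ((H 0 2).mul (((H 1 0).mul (H 2 1)).sub ((H 1 1).mul (H 2 0))))
    refine this.congr_deriv ?_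
    simp only [Pi.mul_apply, Pi.sub_apply, Pi.add_apply, d00, d01, d02, d10, d11, d12, d20, d21,
      d22]
    ring
  · simp only [det_four]
    have := ((((H 0 0).mul ((((H 1 1).mul (((H 2 2).mul (H 3 3)).sub ((H 2 3).mul (H 3 2)))).sub
        ((H 1 2).mul (((H 2 1).mul (H 3 3)).sub ((H 2 3).mul (H 3 1))))).add
        ((H 1 3).mul (((H 2 1).mul (H 3 2)).sub ((H 2 2).mul (H 3 1)))))).sub
      ((H 0 1).mul ((((H 1 0).mul (((H 2 2).mul (H 3 3)).sub ((H 2 3).mul (H 3 2)))).sub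
        ((H 1 2).mul (((H 2 0).mul (H 3 3)).sub ((H 2 3).mul (H 3 0))))).add
        ((H 1 3).mul (((H 2 0).mul (H 3 2)).sub ((H 2 2).mul (H 3 0))))))).add
      ((H 0 2).mul ((((H 1 0).mul (((H 2 1).mul (H 3 3)).sub ((H 2 3).mul (H 3 1)))).sub
        ((H 1 1).mul (((H 2 0).mul (H 3 3)).sub ((H 2 3).mul (H 3 0))))).add
        ((H 1 3).mul (((H 2 0).mul (H 3 1)).sub ((H 2 1).mul (H 3 0))))))).sub
      ((H 0 3).mul ((((H 1 0).mul (((H 2 1).mul (H 3 2)).sub ((H 2 2).mul (H 3 1)))).sub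
        ((H 1 1).mul (((H 2 0).mul (H 3 2)).sub ((H 2 2).mul (H 3 0))))).add
        ((H 1 2).mul (((H 2 0).mul (H 3 1)).sub ((H 2 1).mul (H 3 0))))))
    refine this.congr_deriv ?_
    simp only [Pi.mul_apply, Pi.sub_apply, Pi.add_apply, d00, d01, d02, d03, d10, d11, d12, d13,
      d20, d21, d22, d23, d30, d31, d32, d33]
    ring

end Pool.Agent.W538.HPol
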